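import Mathlib
import Pool.Agent.U73.LC.Stm
import Pool.Agent.N72.SZ_EUPQ
import Pool.Agent.N92.SZ_UPB

/-!
Project LC (helper73), package GS (helper37): sums over the divisors.
-/

set_option autoImplicit false

namespace Pool.Agent.U37.LC

open Finset
open Pool.Agent.U73.LC

theorem gs_sum (ε : ℝ) (hε : 0 < ε) : ∃ C : ℝ, 0 < C ∧
    ∀ (K : ℝ) (F : Finset ℕ), 1 ≤ K → (∀ n ∈ F, K ≤ (n : ℝ)) →
    ∑ n ∈ F, (2 : ℝ) ^ n.primeFactors.card / ((n : ℝ) * ∏ p ∈ n.primeFactors, (p : ℝ)) ≤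
      C * K ^ (-1 + ε) := by
  obtain ⟨u₀, hu0, hu1, h⟩ := Pool.Agent.N72.SZ.gupq 2 0 1 (by norm_num) le_rfl (by norm_num) one_pos
  obtain ⟨u, hu⟩ : ∃ u : ℝ, u = min ε (u₀ / 2) := ⟨_, rfl⟩
  have hup : 0 < u := by rw [hu]; exact lt_min hε (by linarith)
  have huε : u ≤ ε := by rw [hu]; exact min_le_left _ _
  have huu : u < u₀ := by
    have : u ≤ u₀ / 2 := by rw [hu]; exact min_le_right _ _
    linarith
  refine ⟨_, Real.exp_pos ((1 + 1) * 2 / (u * Real.log (1 / u))), ?_⟩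
  intro K F hK hF
  have hKp : 0 < K := by linarith
  have hn1 : ∀ n ∈ F, 1 ≤ n := by
    intro n hn
    have := hF n hn
    have h2 : (1 : ℝ) ≤ n := by linarith
    exact_mod_cast h2
  have h1 := h u hup huu F hn1
  have h2 : ∀ n ∈ F, (2 : ℝ) ^ n.primeFactors.card / ((n : ℝ) * ∏ p ∈ n.primeFactors, (p : ℝ)) ≤
      K ^ (-1 + u) * ((2 : ℝ) ^ n.primeFactors.card * (n : ℝ) ^ (-u) *
      ((∏ p ∈ n.primeFactors, p : ℕ) : ℝ) ^ (-(1 - 0 * u))) := by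
    intro n hn
    have hnK := hF n hn
    have hnp : (0 : ℝ) < n := by linarith
    have hrd : (0 : ℝ) < ∏ p ∈ n.primeFactors, (p : ℝ) := by
      apply Finset.prod_pos
      intro p hp
      exact_mod_cast (Nat.prime_of_mem_primeFactors hp).pos
    have e0 : ((∏ p ∈ n.primeFactors, p : ℕ) : ℝ) ^ (-(1 - 0 * u)) =
        (∏ p ∈ n.primeFactors, (p : ℝ))⁻¹ := by
      rw [zero_mul, sub_zero, Real.rpow_neg_one]
      push_cast
      rfl
    have e1 : (2 : ℝ) ^ n.primeFactors.card / ((n : ℝ) * ∏ p ∈ n.primeFactors, (p : ℝ)) =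
        (n : ℝ) ^ (-1 + u) * ((2 : ℝ) ^ n.primeFactors.card * (n : ℝ) ^ (-u) *
        (∏ p ∈ n.primeFactors, (p : ℝ))⁻¹) := by
      have e2 : (n : ℝ) ^ (-1 + u) * (n : ℝ) ^ (-u) = (n : ℝ)⁻¹ := by
        rw [← Real.rpow_add hnp]
        norm_num
        rw [Real.rpow_neg_one]
      calc (2 : ℝ) ^ n.primeFactors.card / ((n : ℝ) * ∏ p ∈ n.primeFactors, (p : ℝ))
          = (n : ℝ)⁻¹ * ((2 : ℝ) ^ n.primeFactors.card * (∏ p ∈ n.primeFactors, (p : ℝ))⁻¹) := by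
            field_simp
        _ = _ := by rw [← e2]; ring
    rw [e0, e1]
    apply mul_le_mul_of_nonneg_right _ (by positivity)
    exact Real.rpow_le_rpow_of_nonpos hKp hnK (by linarith)
  calc ∑ n ∈ F, (2 : ℝ) ^ n.primeFactors.card / ((n : ℝ) * ∏ p ∈ n.primeFactors, (p : ℝ))
      ≤ ∑ n ∈ F, K ^ (-1 + u) * ((2 : ℝ) ^ n.primeFactors.card * (n : ℝ) ^ (-u) *
        ((∏ p ∈ n.primeFactors, p : ℕ) : ℝ) ^ (-(1 - 0 * u))) := Finset.sum_le_sum h2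
    _ = K ^ (-1 + u) * ∑ n ∈ F, ((2 : ℝ) ^ n.primeFactors.card * (n : ℝ) ^ (-u) *
        ((∏ p ∈ n.primeFactors, p : ℕ) : ℝ) ^ (-(1 - 0 * u))) := by rw [mul_sum]
    _ ≤ K ^ (-1 + ε) * Real.exp ((1 + 1) * 2 / (u * Real.log (1 / u))) := by
        gcongr
    _ = _ := by ring

theorem t_GS : S_GS := by
  intro ε hε
  obtain ⟨u, hu⟩ : ∃ u : ℝ, u = min ε (1 / 2) := ⟨_, rfl⟩
  have hup : 0 < u := by rw [hu]; exact lt_min hε (by norm_num)
  have huε : u ≤ ε := by rw [hu]; exact min_le_left _ _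
  have hu1 : u ≤ 1 := by rw [hu]; exact (min_le_right _ _).trans (by norm_num)
  obtain ⟨C₁, hC₁, h1⟩ := gs_sum u hup
  obtain ⟨C₂, hC₂, h2⟩ := Pool.Agent.N92.SZ.omega_bound ε hε
  refine ⟨max C₁ C₂, lt_max_of_lt_left hC₁, ?_, ?_⟩
  · intro K F hK hF
    refine (h1 K F hK hF).trans ?_
    have h3 : K ^ (-1 + u) ≤ K ^ (-1 + ε) := Real.rpow_le_rpow_of_exponent_le hK (by linarith)
    have h4 : 0 ≤ K ^ (-1 + u) := Real.rpow_nonneg (by linarith) _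
    exact mul_le_mul (le_max_left _ _) h3 h4 (le_trans hC₁.le (le_max_left _ _))
  · intro n hn
    have h3 : (2 : ℝ) ^ n.primeFactors.card ≤ (6 : ℝ) ^ n.primeFactors.card := by
      gcongr
      norm_num
    refine h3.trans ((h2 n hn).trans ?_)
    exact mul_le_mul_of_nonneg_right (le_max_right _ _) (Real.rpow_nonneg (Nat.cast_nonneg n) _)

end Pool.Agent.U37.LC
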