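import Mathlib

/-!
Project LC: absolute continuity of the spectrum of `-Δ - α δ(x - Γ)` for periodic curves `Γ` in the
plane (MP_daec8e_mp). Statements of the independent lemmas.
-/

set_option autoImplicit false

open MeasureTheory Filter Topology Complex
open scoped ComplexConjugate InnerProductSpace BoundedContinuousFunction

namespace Pool.Agent.U37.LC

abbrev E2 := EuclideanSpace ℝ (Fin 2)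

/-- the Hilbert space of the curve (one period) -/
noncomputable abbrev XX (L : ℝ) := Lp ℂ 2 ((volume : Measure ℝ).restrict (Set.Ioc (0 : ℝ) L))

noncomputable def rho (n : ℤ) (η : ℝ) : ℝ := 1 + (n : ℝ) ^ 2 + η ^ 2

/-- coordinates of a periodic curve -/
structure Coord (L : ℝ) (X Y : ℝ → ℝ) : Prop where
  pos : 0 < L
  contX : Continuous X
  contY : Continuous Y
  perX : ∀ s, X (s + L) = X s + 1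
  perY : ∀ s, Y (s + L) = Y s
  lower : ∃ c : ℝ, 0 < c ∧ ∀ s t, c * |s - t| ≤ |X s - X t| + |Y s - Y t|

noncomputable def ee (X Y : ℝ → ℝ) (p η s : ℝ) : ℂ :=
  cexp (2 * Real.pi * I * (p * X s + η * Y s))

/-- approximable by finite rank operators -/
def Approx {V : Type*} [NormedAddCommGroup V] [NormedSpace ℂ V] (T : V →L[ℂ] V) : Prop :=
  ∀ ε : ℝ, 0 < ε → ∃ (r : ℕ) (u : (Fin r → ℂ) →L[ℂ] V) (v : V →L[ℂ] (Fin r → ℂ)),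
    ‖T - u.comp v‖ < ε

/-- Job Bilip -/
def JobBilip : Prop := ∀ (γ : ℝ → E2) (L : ℝ) (l : E2), ContDiff ℝ 1 γ → (∀ s, ‖deriv γ s‖ = 1) →
  Function.Injective γ → 0 < L → (∀ s, γ (s + L) = γ s + l) →
  ∃ c : ℝ, 0 < c ∧ ∀ s t, c * |s - t| ≤ ‖γ s - γ t‖

/-- Job Trace -/
def JobTrace : Prop := ∀ (L : ℝ) (X Y : ℝ → ℝ), Coord L X Y → ∃ C : ℝ, 0 < C ∧ ∀ b : ℝ → ℂ,
  MemLp b 2 (volume.restrict (Set.Ioc (0 : ℝ) L)) →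
  ∑' n : ℤ, ∫⁻ η : ℝ, ENNReal.ofReal (rho n η ^ (-(3 / 4) : ℝ) *
    ‖∫ s in Set.Ioc (0 : ℝ) L, conj (ee X Y n η s) * b s‖ ^ 2) ≤
  ENNReal.ofReal (C * ∫ s in Set.Ioc (0 : ℝ) L, ‖b s‖ ^ 2)

/-- Job FT -/
def JobFT : Prop := ∀ (β : ℂ) (y : ℝ), 0 < β.re →
  Integrable (fun η : ℝ => cexp (2 * Real.pi * I * (η * y)) / (β ^ 2 + 4 * Real.pi ^ 2 * η ^ 2)) ∧
  ∫ η : ℝ, cexp (2 * Real.pi * I * (η * y)) / (β ^ 2 + 4 * Real.pi ^ 2 * η ^ 2) =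
    cexp (-β * |y|) / (2 * β)

/-- Job Decay -/
def JobDecay : Prop := ∀ (θ lam : ℝ), 0 < θ →
  Tendsto (fun τ : ℝ => ∑' n : ℤ, ∫⁻ η : ℝ, ENNReal.ofReal (rho n η ^ (3 / 4 : ℝ) /
    ‖(θ : ℂ) ^ 2 * ((1 / 2 : ℂ) + I * τ + n) ^ 2 + 4 * Real.pi ^ 2 * η ^ 2 - lam‖ ^ 2))
    atTop (𝓝 0)

/-- Job Spectral -/
def JobSpectral : Prop := ∀ (H : Type) [NormedAddCommGroup H] [InnerProductSpace ℂ H]
  [CompleteSpace H] (G : H →L[ℂ] H) (c : ℝ), (∀ x y, ⟪G x, y⟫_ℂ = ⟪x, G y⟫_ℂ) →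
  (∀ x, 0 ≤ (⟪x, G x⟫_ℂ).re) → (∀ x, G x = 0 → x = 0) →
  ∀ f : H, ∃ μ : Measure ℝ, IsFiniteMeasure μ ∧ μ Set.univ = ENNReal.ofReal (‖f‖ ^ 2) ∧
    ∀ z : ℂ, z.im ≠ 0 → ∀ u : H, u - (z + c) • G u = G f → ⟪f, u⟫_ℂ = ∫ x : ℝ, 1 / ((x : ℂ) - z) ∂μ

/-- Job AbsCont -/
def JobAbsCont : Prop := ∀ μ : Measure ℝ, IsFiniteMeasure μ →
  (∀ E : Set ℝ, IsCompact E → volume E = 0 → ∀ δ : ℝ, 0 < δ → ∃ V : Set ℝ, IsOpen V ∧ E ⊆ V ∧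
    ∃ ε₀ : ℝ, 0 < ε₀ ∧ ∀ ε : ℝ, 0 < ε → ε < ε₀ →
      ∫⁻ t in V, ∫⁻ x, ENNReal.ofReal (ε / ((x - t) ^ 2 + ε ^ 2)) ∂μ ≤ ENNReal.ofReal δ) →
  μ ≪ volume

/-- Job Connected: analytic Fredholm theorem -/
def JobConnected : Prop := ∀ (V : Type) [NormedAddCommGroup V] [NormedSpace ℂ V] [CompleteSpace V]
  (Ω : Set ℂ) (T : ℂ → V →L[ℂ] V), IsOpen Ω → IsPreconnected Ω → (∀ k ∈ Ω, AnalyticAt ℂ T k) →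
  (∀ k ∈ Ω, Approx (T k)) → (∃ k ∈ Ω, IsUnit (1 - T k)) →
  ∀ k ∈ Ω, ∀ᶠ k' in 𝓝[≠] k, IsUnit (1 - T k')

/-- Job NullProj: the projection of the exceptional set -/
def JobNullProj : Prop := ∀ (V : Type) [NormedAddCommGroup V] [NormedSpace ℂ V] [CompleteSpace V]
  (T : ℂ × ℂ → V →L[ℂ] V) (l₀ k₀ : ℝ), AnalyticAt ℂ T ((l₀ : ℂ), (k₀ : ℂ)) →
  Approx (T ((l₀ : ℂ), (k₀ : ℂ))) →
  (∀ᶠ p : ℝ × ℝ in 𝓝 (l₀, k₀), ∀ᶠ k' : ℂ in 𝓝[≠] (p.2 : ℂ), IsUnit (1 - T ((p.1 : ℂ), k'))) →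
  ∃ O ∈ 𝓝 (l₀, k₀), ∀ E : Set ℝ, volume E = 0 →
    volume {k : ℝ | ∃ l ∈ E, (l, k) ∈ O ∧ ¬ IsUnit (1 - T ((l : ℂ), (k : ℂ)))} = 0

/-- Job Kernel: integral operators with bounded continuous kernels -/
def JobKernel : Prop := ∀ L : ℝ, 0 < L → ∃ K : (ℝ × ℝ →ᵇ ℂ) →L[ℂ] (XX L →L[ℂ] XX L),
  (∀ k a b, ⟪a, K k b⟫_ℂ = ∫ s in Set.Ioc (0 : ℝ) L, conj (a s) *
    ∫ t in Set.Ioc (0 : ℝ) L, k (s, t) * b t) ∧ ∀ k, Approx (K k)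

/-- Job Parseval -/
def JobParseval : Prop := ∀ (g h : ℝ × ℝ → ℂ) (C x y : ℝ), Continuous g → Continuous h →
  (∀ q : ℝ × ℝ, ‖g q‖ ≤ C / ((1 + q.1 ^ 2) * (1 + q.2 ^ 2))) →
  (∀ q : ℝ × ℝ, ‖h q‖ ≤ C / ((1 + q.1 ^ 2) * (1 + q.2 ^ 2))) →
  HasSum (fun j : ℤ =>
      conj (∫ q : ℝ × ℝ, g q * cexp (2 * Real.pi * I * (q.1 * (x + j) + q.2 * y))) *
      ∫ q : ℝ × ℝ, h q * cexp (2 * Real.pi * I * (q.1 * (x + j) + q.2 * y)))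
    (∫ k in (0 : ℝ)..1,
      conj (∑' n : ℤ, ∫ η : ℝ, g (k + n, η) * cexp (2 * Real.pi * I * ((k + n) * x + η * y))) *
      ∑' n : ℤ, ∫ η : ℝ, h (k + n, η) * cexp (2 * Real.pi * I * ((k + n) * x + η * y)))

end Pool.Agent.U37.LC
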