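import Mathlib
import Pool.Agent.U37.LC.Stm

set_option autoImplicit false
set_option linter.unusedSectionVars false

open MeasureTheory Filter Topology Complex
open scoped ComplexConjugate InnerProductSpace

namespace Pool.Agent.U37.LC

section
variable {H Y : Type} [NormedAddCommGroup H] [InnerProductSpace ℂ H] [CompleteSpace H]
  [NormedAddCommGroup Y] [InnerProductSpace ℂ Y] [CompleteSpace Y]

/-- a coercive operator is invertible -/
theorem isUnit_of_coercive (T : H →L[ℂ] H) (δ : ℝ) (hδ : 0 < δ)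
    (h : ∀ v, δ * ‖v‖ ^ 2 ≤ ‖⟪v, T v⟫_ℂ‖) : IsUnit T := by
  have h1 : ∀ v, δ * ‖v‖ ≤ ‖T v‖ := by
    intro v
    rcases eq_or_ne v 0 with rfl | hv
    · simp
    · have h2 := (h v).trans (norm_inner_le_norm v (T v))
      have h3 : 0 < ‖v‖ := norm_pos_iff.2 hv
      nlinarith
  have hanti : AntilipschitzWith (Real.toNNReal δ⁻¹) T := by
    refine ContinuousLinearMap.antilipschitz_of_bound T fun v => ?_
    rw [Real.coe_toNNReal _ (by positivity)]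
    have := h1 v
    rw [inv_mul_eq_div, le_div_iff₀ hδ]
    linarith
  have hinj : Function.Injective T := hanti.injective
  have hclosed : IsClosed (Set.range T) := hanti.isClosed_range T.uniformContinuous
  have hsurj : Function.Surjective T := by
    have hcl : IsClosed ((LinearMap.range (T : H →ₗ[ℂ] H) : Submodule ℂ H) : Set H) := hclosed
    have hbot : (LinearMap.range (T : H →ₗ[ℂ] H))ᗮ = ⊥ := by
      rw [Submodule.eq_bot_iff]
      intro w hw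
      have h4 := hw (T w) ⟨w, rfl⟩
      have h5 := h w
      rw [← inner_conj_symm, h4] at h5
      simp at h5
      have h6 : ‖w‖ ^ 2 = 0 := by
        have := sq_nonneg ‖w‖
        nlinarith
      simpa using h6
    have : IsComplete ((LinearMap.range (T : H →ₗ[ℂ] H) : Submodule ℂ H) : Set H) := hcl.isComplete
    have : CompleteSpace (LinearMap.range (T : H →ₗ[ℂ] H) : Submodule ℂ H) :=
      this.completeSpace_coe
    rw [Submodule.orthogonal_eq_bot_iff] at hbot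
    intro y
    have : y ∈ (LinearMap.range (T : H →ₗ[ℂ] H) : Submodule ℂ H) := by rw [hbot]; trivial
    exact this
  have hb : Function.Bijective T := ⟨hinj, hsurj⟩
  let e := ContinuousLinearEquiv.ofBijective T (LinearMap.ker_eq_bot.2 hinj)
    (LinearMap.range_eq_top.2 hsurj)
  refine ⟨⟨T, e.symm, ?_, ?_⟩, rfl⟩
  · ext v
    exact e.apply_symm_apply v
  · ext v
    exact e.symm_apply_apply v

theorem re_im_aux (x b : ℝ) (z : ℂ) : ((x : ℂ) - (z + 1) * (b : ℂ)).re = x - (z.re + 1) * b ∧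
    ((x : ℂ) - (z + 1) * (b : ℂ)).im = - z.im * b := by
  constructor <;> simp

/-- The abstract data: `S` symmetric, `W` bounded, coercivity at `-c₁`. -/
structure Pen (S : H →L[ℂ] H) (W : Y →L[ℂ] H) (α c₁ : ℝ) : Prop where
  symm : ∀ x y, ⟪S x, y⟫_ℂ = ⟪x, S y⟫_ℂ
  inj : ∀ x, S x = 0 → x = 0
  coer : ∀ v, (1 / 2) * ‖v‖ ^ 2 + α * ‖(ContinuousLinearMap.adjoint W) v‖ ^ 2 ≤
    ‖v‖ ^ 2 + (c₁ - 1) * ‖S v‖ ^ 2

/-- the pencil -/
noncomputable def AA (S : H →L[ℂ] H) (W : Y →L[ℂ] H) (α : ℝ) (z : ℂ) : H →L[ℂ] H :=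
  1 - (α : ℂ) • (W.comp (ContinuousLinearMap.adjoint W)) - (z + 1) • (S.comp S)

variable {S : H →L[ℂ] H} {W : Y →L[ℂ] H} {α c₁ : ℝ}

theorem AA_apply (z : ℂ) (v : H) : AA S W α z v =
    v - (α : ℂ) • W (ContinuousLinearMap.adjoint W v) - (z + 1) • S (S v) := by
  simp [AA]

theorem AA_form (hP : Pen S W α c₁) (z : ℂ) (v w : H) : ⟪v, AA S W α z w⟫_ℂ =
    ⟪v, w⟫_ℂ - α * ⟪ContinuousLinearMap.adjoint W v, ContinuousLinearMap.adjoint W w⟫_ℂ -
      (z + 1) * ⟪S v, S w⟫_ℂ := by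
  rw [AA_apply, inner_sub_right, inner_sub_right, inner_smul_right, inner_smul_right,
    ← ContinuousLinearMap.adjoint_inner_left, hP.symm]

theorem AA_diag (hP : Pen S W α c₁) (z : ℂ) (v : H) : ⟪v, AA S W α z v⟫_ℂ =
    ((‖v‖ ^ 2 - α * ‖ContinuousLinearMap.adjoint W v‖ ^ 2 : ℝ) : ℂ) -
      (z + 1) * ((‖S v‖ ^ 2 : ℝ) : ℂ) := by
  rw [AA_form hP, inner_self_eq_norm_sq_to_K, inner_self_eq_norm_sq_to_K,
    inner_self_eq_norm_sq_to_K]
  push_cast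
  rfl

theorem AA_adj (hP : Pen S W α c₁) (z : ℂ) (v w : H) :
    ⟪AA S W α z v, w⟫_ℂ = ⟪v, AA S W α (conj z) w⟫_ℂ := by
  rw [← inner_conj_symm, AA_form hP, AA_form hP]
  simp only [map_sub, map_mul, map_add, map_one, inner_conj_symm, Complex.conj_ofReal]

theorem AA_coer (hP : Pen S W α c₁) (z : ℂ) (hz : z.im ≠ 0) : ∃ δ : ℝ, 0 < δ ∧
    ∀ v, δ * ‖v‖ ^ 2 ≤ ‖⟪v, AA S W α z v⟫_ℂ‖ := by
  set M : ℝ := |z.re + c₁| + 1 with hM
  have hMp : 0 < M := by positivity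
  refine ⟨min (1 / 4) (|z.im| / (4 * M)), lt_min (by norm_num) (by positivity), fun v => ?_⟩
  rw [AA_diag hP]
  set a : ℝ := ‖v‖ ^ 2 - α * ‖ContinuousLinearMap.adjoint W v‖ ^ 2 + (c₁ - 1) * ‖S v‖ ^ 2 with ha
  set b : ℝ := ‖S v‖ ^ 2 with hb
  have h1 : (1 / 2) * ‖v‖ ^ 2 ≤ a := by
    have := hP.coer v
    rw [ha, hb]
    linarith
  have hb0 : 0 ≤ b := by rw [hb]; positivity
  set w : ℂ := ((‖v‖ ^ 2 - α * ‖ContinuousLinearMap.adjoint W v‖ ^ 2 : ℝ) : ℂ) -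
      (z + 1) * ((b : ℝ) : ℂ) with hw
  have hre : w.re = a - (z.re + c₁) * b := by
    rw [hw, (re_im_aux _ _ _).1, ha]
    ring
  have him : w.im = - z.im * b := by
    rw [hw, (re_im_aux _ _ _).2]
  have hv0 : 0 ≤ ‖v‖ ^ 2 := by positivity
  rcases le_total (M * b) ((1 / 4) * ‖v‖ ^ 2) with h | h
  · have h2 : |(z.re + c₁) * b| ≤ M * b := by
      rw [abs_mul, abs_of_nonneg hb0]
      exact mul_le_mul_of_nonneg_right (by rw [hM]; linarith) hb0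
    have h3 := abs_le.1 h2
    calc min (1 / 4) (|z.im| / (4 * M)) * ‖v‖ ^ 2 ≤ (1 / 4) * ‖v‖ ^ 2 :=
          mul_le_mul_of_nonneg_right (min_le_left _ _) hv0
      _ ≤ w.re := by rw [hre]; linarith [h3.2]
      _ ≤ |w.re| := le_abs_self _
      _ ≤ ‖w‖ := Complex.abs_re_le_norm w
  · calc min (1 / 4) (|z.im| / (4 * M)) * ‖v‖ ^ 2 ≤ |z.im| / (4 * M) * ‖v‖ ^ 2 :=
          mul_le_mul_of_nonneg_right (min_le_right _ _) hv0
      _ = |z.im| * ((1 / 4) * ‖v‖ ^ 2 / M) := by field_simp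
      _ ≤ |z.im| * b := by
          refine mul_le_mul_of_nonneg_left ?_ (abs_nonneg _)
          rw [div_le_iff₀ hMp]
          linarith
      _ = |w.im| := by rw [him, abs_mul, abs_neg, abs_of_nonneg hb0]
      _ ≤ ‖w‖ := Complex.abs_im_le_norm w

theorem AA_unit (hP : Pen S W α c₁) (z : ℂ) (hz : z.im ≠ 0) : IsUnit (AA S W α z) := by
  obtain ⟨δ, hδ, h⟩ := AA_coer hP z hz
  exact isUnit_of_coercive _ δ hδ h

theorem AA_unit₀ (hP : Pen S W α c₁) : IsUnit (AA S W α (-c₁)) := by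
  refine isUnit_of_coercive _ (1 / 2) (by norm_num) fun v => ?_
  rw [AA_diag hP]
  have h1 := hP.coer v
  have h2 : ((‖v‖ ^ 2 - α * ‖ContinuousLinearMap.adjoint W v‖ ^ 2 : ℝ) : ℂ) -
      (-(c₁ : ℂ) + 1) * ((‖S v‖ ^ 2 : ℝ) : ℂ) =
      ((‖v‖ ^ 2 - α * ‖ContinuousLinearMap.adjoint W v‖ ^ 2 + (c₁ - 1) * ‖S v‖ ^ 2 : ℝ) : ℂ) := by
    push_cast
    ring
  rw [h2, Complex.norm_real, Real.norm_eq_abs]
  refine le_trans ?_ (le_abs_self _)
  linarith

/-- the inverse of the pencil -/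
noncomputable def AI (S : H →L[ℂ] H) (W : Y →L[ℂ] H) (α : ℝ) (z : ℂ) : H →L[ℂ] H :=
  Ring.inverse (AA S W α z)

theorem AI_right (z : ℂ) (h : IsUnit (AA S W α z)) (v : H) :
    AA S W α z (AI S W α z v) = v := by
  have := Ring.mul_inverse_cancel _ h
  exact congrArg (fun T : H →L[ℂ] H => T v) this

theorem AI_left (z : ℂ) (h : IsUnit (AA S W α z)) (v : H) :
    AI S W α z (AA S W α z v) = v := by
  have := Ring.inverse_mul_cancel _ h
  exact congrArg (fun T : H →L[ℂ] H => T v) this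

theorem AI_diff (z w : ℂ) (hz : IsUnit (AA S W α z)) (hw : IsUnit (AA S W α w)) (v : H) :
    AI S W α z v - AI S W α w v = (z - w) • AI S W α w (S (S (AI S W α z v))) := by
  have h1 : AA S W α z (AI S W α z v) - AA S W α w (AI S W α z v) =
      -((z - w) • S (S (AI S W α z v))) := by
    rw [AA_apply, AA_apply]
    module
  rw [AI_right z hz] at h1
  have h2 := congrArg (AI S W α w) h1
  rw [map_sub, AI_left w hw, map_neg, map_smul] at h2
  rw [← neg_inj, ← h2]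
  abel

theorem AI_adj (hP : Pen S W α c₁) (z : ℂ) (hz : IsUnit (AA S W α z))
    (hz' : IsUnit (AA S W α (conj z))) (v w : H) :
    ⟪AI S W α z v, w⟫_ℂ = ⟪v, AI S W α (conj z) w⟫_ℂ := by
  conv_rhs => rw [← AI_right z hz v]
  conv_lhs => rw [← AI_right (conj z) hz' w]
  rw [AA_adj hP]

/-- the resolvent -/
noncomputable def RR (S : H →L[ℂ] H) (W : Y →L[ℂ] H) (α : ℝ) (z : ℂ) : H →L[ℂ] H :=
  S.comp ((AI S W α z).comp S)

theorem RR_apply (z : ℂ) (v : H) : RR S W α z v = S (AI S W α z (S v)) := rfl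

/-- the bounded operator `G = R(-c₁)` -/
noncomputable def GG (S : H →L[ℂ] H) (W : Y →L[ℂ] H) (α c₁ : ℝ) : H →L[ℂ] H :=
  RR S W α (-c₁)

theorem GG_symm (hP : Pen S W α c₁) (x y : H) :
    ⟪GG S W α c₁ x, y⟫_ℂ = ⟪x, GG S W α c₁ y⟫_ℂ := by
  have h := AA_unit₀ hP
  unfold GG
  rw [RR_apply, RR_apply, hP.symm, ← hP.symm x]
  have h2 : (starRingEnd ℂ) (-(c₁ : ℂ)) = -(c₁ : ℂ) := by simp
  have h3 := AI_adj hP (-c₁) h (by rw [h2]; exact h) (S x) (S y)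
  rw [h2] at h3
  exact h3

theorem GG_pos (hP : Pen S W α c₁) (x : H) : 0 ≤ (⟪x, GG S W α c₁ x⟫_ℂ).re := by
  have h := AA_unit₀ hP
  unfold GG
  rw [RR_apply, ← hP.symm]
  obtain ⟨v, hv⟩ : ∃ v, v = AI S W α (-c₁) (S x) := ⟨_, rfl⟩
  have h1 : S x = AA S W α (-c₁) v := by rw [hv, AI_right _ h]
  rw [← hv, h1, ← inner_conj_symm, AA_diag hP]
  have h2 := hP.coer v
  simp only [Complex.conj_re, Complex.sub_re, Complex.ofReal_re, Complex.mul_re, Complex.add_re,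
    Complex.neg_re, Complex.one_re, Complex.add_im, Complex.neg_im, Complex.ofReal_im,
    Complex.one_im]
  have h3 : 0 ≤ ‖v‖ ^ 2 := by positivity
  nlinarith

theorem GG_inj (hP : Pen S W α c₁) (x : H) (hx : GG S W α c₁ x = 0) : x = 0 := by
  have h := AA_unit₀ hP
  unfold GG at hx
  rw [RR_apply] at hx
  have h1 := hP.inj _ hx
  have h2 := congrArg (AA S W α (-c₁)) h1
  rw [AI_right _ h, map_zero] at h2
  exact hP.inj _ h2

theorem RR_eq (hP : Pen S W α c₁) (z : ℂ) (hz : z.im ≠ 0) (f : H) :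
    RR S W α z f - (z + c₁) • GG S W α c₁ (RR S W α z f) = GG S W α c₁ f := by
  have h1 := AI_diff z (-c₁) (AA_unit hP z hz) (AA_unit₀ hP) (S f)
  have h2 := congrArg S h1
  rw [map_sub, map_smul, sub_neg_eq_add] at h2
  unfold GG
  simp only [RR_apply]
  rw [← h2]
  abel

/-- imaginary part of the sandwiched resolvent -/
theorem im_AI (hP : Pen S W α c₁) (z : ℂ) (hz : z.im ≠ 0) (v : H) :
    (⟪v, AI S W α z v⟫_ℂ).im = z.im * ‖S (AI S W α z v)‖ ^ 2 := by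
  obtain ⟨u, hu⟩ : ∃ u, u = AI S W α z v := ⟨_, rfl⟩
  have h1 : v = AA S W α z u := by rw [hu, AI_right _ (AA_unit hP z hz)]
  rw [← hu, h1, ← inner_conj_symm, AA_diag hP, Complex.conj_im, (re_im_aux _ _ _).2]
  ring

theorem im_RR (hP : Pen S W α c₁) (z : ℂ) (hz : z.im ≠ 0) (f : H) :
    (⟪f, RR S W α z f⟫_ℂ).im = z.im * ‖RR S W α z f‖ ^ 2 := by
  rw [RR_apply, ← hP.symm, im_AI hP z hz]

/-- The vectors `f = S A(z₀)⁻¹ W y`. -/
theorem RR_gen (hP : Pen S W α c₁) (z z₀ : ℂ) (hz : z.im ≠ 0) (hz₀ : z₀.im ≠ 0) (hne : z ≠ z₀)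
    (y : Y) : RR S W α z (S (AI S W α z₀ (W y))) =
      (z - z₀)⁻¹ • (S (AI S W α z (W y)) - S (AI S W α z₀ (W y))) := by
  have h1 := AI_diff z₀ z (AA_unit hP z₀ hz₀) (AA_unit hP z hz) (W y)
  have h2 := congrArg S h1
  rw [map_sub, map_smul] at h2
  rw [RR_apply]
  have h3 : S (AI S W α z (W y)) - S (AI S W α z₀ (W y)) =
      (z - z₀) • S (AI S W α z (S (S (AI S W α z₀ (W y))))) := by
    rw [← neg_sub, h2, ← neg_smul, neg_sub]
  rw [h3, smul_smul, inv_mul_cancel₀ (sub_ne_zero.2 hne), one_smul]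

theorem RR_gen_bound (hP : Pen S W α c₁) (z z₀ : ℂ) (hz : 0 < z.im) (hz₀ : z₀.im ≠ 0)
    (hne : 2 * z.im ≤ |z₀.im|) (y : Y) :
    z.im * ‖RR S W α z (S (AI S W α z₀ (W y)))‖ ^ 2 ≤ (8 / |z₀.im| ^ 2) *
      (‖⟪W y, AI S W α z (W y)⟫_ℂ‖ + z.im * ‖S (AI S W α z₀ (W y))‖ ^ 2) := by
  have hz0p : 0 < |z₀.im| := abs_pos.2 hz₀
  have hne' : z ≠ z₀ := by
    intro h
    rw [← h, abs_of_pos hz] at hne
    linarith
  rw [RR_gen hP z z₀ hz.ne' hz₀ hne' y, norm_smul, norm_inv]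
  set a := S (AI S W α z (W y)) with ha
  set b := S (AI S W α z₀ (W y)) with hb
  have h1 : |z₀.im| / 2 ≤ ‖z - z₀‖ := by
    have h2 := Complex.abs_im_le_norm (z - z₀)
    rw [Complex.sub_im] at h2
    have h3 : |z₀.im| - |z.im| ≤ |z.im - z₀.im| := by
      rw [abs_sub_comm]
      exact abs_sub_abs_le_abs_sub _ _
    rw [abs_of_pos hz] at h3
    linarith
  have hzz : 0 < ‖z - z₀‖ := norm_pos_iff.2 (sub_ne_zero.2 hne')
  have h4 : (‖z - z₀‖⁻¹) ^ 2 ≤ 4 / |z₀.im| ^ 2 := by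
    rw [inv_pow, inv_eq_one_div, div_le_div_iff₀ (by positivity) (by positivity)]
    nlinarith
  have h5 : ‖a - b‖ ^ 2 ≤ 2 * (‖a‖ ^ 2 + ‖b‖ ^ 2) := by
    have h6 := norm_sub_le a b
    have h7 : ‖a - b‖ ^ 2 ≤ (‖a‖ + ‖b‖) ^ 2 := by
      exact pow_le_pow_left₀ (norm_nonneg _) h6 2
    nlinarith [sq_nonneg (‖a‖ - ‖b‖)]
  have h8 : z.im * ‖a‖ ^ 2 ≤ ‖⟪W y, AI S W α z (W y)⟫_ℂ‖ := by
    rw [ha, ← im_AI hP z hz.ne']
    exact (le_abs_self _).trans (Complex.abs_im_le_norm _)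
  calc z.im * (‖z - z₀‖⁻¹ * ‖a - b‖) ^ 2 = (‖z - z₀‖⁻¹) ^ 2 * (z.im * ‖a - b‖ ^ 2) := by ring
    _ ≤ (4 / |z₀.im| ^ 2) * (z.im * (2 * (‖a‖ ^ 2 + ‖b‖ ^ 2))) := by
        refine mul_le_mul h4 (mul_le_mul_of_nonneg_left h5 hz.le) (by positivity) (by positivity)
    _ = (8 / |z₀.im| ^ 2) * (z.im * ‖a‖ ^ 2 + z.im * ‖b‖ ^ 2) := by ring
    _ ≤ _ := by
        refine mul_le_mul_of_nonneg_left ?_ (by positivity)
        linarith

end

end Pool.Agent.U37.LC
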