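import Mathlib
import Pool.Agent.U37.LC.Pen

set_option autoImplicit false
set_option linter.unusedSectionVars false

open MeasureTheory Filter Topology Complex
open scoped ComplexConjugate InnerProductSpace ENNReal

namespace Pool.Agent.U37.LC

/-- the Poisson kernel -/
noncomputable def poi (ε x t : ℝ) : ℝ := ε / ((x - t) ^ 2 + ε ^ 2)

theorem poi_nonneg {ε : ℝ} (hε : 0 < ε) (x t : ℝ) : 0 ≤ poi ε x t := by
  unfold poi; positivity

theorem poi_le {ε : ℝ} (hε : 0 < ε) (x t : ℝ) : poi ε x t ≤ ε⁻¹ := by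
  unfold poi
  rw [div_le_iff₀ (by positivity), inv_mul_eq_div, le_div_iff₀ hε]
  nlinarith [sq_nonneg (x - t)]

theorem continuous_poi {ε : ℝ} (hε : 0 < ε) : Continuous fun p : ℝ × ℝ => poi ε p.1 p.2 := by
  unfold poi
  refine Continuous.div continuous_const (by fun_prop) fun p => ?_
  positivity

theorem im_inv_aux (x t ε : ℝ) : (1 / ((x : ℂ) - ((t : ℂ) + ε * I))).im = poi ε x t := by
  unfold poi
  rw [one_div, Complex.inv_im]
  have h1 : ((x : ℂ) - ((t : ℂ) + ε * I)).im = -ε := by simp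
  have h2 : Complex.normSq ((x : ℂ) - ((t : ℂ) + ε * I)) = (x - t) ^ 2 + ε ^ 2 := by
    rw [Complex.normSq_apply]
    simp
    ring
  rw [h1, h2, neg_neg]

theorem poi_integral {ε : ℝ} (hε : 0 < ε) (x : ℝ) :
    ∫⁻ t : ℝ, ENNReal.ofReal (poi ε x t) = ENNReal.ofReal Real.pi := by
  have h1 : ∀ t : ℝ, poi ε x t = ε⁻¹ * (1 + ((t - x) / ε) ^ 2)⁻¹ := by
    intro t
    unfold poi
    have h3 : (x - t) ^ 2 + ε ^ 2 = ε ^ 2 * (1 + ((t - x) / ε) ^ 2) := by
      field_simp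
      ring
    rw [h3]
    have h4 : (1 + ((t - x) / ε) ^ 2) ≠ 0 := by positivity
    field_simp
  have hint : Integrable (fun t : ℝ => poi ε x t) := by
    simp_rw [h1]
    have h2 := (integrable_inv_one_add_sq.comp_div hε.ne').comp_sub_right x
    exact h2.const_mul _
  rw [← ofReal_integral_eq_lintegral_ofReal hint (Eventually.of_forall fun t => poi_nonneg hε x t)]
  congr 1
  simp_rw [h1]
  rw [integral_const_mul, integral_sub_right_eq_self (fun t : ℝ => (1 + (t / ε) ^ 2)⁻¹) x,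
    Measure.integral_comp_div (fun t : ℝ => (1 + t ^ 2)⁻¹) ε, integral_univ_inv_one_add_sq,
    abs_of_pos hε, smul_eq_mul, ← mul_assoc, inv_mul_cancel₀ hε.ne', one_mul]

section
variable {H Y : Type} [NormedAddCommGroup H] [InnerProductSpace ℂ H] [CompleteSpace H]
  [NormedAddCommGroup Y] [InnerProductSpace ℂ Y] [CompleteSpace Y]
  {S : H →L[ℂ] H} {W : Y →L[ℂ] H} {α c₁ : ℝ}

/-- the smoothed spectral mass -/
noncomputable def DD (S : H →L[ℂ] H) (W : Y →L[ℂ] H) (α : ℝ) (f : H) (ε : ℝ) (V : Set ℝ) : ℝ≥0∞ :=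
  ∫⁻ t in V, ENNReal.ofReal (ε * ‖RR S W α ((t : ℂ) + ε * I) f‖ ^ 2)

theorem spec (hS : JobSpectral) (hP : Pen S W α c₁) (f : H) : ∃ μ : Measure ℝ,
    IsFiniteMeasure μ ∧ μ Set.univ = ENNReal.ofReal (‖f‖ ^ 2) ∧
    (∀ z : ℂ, z.im ≠ 0 → ⟪f, RR S W α z f⟫_ℂ = ∫ x : ℝ, 1 / ((x : ℂ) - z) ∂μ) ∧
    ∀ ε : ℝ, 0 < ε → ∀ t : ℝ, ENNReal.ofReal (ε * ‖RR S W α ((t : ℂ) + ε * I) f‖ ^ 2) =
      ∫⁻ x, ENNReal.ofReal (poi ε x t) ∂μ := by
  obtain ⟨μ, hfin, hmass, h⟩ := hS H (GG S W α c₁) c₁ (GG_symm hP) (GG_pos hP) (GG_inj hP) f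
  have h1 : ∀ z : ℂ, z.im ≠ 0 → ⟪f, RR S W α z f⟫_ℂ = ∫ x : ℝ, 1 / ((x : ℂ) - z) ∂μ := by
    intro z hz
    exact h z hz _ (RR_eq hP z hz f)
  refine ⟨μ, hfin, hmass, h1, ?_⟩
  intro ε hε t
  have him : ((t : ℂ) + ε * I).im = ε := by simp
  have hz : ((t : ℂ) + ε * I).im ≠ 0 := by rw [him]; exact hε.ne'
  have h2 := im_RR hP _ hz f
  rw [him, h1 _ hz] at h2
  have hcont : Continuous fun x : ℝ => 1 / ((x : ℂ) - ((t : ℂ) + ε * I)) := by
    refine Continuous.div continuous_const (by fun_prop) fun x => ?_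
    intro h0
    have := congrArg Complex.im h0
    simp at this
    exact hε.ne' this
  have hbd : ∀ x : ℝ, ‖1 / ((x : ℂ) - ((t : ℂ) + ε * I))‖ ≤ ε⁻¹ := by
    intro x
    rw [norm_div, norm_one, one_div]
    refine inv_anti₀ hε ?_
    have := Complex.abs_im_le_norm ((x : ℂ) - ((t : ℂ) + ε * I))
    simp only [Complex.sub_im, Complex.ofReal_im, Complex.add_im, Complex.mul_im,
      Complex.ofReal_re, Complex.I_im, mul_one, Complex.I_re, mul_zero, add_zero, zero_sub,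
      zero_add, abs_neg, abs_of_pos hε] at this
    exact this
  have hint : Integrable (fun x : ℝ => 1 / ((x : ℂ) - ((t : ℂ) + ε * I))) μ :=
    Integrable.of_bound hcont.aestronglyMeasurable ε⁻¹ (Eventually.of_forall hbd)
  have h3 : (∫ x : ℝ, 1 / ((x : ℂ) - ((t : ℂ) + ε * I)) ∂μ).im = ∫ x : ℝ, poi ε x t ∂μ := by
    have h4 := (ContinuousLinearMap.integral_comp_comm Complex.imCLM hint)
    simp only [Complex.imCLM_apply] at h4
    rw [← h4]
    exact integral_congr_ae (Eventually.of_forall fun x => im_inv_aux x t ε)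
  rw [h3] at h2
  rw [← h2]
  refine ofReal_integral_eq_lintegral_ofReal ?_ (Eventually.of_forall fun x => poi_nonneg hε x t)
  have : Continuous fun x : ℝ => poi ε x t :=
    (continuous_poi hε).comp (f := fun x : ℝ => ((x, t) : ℝ × ℝ)) (by fun_prop)
  refine Integrable.of_bound this.aestronglyMeasurable ε⁻¹ (Eventually.of_forall fun x => ?_)
  rw [Real.norm_eq_abs, abs_of_nonneg (poi_nonneg hε x t)]
  exact poi_le hε x t

theorem DD_le (hS : JobSpectral) (hP : Pen S W α c₁) (f : H) (ε : ℝ) (hε : 0 < ε) (V : Set ℝ) :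
    DD S W α f ε V ≤ ENNReal.ofReal (Real.pi * ‖f‖ ^ 2) := by
  obtain ⟨μ, hfin, hmass, -, h⟩ := spec hS hP f
  unfold DD
  simp_rw [h ε hε]
  have hm : Measurable fun p : ℝ × ℝ => ENNReal.ofReal (poi ε p.2 p.1) :=
    (((continuous_poi hε).comp continuous_swap).measurable).ennreal_ofReal
  have hsw := lintegral_lintegral_swap (μ := (volume : Measure ℝ)) (ν := μ)
    (f := fun t x => ENNReal.ofReal (poi ε x t)) hm.aemeasurable
  calc ∫⁻ t in V, ∫⁻ x, ENNReal.ofReal (poi ε x t) ∂μ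
      ≤ ∫⁻ t, ∫⁻ x, ENNReal.ofReal (poi ε x t) ∂μ := setLIntegral_le_lintegral _ _
    _ = ∫⁻ x, (∫⁻ t, ENNReal.ofReal (poi ε x t)) ∂μ := hsw
    _ = ∫⁻ x, ENNReal.ofReal Real.pi ∂μ :=
        lintegral_congr fun x => poi_integral hε x
    _ = ENNReal.ofReal (Real.pi * ‖f‖ ^ 2) := by
        rw [lintegral_const, hmass, ENNReal.ofReal_mul Real.pi_pos.le]

theorem DD_meas (hS : JobSpectral) (hP : Pen S W α c₁) (f : H) (ε : ℝ) (hε : 0 < ε) :
    Measurable fun t : ℝ => ENNReal.ofReal (ε * ‖RR S W α ((t : ℂ) + ε * I) f‖ ^ 2) := by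
  obtain ⟨μ, hfin, hmass, -, h⟩ := spec hS hP f
  simp_rw [h ε hε]
  have hm : Measurable fun p : ℝ × ℝ => ENNReal.ofReal (poi ε p.2 p.1) :=
    (((continuous_poi hε).comp continuous_swap).measurable).ennreal_ofReal
  exact hm.lintegral_prod_right'

theorem DD_add (hS : JobSpectral) (hP : Pen S W α c₁) (f g : H) (ε : ℝ) (hε : 0 < ε)
    (V : Set ℝ) : DD S W α (f + g) ε V ≤ 2 * DD S W α f ε V + 2 * DD S W α g ε V := by
  unfold DD
  rw [← lintegral_const_mul _ (DD_meas hS hP f ε hε), ← lintegral_const_mul _ (DD_meas hS hP g ε hε),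
    ← lintegral_add_left ((DD_meas hS hP f ε hε).const_mul _)]
  refine lintegral_mono fun t => ?_
  simp only
  rw [← ENNReal.ofReal_ofNat 2, ← ENNReal.ofReal_mul (by norm_num), ← ENNReal.ofReal_mul (by norm_num),
    ← ENNReal.ofReal_add (by positivity) (by positivity)]
  refine ENNReal.ofReal_le_ofReal ?_
  rw [map_add]
  set a := RR S W α ((t : ℂ) + ε * I) f
  set b := RR S W α ((t : ℂ) + ε * I) g
  have h6 := norm_add_le a b
  have h7 : ‖a + b‖ ^ 2 ≤ (‖a‖ + ‖b‖) ^ 2 := pow_le_pow_left₀ (norm_nonneg _) h6 2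
  have h8 : ‖a + b‖ ^ 2 ≤ 2 * ‖a‖ ^ 2 + 2 * ‖b‖ ^ 2 := by nlinarith [sq_nonneg (‖a‖ - ‖b‖)]
  nlinarith

/-- the good vectors -/
def Good (S : H →L[ℂ] H) (W : Y →L[ℂ] H) (α : ℝ) (f : H) : Prop :=
  ∀ E : Set ℝ, IsCompact E → volume E = 0 → ∀ δ : ℝ, 0 < δ → ∃ V : Set ℝ, IsOpen V ∧ E ⊆ V ∧
    ∃ ε₀ : ℝ, 0 < ε₀ ∧ ∀ ε : ℝ, 0 < ε → ε < ε₀ → DD S W α f ε V ≤ ENNReal.ofReal δ

theorem DD_mono (f : H) (ε : ℝ) {V V' : Set ℝ} (h : V ⊆ V') :
    DD S W α f ε V ≤ DD S W α f ε V' := lintegral_mono_set h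

theorem good_add (hS : JobSpectral) (hP : Pen S W α c₁) {f g : H} (hf : Good S W α f)
    (hg : Good S W α g) : Good S W α (f + g) := by
  intro E hE hE0 δ hδ
  obtain ⟨V, hV, hEV, e, he, h⟩ := hf E hE hE0 (δ / 4) (by positivity)
  obtain ⟨V', hV', hEV', e', he', h'⟩ := hg E hE hE0 (δ / 4) (by positivity)
  refine ⟨V ∩ V', hV.inter hV', Set.subset_inter hEV hEV', min e e', lt_min he he', ?_⟩
  intro ε hε hε2
  refine (DD_add hS hP f g ε hε _).trans ?_
  have h1 := (DD_mono (S := S) (W := W) (α := α) f ε (V := V ∩ V') (V' := V)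
    Set.inter_subset_left).trans (h ε hε (hε2.trans_le (min_le_left _ _)))
  have h2 := (DD_mono (S := S) (W := W) (α := α) g ε (V := V ∩ V') (V' := V')
    Set.inter_subset_right).trans (h' ε hε (hε2.trans_le (min_le_right _ _)))
  calc 2 * DD S W α f ε (V ∩ V') + 2 * DD S W α g ε (V ∩ V')
      ≤ 2 * ENNReal.ofReal (δ / 4) + 2 * ENNReal.ofReal (δ / 4) := by gcongr
    _ = ENNReal.ofReal δ := by
        rw [← ENNReal.ofReal_ofNat 2, ← ENNReal.ofReal_mul (by norm_num),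
          ← ENNReal.ofReal_add (by positivity) (by positivity)]
        congr 1
        ring

theorem good_smul (c : ℂ) {f : H} (hf : Good S W α f) : Good S W α (c • f) := by
  intro E hE hE0 δ hδ
  obtain ⟨V, hV, hEV, e, he, h⟩ := hf E hE hE0 (δ / (‖c‖ ^ 2 + 1)) (by positivity)
  refine ⟨V, hV, hEV, e, he, ?_⟩
  intro ε hε hε2
  have h1 : DD S W α (c • f) ε V ≤ ENNReal.ofReal (‖c‖ ^ 2 + 1) * DD S W α f ε V := by
    unfold DD
    rw [← lintegral_const_mul' _ _ ENNReal.ofReal_ne_top]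
    refine lintegral_mono fun t => ?_
    simp only
    rw [← ENNReal.ofReal_mul (by positivity), map_smul, norm_smul]
    refine ENNReal.ofReal_le_ofReal ?_
    have : 0 ≤ ε * ‖RR S W α ((t : ℂ) + ε * I) f‖ ^ 2 := by positivity
    nlinarith
  calc DD S W α (c • f) ε V ≤ ENNReal.ofReal (‖c‖ ^ 2 + 1) * DD S W α f ε V := h1
    _ ≤ ENNReal.ofReal (‖c‖ ^ 2 + 1) * ENNReal.ofReal (δ / (‖c‖ ^ 2 + 1)) := by
        gcongr
        exact h ε hε hε2
    _ = ENNReal.ofReal δ := by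
        rw [← ENNReal.ofReal_mul (by positivity)]
        congr 1
        field_simp

theorem good_zero : Good S W α (0 : H) := by
  intro E hE hE0 δ hδ
  refine ⟨Set.univ, isOpen_univ, Set.subset_univ _, 1, one_pos, fun ε _ _ => ?_⟩
  unfold DD
  simp

theorem good_closure (hS : JobSpectral) (hP : Pen S W α c₁) {f : H}
    (h : ∀ r : ℝ, 0 < r → ∃ g, Good S W α g ∧ ‖f - g‖ < r) : Good S W α f := by
  intro E hE hE0 δ hδ
  set r : ℝ := Real.sqrt (δ / (4 * Real.pi)) with hr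
  have hrp : 0 < r := Real.sqrt_pos.2 (by positivity)
  obtain ⟨g, hg, hfg⟩ := h r hrp
  obtain ⟨V, hV, hEV, e, he, hh⟩ := hg E hE hE0 (δ / 4) (by positivity)
  refine ⟨V, hV, hEV, e, he, ?_⟩
  intro ε hε hε2
  have h1 : DD S W α (f - g) ε V ≤ ENNReal.ofReal (δ / 4) := by
    refine (DD_le hS hP (f - g) ε hε V).trans (ENNReal.ofReal_le_ofReal ?_)
    have h2 : ‖f - g‖ ^ 2 ≤ r ^ 2 := pow_le_pow_left₀ (norm_nonneg _) hfg.le 2
    rw [hr, Real.sq_sqrt (by positivity)] at h2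
    calc Real.pi * ‖f - g‖ ^ 2 ≤ Real.pi * (δ / (4 * Real.pi)) :=
          mul_le_mul_of_nonneg_left h2 Real.pi_pos.le
      _ = δ / 4 := by
          have := Real.pi_pos.ne'
          field_simp
  have h3 := DD_add hS hP g (f - g) ε hε V
  rw [add_sub_cancel] at h3
  refine h3.trans ?_
  calc 2 * DD S W α g ε V + 2 * DD S W α (f - g) ε V
      ≤ 2 * ENNReal.ofReal (δ / 4) + 2 * ENNReal.ofReal (δ / 4) := by
        gcongr
        exact hh ε hε hε2
    _ = ENNReal.ofReal δ := by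
        rw [← ENNReal.ofReal_ofNat 2, ← ENNReal.ofReal_mul (by norm_num),
          ← ENNReal.ofReal_add (by positivity) (by positivity)]
        congr 1
        ring

/-- the closed subspace of good vectors -/
def goodSub (hS : JobSpectral) (hP : Pen S W α c₁) : Submodule ℂ H where
  carrier := {f | Good S W α f}
  add_mem' := fun hf hg => good_add hS hP hf hg
  zero_mem' := good_zero
  smul_mem' := fun c _ hf => good_smul c hf

theorem goodSub_closed (hS : JobSpectral) (hP : Pen S W α c₁) :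
    IsClosed (goodSub hS hP : Set H) := by
  rw [← isSeqClosed_iff_isClosed]
  intro u f hu hf
  refine good_closure hS hP fun r hr => ?_
  obtain ⟨N, hN⟩ := (Metric.tendsto_atTop.1 hf) r hr
  refine ⟨u N, hu N, ?_⟩
  have := hN N le_rfl
  rwa [dist_comm, dist_eq_norm] at this

/-- bounded sandwiched resolvents imply that the generated vectors are good -/
def YGood (W : Y →L[ℂ] H) (S : H →L[ℂ] H) (α : ℝ) (y : Y) : Prop :=
  ∀ E : Set ℝ, IsCompact E → volume E = 0 → ∀ η : ℝ, 0 < η → ∃ y₁ y₂ : Y, y = y₁ + y₂ ∧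
    ‖y₂‖ ≤ η ∧ ∃ V : Set ℝ, IsOpen V ∧ E ⊆ V ∧ ∃ ε₀ : ℝ, 0 < ε₀ ∧ ∃ C : ℝ, ∀ t ∈ V, ∀ ε : ℝ,
      0 < ε → ε < ε₀ → ‖⟪W y₁, AI S W α ((t : ℂ) + ε * I) (W y₁)⟫_ℂ‖ ≤ C

theorem good_gen (hS : JobSpectral) (hP : Pen S W α c₁) {y : Y} (hy : YGood W S α y) (z₀ : ℂ)
    (hz₀ : z₀.im ≠ 0) : Good S W α (S (AI S W α z₀ (W y))) := by
  intro E hE hE0 δ hδ
  set B : Y →L[ℂ] H := S.comp ((AI S W α z₀).comp W) with hB
  set M : ℝ := ‖B‖ + 1 with hM
  have hMp : 0 < M := by positivity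
  set η : ℝ := Real.sqrt (δ / (4 * Real.pi)) / M with hη
  have hηp : 0 < η := div_pos (Real.sqrt_pos.2 (by positivity)) hMp
  obtain ⟨y₁, y₂, hyy, hy2, V, hV, hEV, e, he, C, hC⟩ := hy E hE hE0 η hηp
  have hBy : S (AI S W α z₀ (W y)) = B y₁ + B y₂ := by
    rw [← map_add, ← hyy]
    rfl
  have hz0p : 0 < |z₀.im| := abs_pos.2 hz₀
  set C' : ℝ := (8 / |z₀.im| ^ 2) * (|C| + ‖B y₁‖ ^ 2) + 1 with hC'
  have hC'p : 0 < C' := by positivity
  obtain ⟨U, hEU, hU, hUv⟩ := E.exists_isOpen_lt_of_lt (ENNReal.ofReal (δ / (4 * C')))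
    (by rw [hE0]; exact ENNReal.ofReal_pos.2 (by positivity)) (μ := volume)
  refine ⟨U ∩ V, hU.inter hV, Set.subset_inter hEU hEV, min (min e 1) (|z₀.im| / 2),
    lt_min (lt_min he one_pos) (by positivity), ?_⟩
  intro ε hε hε2
  have he1 : ε < e := hε2.trans_le ((min_le_left _ _).trans (min_le_left _ _))
  have he2 : ε < 1 := hε2.trans_le ((min_le_left _ _).trans (min_le_right _ _))
  have he3 : ε < |z₀.im| / 2 := hε2.trans_le (min_le_right _ _)
  rw [hBy]
  refine (DD_add hS hP _ _ ε hε _).trans ?_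
  have h1 : DD S W α (B y₂) ε (U ∩ V) ≤ ENNReal.ofReal (δ / 4) := by
    refine (DD_le hS hP _ ε hε _).trans (ENNReal.ofReal_le_ofReal ?_)
    have h2 : ‖B y₂‖ ≤ Real.sqrt (δ / (4 * Real.pi)) := by
      calc ‖B y₂‖ ≤ ‖B‖ * ‖y₂‖ := B.le_opNorm _
        _ ≤ M * η := by
            refine mul_le_mul (by rw [hM]; linarith) hy2 (norm_nonneg _) hMp.le
        _ = _ := by rw [hη]; field_simp
    have h3 := pow_le_pow_left₀ (norm_nonneg _) h2 2
    rw [Real.sq_sqrt (by positivity)] at h3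
    calc Real.pi * ‖B y₂‖ ^ 2 ≤ Real.pi * (δ / (4 * Real.pi)) :=
          mul_le_mul_of_nonneg_left h3 Real.pi_pos.le
      _ = δ / 4 := by
          have := Real.pi_pos.ne'
          field_simp
  have h2 : DD S W α (B y₁) ε (U ∩ V) ≤ ENNReal.ofReal (δ / 4) := by
    calc DD S W α (B y₁) ε (U ∩ V) ≤ ∫⁻ t in U ∩ V, ENNReal.ofReal C' := by
          unfold DD
          refine setLIntegral_mono measurable_const fun t ht => ENNReal.ofReal_le_ofReal ?_
          have him : ((t : ℂ) + ε * I).im = ε := by simp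
          have h4 := RR_gen_bound hP ((t : ℂ) + ε * I) z₀ (by rw [him]; exact hε) hz₀
            (by rw [him]; linarith) y₁
          rw [him] at h4
          have h5 := hC t ht.2 ε hε he1
          calc ε * ‖RR S W α ((t : ℂ) + ε * I) (B y₁)‖ ^ 2 ≤ _ := h4
            _ ≤ (8 / |z₀.im| ^ 2) * (|C| + ‖B y₁‖ ^ 2) := by
                refine mul_le_mul_of_nonneg_left ?_ (by positivity)
                have h6 : ε * ‖B y₁‖ ^ 2 ≤ 1 * ‖B y₁‖ ^ 2 :=
                  mul_le_mul_of_nonneg_right he2.le (by positivity)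
                have h7 := h5.trans (le_abs_self C)
                have h8 : ‖S (AI S W α z₀ (W y₁))‖ = ‖B y₁‖ := rfl
                rw [h8]
                linarith
            _ ≤ C' := by rw [hC']; linarith
      _ = ENNReal.ofReal C' * volume (U ∩ V) := by rw [setLIntegral_const]
      _ ≤ ENNReal.ofReal C' * ENNReal.ofReal (δ / (4 * C')) := by
          gcongr
          exact (measure_mono Set.inter_subset_left).trans hUv.le
      _ = ENNReal.ofReal (δ / 4) := by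
          rw [← ENNReal.ofReal_mul hC'p.le]
          congr 1
          field_simp
  calc 2 * DD S W α (B y₁) ε (U ∩ V) + 2 * DD S W α (B y₂) ε (U ∩ V)
      ≤ 2 * ENNReal.ofReal (δ / 4) + 2 * ENNReal.ofReal (δ / 4) := by gcongr
    _ = ENNReal.ofReal δ := by
        rw [← ENNReal.ofReal_ofNat 2, ← ENNReal.ofReal_mul (by norm_num),
          ← ENNReal.ofReal_add (by positivity) (by positivity)]
        congr 1
        ring

/-- All vectors are good if the generated ones are and those which are orthogonal to them. -/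
theorem good_all (hS : JobSpectral) (hP : Pen S W α c₁) (hY : ∀ y, YGood W S α y)
    (hO : ∀ f : H, (∀ z₀ : ℂ, z₀.im ≠ 0 → ∀ y : Y, ⟪S (AI S W α z₀ (W y)), f⟫_ℂ = 0) →
      Good S W α f) (f : H) : Good S W α f := by
  set K : Submodule ℂ H := (Submodule.span ℂ {g : H | ∃ z₀ : ℂ, z₀.im ≠ 0 ∧ ∃ y : Y,
    g = S (AI S W α z₀ (W y))}).topologicalClosure with hK
  have hKle : K ≤ goodSub hS hP := by
    refine Submodule.topologicalClosure_minimal _ ?_ (goodSub_closed hS hP)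
    rw [Submodule.span_le]
    rintro g ⟨z₀, hz₀, y, rfl⟩
    exact good_gen hS hP (hY y) z₀ hz₀
  have hKc : IsClosed (K : Set H) := Submodule.isClosed_topologicalClosure _
  have : CompleteSpace K := hKc.completeSpace_coe
  have h1 : f = K.starProjection f + (f - K.starProjection f) := by abel
  rw [h1]
  refine good_add hS hP (hKle (Submodule.starProjection_apply_mem K f)) (hO _ ?_)
  intro z₀ hz₀ y
  have h2 : f - K.starProjection f ∈ Kᗮ := Submodule.sub_starProjection_mem_orthogonal f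
  refine h2 _ ?_
  exact Submodule.le_topologicalClosure _ (Submodule.subset_span ⟨z₀, hz₀, y, rfl⟩)

/-- the spectral measures have densities -/
theorem density (hS : JobSpectral) (hAC : JobAbsCont) (hP : Pen S W α c₁) (f : H)
    (hf : Good S W α f) : ∃ w : ℝ → ℝ, Integrable w ∧ (∀ x, 0 ≤ w x) ∧
    ∀ z : ℂ, z.im ≠ 0 → ⟪f, RR S W α z f⟫_ℂ = ∫ x : ℝ, (w x : ℂ) / ((x : ℂ) - z) := by
  obtain ⟨μ, hfin, hmass, h1, h2⟩ := spec hS hP f
  have hac : μ ≪ volume := by
    refine hAC μ hfin fun E hE hE0 δ hδ => ?_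
    obtain ⟨V, hV, hEV, e, he, h⟩ := hf E hE hE0 δ hδ
    refine ⟨V, hV, hEV, e, he, fun ε hε hε2 => ?_⟩
    have h3 := h ε hε hε2
    unfold DD at h3
    simp_rw [h2 ε hε] at h3
    exact h3
  refine ⟨fun x => (μ.rnDeriv volume x).toReal, Measure.integrable_toReal_rnDeriv,
    fun x => ENNReal.toReal_nonneg, fun z hz => ?_⟩
  rw [h1 z hz, ← integral_rnDeriv_smul hac]
  refine integral_congr_ae (Eventually.of_forall fun x => ?_)
  simp only
  rw [Complex.real_smul, mul_one_div]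

end

end Pool.Agent.U37.LC
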