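import Mathlib
import Pool.Agent.U37.LC.Stm

set_option autoImplicit false

open MeasureTheory Filter Topology Complex
open scoped ComplexConjugate InnerProductSpace BoundedContinuousFunction

namespace Pool.Agent.U37.LC

section
variable {Ω : Type} [TopologicalSpace Ω] [MeasurableSpace Ω] [OpensMeasurableSpace Ω]
  [SecondCountableTopologyEither Ω ℂ] (μ : Measure Ω)

theorem mul_memLp (ψ : Ω →ᵇ ℂ) (a : Lp ℂ 2 μ) : MemLp (fun q => ψ q * a q) 2 μ := by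
  refine MemLp.of_le_mul (c := ‖ψ‖) (Lp.memLp a) ?_ ?_
  · exact (ψ.continuous.aestronglyMeasurable).mul (Lp.aestronglyMeasurable a)
  · refine Eventually.of_forall fun q => ?_
    rw [norm_mul]
    exact mul_le_mul_of_nonneg_right (ψ.norm_coe_le_norm q) (norm_nonneg _)

noncomputable def mulF (ψ : Ω →ᵇ ℂ) (a : Lp ℂ 2 μ) : Lp ℂ 2 μ := (mul_memLp μ ψ a).toLp _

theorem mulF_ae (ψ : Ω →ᵇ ℂ) (a : Lp ℂ 2 μ) : mulF μ ψ a =ᵐ[μ] fun q => ψ q * a q :=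
  MemLp.coeFn_toLp _

theorem mulF_norm (ψ : Ω →ᵇ ℂ) (a : Lp ℂ 2 μ) : ‖mulF μ ψ a‖ ≤ ‖ψ‖ * ‖a‖ := by
  refine Lp.norm_le_mul_norm_of_ae_le_mul ?_
  filter_upwards [mulF_ae μ ψ a] with q hq
  rw [hq, norm_mul]
  exact mul_le_mul_of_nonneg_right (ψ.norm_coe_le_norm q) (norm_nonneg _)

/-- multiplication operators -/
noncomputable def mulB : (Ω →ᵇ ℂ) →L[ℂ] (Lp ℂ 2 μ →L[ℂ] Lp ℂ 2 μ) :=
  LinearMap.mkContinuous₂
    (LinearMap.mk₂ ℂ (fun (ψ : Ω →ᵇ ℂ) (a : Lp ℂ 2 μ) => mulF μ ψ a)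
      (fun ψ φ a => by
        ext1
        filter_upwards [mulF_ae μ (ψ + φ) a, mulF_ae μ ψ a, mulF_ae μ φ a,
          Lp.coeFn_add (mulF μ ψ a) (mulF μ φ a)] with q h1 h2 h3 h4
        rw [h1, h4, Pi.add_apply, h2, h3, BoundedContinuousFunction.add_apply, add_mul])
      (fun c ψ a => by
        ext1
        filter_upwards [mulF_ae μ (c • ψ) a, mulF_ae μ ψ a,
          Lp.coeFn_smul c (mulF μ ψ a)] with q h1 h2 h4
        rw [h1, h4, Pi.smul_apply, h2, BoundedContinuousFunction.smul_apply, smul_eq_mul,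
          smul_eq_mul, mul_assoc])
      (fun ψ a b => by
        ext1
        filter_upwards [mulF_ae μ ψ (a + b), mulF_ae μ ψ a, mulF_ae μ ψ b,
          Lp.coeFn_add (mulF μ ψ a) (mulF μ ψ b), Lp.coeFn_add a b] with q h1 h2 h3 h4 h5
        rw [h1, h4, Pi.add_apply, h2, h3, h5, Pi.add_apply, mul_add])
      (fun c ψ a => by
        ext1
        filter_upwards [mulF_ae μ ψ (c • a), mulF_ae μ ψ a,
          Lp.coeFn_smul c (mulF μ ψ a), Lp.coeFn_smul c a] with q h1 h2 h4 h5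
        rw [h1, h4, Pi.smul_apply, h2, h5, Pi.smul_apply, smul_eq_mul, smul_eq_mul]
        ring))
    1 (fun ψ a => by
      rw [one_mul]
      exact mulF_norm μ ψ a)

theorem mulB_ae (ψ : Ω →ᵇ ℂ) (a : Lp ℂ 2 μ) : mulB μ ψ a =ᵐ[μ] fun q => ψ q * a q :=
  mulF_ae μ ψ a

theorem mulB_norm (ψ : Ω →ᵇ ℂ) : ‖mulB μ ψ‖ ≤ ‖ψ‖ :=
  ContinuousLinearMap.opNorm_le_bound _ (norm_nonneg _) (fun a => mulF_norm μ ψ a)

theorem mulB_mul (ψ φ : Ω →ᵇ ℂ) : mulB μ (ψ * φ) = (mulB μ ψ).comp (mulB μ φ) := by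
  ext1 a
  ext1
  filter_upwards [mulB_ae μ (ψ * φ) a, mulB_ae μ ψ (mulB μ φ a), mulB_ae μ φ a] with q h1 h2 h3
  rw [h1, ContinuousLinearMap.comp_apply, h2, h3, BoundedContinuousFunction.mul_apply, mul_assoc]

theorem mulB_one : mulB μ (1 : Ω →ᵇ ℂ) = 1 := by
  ext1 a
  ext1
  filter_upwards [mulB_ae μ (1 : Ω →ᵇ ℂ) a] with q h1
  rw [h1]
  simp

theorem mulB_inner (ψ : Ω →ᵇ ℂ) (a b : Lp ℂ 2 μ) :
    ⟪a, mulB μ ψ b⟫_ℂ = ∫ q, conj (a q) * (ψ q * b q) ∂μ := by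
  rw [L2.inner_def]
  refine integral_congr_ae ?_
  filter_upwards [mulB_ae μ ψ b] with q hq
  rw [hq, RCLike.inner_apply, mul_comm]

theorem mulB_inner_left (ψ : Ω →ᵇ ℂ) (a b : Lp ℂ 2 μ) :
    ⟪mulB μ ψ a, b⟫_ℂ = ∫ q, conj (ψ q * a q) * b q ∂μ := by
  rw [L2.inner_def]
  refine integral_congr_ae ?_
  filter_upwards [mulB_ae μ ψ a] with q hq
  rw [hq, RCLike.inner_apply, mul_comm]

theorem inner_L2 (a b : Lp ℂ 2 μ) : ⟪a, b⟫_ℂ = ∫ q, conj (a q) * b q ∂μ := by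
  rw [L2.inner_def]
  refine integral_congr_ae (Eventually.of_forall fun q => ?_)
  simp only [RCLike.inner_apply]
  rw [mul_comm]

/-- real multipliers are symmetric -/
theorem mulB_symm (ψ : Ω →ᵇ ℂ) (h : ∀ q, conj (ψ q) = ψ q) (a b : Lp ℂ 2 μ) :
    ⟪mulB μ ψ a, b⟫_ℂ = ⟪a, mulB μ ψ b⟫_ℂ := by
  rw [mulB_inner, mulB_inner_left]
  refine integral_congr_ae (Eventually.of_forall fun q => ?_)
  simp only
  rw [map_mul, h]
  ring

end

end Pool.Agent.U37.LC
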