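import Mathlib
import Pool.Agent.U37.LC.Stm
import Pool.Agent.U37.LC.Mul

/-!
Project LC, second list of independent lemmas.
-/

set_option autoImplicit false

open MeasureTheory Filter Topology Complex
open scoped ComplexConjugate InnerProductSpace BoundedContinuousFunction

namespace Pool.Agent.U37.LC

/-- the Hilbert space in Fourier variables -/
noncomputable abbrev HH := Lp ℂ 2 (volume : Measure (ℝ × ℝ))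

/-- square integrable fields over the Brillouin zone -/
noncomputable abbrev YY (L : ℝ) := Lp (XX L) 2 ((volume : Measure ℝ).restrict (Set.Ioo (0 : ℝ) 1))

/-- the symbol of the Laplacian -/
noncomputable def om (θ : ℝ) (q : ℝ × ℝ) : ℝ := θ ^ 2 * q.1 ^ 2 + 4 * Real.pi ^ 2 * q.2 ^ 2

/-- Fourier coefficients of a function on the curve -/
noncomputable def cf (L : ℝ) (X Y : ℝ → ℝ) (p η : ℝ) (b : ℝ → ℂ) : ℂ :=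
  ∫ s in Set.Ioc (0 : ℝ) L, conj (ee X Y p η s) * b s

/-- the measure of the fibre -/
noncomputable def nu : Measure (ℤ × ℝ) := (Measure.count : Measure ℤ).prod volume

/-- `W` acts by the formula -/
def IsW (L θ : ℝ) (X Y : ℝ → ℝ) (W : YY L →L[ℂ] HH) : Prop :=
  ∀ y : YY L, (W y : ℝ × ℝ → ℂ) =ᵐ[volume] fun q =>
    (((1 + om θ q) ^ (-(1 / 2) : ℝ) : ℝ) : ℂ) * cf L X Y q.1 q.2 (y (Int.fract q.1) : XX L)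

/-- `M` is the multiplication by `m` -/
def IsMul (m : ℝ × ℝ → ℂ) (M : HH →L[ℂ] HH) : Prop :=
  ∀ v : HH, (M v : ℝ × ℝ → ℂ) =ᵐ[volume] fun q => m q * v q

/-- the fibre map -/
def IsD (L : ℝ) (X Y : ℝ → ℝ) (D : XX L →L[ℂ] Lp ℂ 2 nu) : Prop :=
  ∀ b : XX L, (D b : ℤ × ℝ → ℂ) =ᵐ[nu] fun q =>
    ((rho q.1 q.2 ^ (-(3 / 8) : ℝ) : ℝ) : ℂ) * cf L X Y q.1 q.2 b

/-- Job W (from `JobTrace`): the operator `W` exists and is infinitesimally small -/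
def JobW : Prop := ∀ (L θ α : ℝ) (X Y : ℝ → ℝ), Coord L X Y → 0 < θ → 0 < α →
  ∃ (W : YY L →L[ℂ] HH) (S : HH →L[ℂ] HH) (c₁ : ℝ), IsW L θ X Y W ∧
    IsMul (fun q => (((1 + om θ q) ^ (-(1 / 2) : ℝ) : ℝ) : ℂ)) S ∧
    ∀ v : HH, (1 / 2) * ‖v‖ ^ 2 + α * ‖(ContinuousLinearMap.adjoint W) v‖ ^ 2 ≤
      ‖v‖ ^ 2 + (c₁ - 1) * ‖S v‖ ^ 2

/-- Job DMap (from `JobTrace`) -/
def JobDMap : Prop := ∀ (L : ℝ) (X Y : ℝ → ℝ), Coord L X Y →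
  ∃ D : XX L →L[ℂ] Lp ℂ 2 nu, IsD L X Y D

/-- Job Fibre (from `JobTrace`): `W† Φ_z W` is decomposable with the fibres `T κ` -/
def JobFibre : Prop := ∀ (L θ : ℝ) (X Y : ℝ → ℝ), Coord L X Y → 0 < θ →
  ∀ W : YY L →L[ℂ] HH, IsW L θ X Y W → ∀ z : ℂ, z.im ≠ 0 → ∀ Φ : HH →L[ℂ] HH,
  IsMul (fun q => ((1 + om θ q : ℝ) : ℂ) / ((om θ q : ℂ) - z)) Φ →
  ∀ T : ℝ → XX L →L[ℂ] XX L, Continuous T →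
  (∀ κ a b, ⟪a, T κ b⟫_ℂ = ∫ q : ℤ × ℝ, (1 / ((om θ (κ + q.1, q.2) : ℂ) - z)) *
    (conj (cf L X Y (κ + q.1) q.2 a) * cf L X Y (κ + q.1) q.2 b) ∂nu) →
  ∀ y : YY L, (ContinuousLinearMap.adjoint W (Φ (W y)) : ℝ → XX L)
    =ᵐ[(volume : Measure ℝ).restrict (Set.Ioo (0 : ℝ) 1)] fun κ => T κ (y κ)

/-- Job Curve (from `JobParseval`) -/
def JobCurve : Prop := ∀ (L θ : ℝ) (X Y : ℝ → ℝ), Coord L X Y → 0 < θ →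
  ∀ W : YY L →L[ℂ] HH, IsW L θ X Y W → ∀ (g h : ℝ × ℝ → ℂ) (C : ℝ), Continuous g →
  Continuous h →
  (∀ q : ℝ × ℝ, ‖g q‖ ≤ C / ((1 + q.1 ^ 2) ^ 2 * (1 + q.2 ^ 2) ^ 2)) →
  (∀ q : ℝ × ℝ, ‖h q‖ ≤ C / ((1 + q.1 ^ 2) ^ 2 * (1 + q.2 ^ 2) ^ 2)) →
  ∀ v w : HH, (v : ℝ × ℝ → ℂ) =ᵐ[volume] (fun q => ((Real.sqrt (1 + om θ q) : ℝ) : ℂ) * g q) →
  (w : ℝ × ℝ → ℂ) =ᵐ[volume] (fun q => ((Real.sqrt (1 + om θ q) : ℝ) : ℂ) * h q) →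
  ⟪ContinuousLinearMap.adjoint W v, ContinuousLinearMap.adjoint W w⟫_ℂ =
    ∫ s : ℝ, conj (∫ q : ℝ × ℝ, g q * ee X Y q.1 q.2 s) * ∫ q : ℝ × ℝ, h q * ee X Y q.1 q.2 s

/-- Job Free -/
def JobFree : Prop := ∀ θ : ℝ, 0 < θ → ∀ f : ℝ × ℝ → ℂ, MemLp f 2 volume →
  ∀ E : Set ℝ, IsCompact E → volume E = 0 → ∀ δ : ℝ, 0 < δ → ∃ V : Set ℝ, IsOpen V ∧ E ⊆ V ∧
    ∃ ε₀ : ℝ, 0 < ε₀ ∧ ∀ ε : ℝ, 0 < ε → ε < ε₀ →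
      ∫⁻ t in V, ENNReal.ofReal (∫ q : ℝ × ℝ, ε / ((om θ q - t) ^ 2 + ε ^ 2) * ‖f q‖ ^ 2) ≤
        ENNReal.ofReal δ

/-- Job Section -/
def JobSection : Prop := ∀ θ : ℝ, 0 < θ → ∀ P : ℝ → ℝ → Prop,
  (∀ l₀ k₀ : ℝ, 0 < k₀ → k₀ < 1 → (∀ n : ℤ, θ ^ 2 * (k₀ + n) ^ 2 ≠ l₀) →
    ∃ O ∈ 𝓝 (l₀, k₀), ∀ E : Set ℝ, volume E = 0 →
      volume {k : ℝ | ∃ l ∈ E, (l, k) ∈ O ∧ ¬ P l k} = 0) →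
  ∀ E : Set ℝ, volume E = 0 → volume {k : ℝ | 0 < k ∧ k < 1 ∧ ∃ l ∈ E, ¬ P l k} = 0

/-- Job Den -/
def JobDen : Prop := ∀ θ : ℝ, 0 < θ → ∀ (A : Set ℤ) (z κ : ℂ),
  (∀ n ∈ A, ∀ η : ℝ, (θ : ℂ) ^ 2 * (κ + n) ^ 2 + 4 * Real.pi ^ 2 * η ^ 2 - z ≠ 0) →
  ∃ c : ℝ, 0 < c ∧ ∀ n ∈ A, ∀ η : ℝ,
    c * rho n η ≤ ‖(θ : ℂ) ^ 2 * (κ + n) ^ 2 + 4 * Real.pi ^ 2 * η ^ 2 - z‖

/-- Job Ker: operators of the fibre with integrable symbol are integral operators -/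
def JobKer : Prop := ∀ (L : ℝ) (X Y : ℝ → ℝ), Coord L X Y → ∀ D : XX L →L[ℂ] Lp ℂ 2 nu,
  IsD L X Y D → ∀ ψ : ℤ × ℝ →ᵇ ℂ,
  Integrable (fun q : ℤ × ℝ => ((rho q.1 q.2 ^ (-(3 / 4) : ℝ) : ℝ) : ℂ) * ψ q) nu →
  ∀ k : ℝ × ℝ →ᵇ ℂ, (∀ s ∈ Set.Ioc (0 : ℝ) L, ∀ t ∈ Set.Ioc (0 : ℝ) L, k (s, t) =
    ∫ q : ℤ × ℝ, ((rho q.1 q.2 ^ (-(3 / 4) : ℝ) : ℝ) : ℂ) * ψ q * (ee X Y q.1 q.2 s *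
      conj (ee X Y q.1 q.2 t)) ∂nu) →
  ∀ a b : XX L, ⟪D a, mulB nu ψ (D b)⟫_ℂ = ∫ s in Set.Ioc (0 : ℝ) L, conj (a s) *
    ∫ t in Set.Ioc (0 : ℝ) L, k (s, t) * b t

/-- Job ApproxN (from `JobKernel` and `JobKer`): symbols which vanish at infinity -/
def JobApproxN : Prop := ∀ (L : ℝ) (X Y : ℝ → ℝ), Coord L X Y → ∀ D : XX L →L[ℂ] Lp ℂ 2 nu,
  IsD L X Y D → ∀ ψ : ℤ × ℝ →ᵇ ℂ,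
  (∀ ε : ℝ, 0 < ε → ∃ R : ℝ, ∀ q : ℤ × ℝ, R ≤ rho q.1 q.2 → ‖ψ q‖ ≤ ε) →
  Approx ((ContinuousLinearMap.adjoint D).comp ((mulB nu ψ).comp D))

noncomputable def gradForm (φ ψ : SchwartzMap E2 ℂ) : ℂ :=
  ∫ x : E2, ∑ i : Fin 2, conj (fderiv ℝ φ x (EuclideanSpace.single i 1)) *
    fderiv ℝ ψ x (EuclideanSpace.single i 1)

/-- Job Fourier: Plancherel in the coordinates `p = ⟨ξ, l⟩`, `η = ⟨ξ, e⟩` -/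
def JobFourier : Prop := ∀ l : E2, l ≠ 0 → ∃ (c : ℝ) (e : E2)
    (T : Lp ℂ 2 (volume : Measure E2) →L[ℂ] HH) (g : SchwartzMap E2 ℂ → ℝ × ℝ → ℂ),
  0 < c ∧ ‖e‖ = 1 ∧ ⟪e, l⟫_ℝ = 0 ∧
  (∀ x : E2, ‖x‖ ^ 2 = (⟪x, l⟫_ℝ / ‖l‖) ^ 2 + ⟪x, e⟫_ℝ ^ 2) ∧
  Function.Surjective T ∧ (∀ f h, ⟪f, h⟫_ℂ = c * ⟪T f, T h⟫_ℂ) ∧
  (∀ φ : SchwartzMap E2 ℂ, (T (φ.toLp 2 volume) : ℝ × ℝ → ℂ) =ᵐ[volume] g φ) ∧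
  (∀ φ, Continuous (g φ)) ∧
  (∀ φ, ∃ C : ℝ, ∀ q : ℝ × ℝ, ‖g φ q‖ ≤ C / ((1 + q.1 ^ 2) ^ 2 * (1 + q.2 ^ 2) ^ 2)) ∧
  (∀ φ x, φ x = c * ∫ q : ℝ × ℝ, g φ q * cexp (2 * Real.pi * I *
    (q.1 * (⟪x, l⟫_ℝ / ‖l‖ ^ 2 : ℝ) + q.2 * (⟪x, e⟫_ℝ : ℝ)))) ∧
  (∀ φ ψ, gradForm φ ψ = c * ∫ q : ℝ × ℝ, (om (2 * Real.pi / ‖l‖) q : ℂ) *
    (conj (g φ q) * g ψ q)) ∧
  (∀ v : HH, ∀ ε : ℝ, 0 < ε → ∃ (φ : SchwartzMap E2 ℂ) (w : HH), (w : ℝ × ℝ → ℂ) =ᵐ[volume]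
    (fun q => ((Real.sqrt (1 + om (2 * Real.pi / ‖l‖) q) : ℝ) : ℂ) * g φ q) ∧ ‖v - w‖ < ε)

end Pool.Agent.U37.LC
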