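import Mathlib
import Pool.Agent.U37.LC.Stm2
import Pool.Agent.U37.LC.AC

/-!
Project LC, third list of independent lemmas.
-/

set_option autoImplicit false

open MeasureTheory Filter Topology Complex
open scoped ComplexConjugate InnerProductSpace BoundedContinuousFunction

namespace Pool.Agent.U37.LC

/-- Job Energy: outgoing (`A`) and incoming (`B`) boundary values of one open channel -/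
def JobEnergy : Prop := ∀ (L : ℝ) (x y : ℝ → ℝ), 0 < L → Continuous x → Continuous y →
  ∀ (m : ℤ) (τ : ℝ), 0 < τ → ∀ A B : XX L →L[ℂ] XX L,
  (∀ a b : XX L, ⟪a, A b⟫_ℂ = ∫ s in Set.Ioc (0 : ℝ) L, conj (a s) * ∫ t in Set.Ioc (0 : ℝ) L,
    cexp (2 * Real.pi * I * (m * (x s - x t))) *
      (cexp (-(-I * τ) * (|y s - y t| : ℝ)) / (2 * (-I * τ))) * b t) →
  (∀ a b : XX L, ⟪a, B b⟫_ℂ = ∫ s in Set.Ioc (0 : ℝ) L, conj (a s) * ∫ t in Set.Ioc (0 : ℝ) L,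
    cexp (2 * Real.pi * I * (m * (x s - x t))) *
      (cexp (-(I * τ) * (|y s - y t| : ℝ)) / (2 * (I * τ))) * b t) →
  ∀ g : XX L, 0 ≤ (⟪g, A g⟫_ℂ).im ∧ ((⟪g, A g⟫_ℂ).im = 0 → A g = B g)

/-- Job HS -/
def JobHS : Prop := ∀ (L : ℝ) (X Y : ℝ → ℝ), Coord L X Y → ∀ D : XX L →L[ℂ] Lp ℂ 2 nu,
  IsD L X Y D → ∃ C : ℝ, 0 < C ∧ ∀ (ψ : ℤ × ℝ →ᵇ ℂ) (r : ℝ), 0 ≤ r →
  ∫⁻ q : ℤ × ℝ, ENNReal.ofReal (rho q.1 q.2 ^ (-(3 / 4) : ℝ) * ‖ψ q‖ ^ 2) ∂nu ≤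
    ENNReal.ofReal (r ^ 2) →
  ‖(ContinuousLinearMap.adjoint D).comp ((mulB nu ψ).comp D)‖ ≤ C * r

/-- local uniform invertibility of `1 - α T(t + iε, κ)` near a real point -/
def RegB {L : ℝ} (α : ℝ) (T : ℂ → ℝ → XX L →L[ℂ] XX L) (l k : ℝ) : Prop :=
  ∃ O ∈ 𝓝 (l, k), ∃ ε₀ : ℝ, 0 < ε₀ ∧ ∃ C : ℝ, ∀ p : ℝ × ℝ, p ∈ O → ∀ ε : ℝ, 0 < ε → ε < ε₀ →
    IsUnit (1 - (α : ℂ) • T ((p.1 : ℂ) + ε * I) p.2) ∧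
    ‖Ring.inverse (1 - (α : ℂ) • T ((p.1 : ℂ) + ε * I) p.2)‖ ≤ C

/-- Job YG (from `JobFibre`): the vectors generated by `W` are good -/
def JobYG : Prop := ∀ (L θ α c₁ : ℝ) (X Y : ℝ → ℝ), Coord L X Y → 0 < θ → 0 < α →
  ∀ (W : YY L →L[ℂ] HH) (S : HH →L[ℂ] HH), IsW L θ X Y W →
  IsMul (fun q => (((1 + om θ q) ^ (-(1 / 2) : ℝ) : ℝ) : ℂ)) S → Pen S W α c₁ →
  ∀ T : ℂ → ℝ → XX L →L[ℂ] XX L, (∀ z : ℂ, z.im ≠ 0 → Continuous (T z)) →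
  (∀ z : ℂ, z.im ≠ 0 → ∀ κ a b, ⟪a, T z κ b⟫_ℂ =
    ∫ q : ℤ × ℝ, (1 / ((om θ (κ + q.1, q.2) : ℂ) - z)) *
      (conj (cf L X Y (κ + q.1) q.2 a) * cf L X Y (κ + q.1) q.2 b) ∂nu) →
  (∀ E : Set ℝ, volume E = 0 → volume {k : ℝ | 0 < k ∧ k < 1 ∧ ∃ l ∈ E, ¬ RegB α T l k} = 0) →
  ∀ y : YY L, YGood W S α y

/-- Job Orth (from `JobFree`): the orthogonal complement -/
def JobOrth : Prop := ∀ (L θ α c₁ : ℝ), 0 < θ → 0 < α →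
  ∀ (W : YY L →L[ℂ] HH) (S : HH →L[ℂ] HH),
  IsMul (fun q => (((1 + om θ q) ^ (-(1 / 2) : ℝ) : ℝ) : ℂ)) S → Pen S W α c₁ →
  ∀ f : HH, (∀ z₀ : ℂ, z₀.im ≠ 0 → ∀ y : YY L, ⟪S (AI S W α z₀ (W y)), f⟫_ℂ = 0) → Good S W α f

/-- `u` lies in the form domain `H¹(ℝ²)` and `H u = f` in the sense of forms, where `H` is the
operator of the form `∫ |∇u|² - α ∫_Γ |u|²`. -/
def Solves (γ : ℝ → E2) (α : ℝ) (u f : Lp ℂ 2 (volume : Measure E2)) : Prop :=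
  ∃ ψ : ℕ → SchwartzMap E2 ℂ,
    Tendsto (fun n => (ψ n).toLp 2 volume) atTop (𝓝 u) ∧
    Tendsto (fun p : ℕ × ℕ => gradForm (ψ p.1 - ψ p.2) (ψ p.1 - ψ p.2)) atTop (𝓝 0) ∧
    ∀ φ : SchwartzMap E2 ℂ, Tendsto (fun n => gradForm φ (ψ n) -
      α * ∫ s : ℝ, conj (φ (γ s)) * ψ n (γ s)) atTop (𝓝 ⟪φ.toLp 2 volume, f⟫_ℂ)

/-- Job Link (from `JobFourier`, `JobCurve`, `JobBilip`) -/
def JobLink : Prop := ∀ (γ : ℝ → E2) (L : ℝ) (l : E2) (α : ℝ), ContDiff ℝ 1 γ →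
  (∀ s, ‖deriv γ s‖ = 1) → Function.Injective γ → 0 < L → l ≠ 0 → (∀ s, γ (s + L) = γ s + l) →
  ∃ (X Y : ℝ → ℝ) (θ c : ℝ) (T : Lp ℂ 2 (volume : Measure E2) →L[ℂ] HH), Coord L X Y ∧ 0 < θ ∧
    0 < c ∧ Function.Surjective T ∧ (∀ f h, ⟪f, h⟫_ℂ = c * ⟪T f, T h⟫_ℂ) ∧
    ∀ (W : YY L →L[ℂ] HH) (S : HH →L[ℂ] HH), IsW L θ X Y W →
      IsMul (fun q => (((1 + om θ q) ^ (-(1 / 2) : ℝ) : ℝ) : ℂ)) S →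
      ∀ u f, Solves γ α u f ↔ ∃ v : HH, T u = S v ∧ AA S W (α * c) 0 v = S (T f)

end Pool.Agent.U37.LC
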