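import Mathlib
import Pool.Agent.U37.LC.Stm

/-!
Project LC: approximable operators.
-/

set_option autoImplicit false

open Filter Topology Complex

namespace Pool.Agent.U37.LC

variable {V : Type*} [NormedAddCommGroup V] [NormedSpace ℂ V]

theorem Approx.zero : Approx (0 : V →L[ℂ] V) := by
  intro ε hε
  exact ⟨0, 0, 0, by simpa using hε⟩

theorem Approx.add {T₁ T₂ : V →L[ℂ] V} (h₁ : Approx T₁) (h₂ : Approx T₂) : Approx (T₁ + T₂) := by
  intro ε hε
  obtain ⟨r₁, u₁, v₁, h1⟩ := h₁ (ε / 2) (by positivity)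
  obtain ⟨r₂, u₂, v₂, h2⟩ := h₂ (ε / 2) (by positivity)
  refine ⟨r₁ + r₂,
    u₁.comp (ContinuousLinearMap.pi fun j => ContinuousLinearMap.proj (Fin.castAdd r₂ j)) +
    u₂.comp (ContinuousLinearMap.pi fun j => ContinuousLinearMap.proj (Fin.natAdd r₁ j)),
    ContinuousLinearMap.pi (Fin.addCases
      (fun j => (ContinuousLinearMap.proj j).comp v₁)
      (fun j => (ContinuousLinearMap.proj j).comp v₂)), ?_⟩
  have h3 : (u₁.comp (ContinuousLinearMap.pi fun j =>
        ContinuousLinearMap.proj (R := ℂ) (φ := fun _ : Fin (r₁ + r₂) => ℂ) (Fin.castAdd r₂ j)) +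
      u₂.comp (ContinuousLinearMap.pi fun j =>
        ContinuousLinearMap.proj (R := ℂ) (φ := fun _ : Fin (r₁ + r₂) => ℂ) (Fin.natAdd r₁ j))).comp
      (ContinuousLinearMap.pi (Fin.addCases
      (fun j => (ContinuousLinearMap.proj (R := ℂ) (φ := fun _ : Fin r₁ => ℂ) j).comp v₁)
      (fun j => (ContinuousLinearMap.proj (R := ℂ) (φ := fun _ : Fin r₂ => ℂ) j).comp v₂))) =
      u₁.comp v₁ + u₂.comp v₂ := by
    ext x
    simp only [ContinuousLinearMap.comp_apply, ContinuousLinearMap.add_apply]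
    congr 2
    · congr 1
      ext j
      simp
    · congr 1
      ext j
      simp
  rw [h3]
  calc ‖T₁ + T₂ - (u₁.comp v₁ + u₂.comp v₂)‖ = ‖(T₁ - u₁.comp v₁) + (T₂ - u₂.comp v₂)‖ := by
        congr 1; abel
    _ ≤ ‖T₁ - u₁.comp v₁‖ + ‖T₂ - u₂.comp v₂‖ := norm_add_le _ _
    _ < ε := by linarith

theorem Approx.smul {T : V →L[ℂ] V} (h : Approx T) (c : ℂ) : Approx (c • T) := by
  intro ε hε
  obtain ⟨r, u, v, h1⟩ := h (ε / (‖c‖ + 1)) (by positivity)
  refine ⟨r, c • u, v, ?_⟩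
  rw [ContinuousLinearMap.smul_comp, ← smul_sub, norm_smul]
  have h2 : ‖c‖ * ‖T - u.comp v‖ ≤ ‖c‖ * (ε / (‖c‖ + 1)) :=
    mul_le_mul_of_nonneg_left h1.le (norm_nonneg _)
  refine h2.trans_lt ?_
  rw [mul_div_assoc', div_lt_iff₀ (by positivity)]
  nlinarith [norm_nonneg c]

theorem Approx.sum {ι : Type*} (F : Finset ι) (T : ι → V →L[ℂ] V) (h : ∀ i ∈ F, Approx (T i)) :
    Approx (∑ i ∈ F, T i) := by
  classical
  induction F using Finset.induction_on with
  | empty => simpa using Approx.zero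
  | insert a s ha ih =>
    rw [Finset.sum_insert ha]
    exact (h a (Finset.mem_insert_self _ _)).add
      (ih fun i hi => h i (Finset.mem_insert_of_mem hi))

theorem Approx.isCompact [CompleteSpace V] {T : V →L[ℂ] V} (h : Approx T) :
    IsCompactOperator T := by
  have h1 : T ∈ closure {f : V →L[ℂ] V | IsCompactOperator f} := by
    rw [Metric.mem_closure_iff]
    intro ε hε
    obtain ⟨r, u, v, h1⟩ := h ε hε
    refine ⟨u.comp v, ?_, by rwa [dist_eq_norm]⟩
    have h2 : IsCompactOperator u := isCompactOperator_of_locallyCompactSpace_rng u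
    exact h2.comp_clm v
  have h2 : IsClosed {f : V →L[ℂ] V | IsCompactOperator f} :=
    isClosed_setOfPred_isCompactOperator
  rwa [h2.closure_eq] at h1

/-- the Fredholm alternative -/
theorem Approx.alternative [CompleteSpace V] {T : V →L[ℂ] V} (h : Approx T)
    (hu : ¬ IsUnit (1 - T)) : ∃ g : V, g ≠ 0 ∧ T g = g := by
  rcases h.isCompact.hasEigenvalue_or_mem_resolventSet (one_ne_zero : (1 : ℂ) ≠ 0) with h1 | h1
  · obtain ⟨g, hg⟩ := h1.exists_hasEigenvector
    refine ⟨g, hg.2, ?_⟩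
    have := hg.apply_eq_smul
    simpa using this
  · exfalso
    apply hu
    have := spectrum.mem_resolventSet_iff.1 h1
    simpa using this

end Pool.Agent.U37.LC
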