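import Mathlib
import Pool.Agent.U37.LC.Stm3

/-!
Project LC: the symbols of the fibre operators in the Banach algebra of bounded continuous functions.
-/

set_option autoImplicit false

open MeasureTheory Filter Topology Complex
open scoped ComplexConjugate InnerProductSpace BoundedContinuousFunction

namespace Pool.Agent.U37.LC

section bcf
variable {Ω : Type} [TopologicalSpace Ω]

noncomputable def mkB (f : Ω → ℂ) (hf : Continuous f) (C : ℝ) (hb : ∀ q, ‖f q‖ ≤ C) : Ω →ᵇ ℂ :=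
  BoundedContinuousFunction.ofNormedAddCommGroup f hf C hb

@[simp] theorem mkB_apply (f : Ω → ℂ) (hf : Continuous f) (C : ℝ) (hb : ∀ q, ‖f q‖ ≤ C) (q : Ω) :
    mkB f hf C hb q = f q := rfl

theorem bcf_isUnit (f : Ω →ᵇ ℂ) (c : ℝ) (hc : 0 < c) (h : ∀ q, c ≤ ‖f q‖) : IsUnit f := by
  have hne : ∀ q, f q ≠ 0 := fun q h0 => by
    have := h q
    rw [h0, norm_zero] at this
    linarith
  let g : Ω →ᵇ ℂ := mkB (fun q => (f q)⁻¹) (f.continuous.inv₀ hne) c⁻¹ (fun q => by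
    rw [norm_inv]; exact inv_anti₀ hc (h q))
  refine ⟨⟨f, g, ?_, ?_⟩, rfl⟩
  · ext q
    simp [g, hne q]
  · ext q
    simp [g, hne q]

theorem inverse_apply (f : Ω →ᵇ ℂ) (h : IsUnit f) (q : Ω) : Ring.inverse f q = (f q)⁻¹ := by
  have h1 : f * Ring.inverse f = 1 := Ring.mul_inverse_cancel f h
  have h2 := congrArg (fun g : Ω →ᵇ ℂ => g q) h1
  simp only [BoundedContinuousFunction.mul_apply, BoundedContinuousFunction.coe_one, Pi.one_apply] at h2
  exact eq_inv_of_mul_eq_one_right h2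

theorem bcf_ne_zero (f : Ω →ᵇ ℂ) (h : IsUnit f) (q : Ω) : f q ≠ 0 := by
  have h1 : f * Ring.inverse f = 1 := Ring.mul_inverse_cancel f h
  have h2 := congrArg (fun g : Ω →ᵇ ℂ => g q) h1
  simp only [BoundedContinuousFunction.mul_apply, BoundedContinuousFunction.coe_one, Pi.one_apply] at h2
  exact left_ne_zero_of_mul_eq_one h2

theorem exp_apply (f : Ω →ᵇ ℂ) (q : Ω) : NormedSpace.exp f q = cexp (f q) := by
  let ev : (Ω →ᵇ ℂ) →+* ℂ :=
    { toFun := fun g => g q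
      map_one' := rfl
      map_mul' := fun _ _ => rfl
      map_zero' := rfl
      map_add' := fun _ _ => rfl }
  have hev : Continuous ev := (BoundedContinuousFunction.evalCLM ℂ q).continuous
  have h := NormedSpace.map_exp ev hev f
  rw [← Complex.exp_eq_exp_ℂ] at h
  exact h

end bcf

theorem rho_pos (n : ℤ) (η : ℝ) : 0 < rho n η := by unfold rho; positivity

theorem one_le_rho (n : ℤ) (η : ℝ) : 1 ≤ rho n η := by
  unfold rho
  nlinarith [sq_nonneg (n : ℝ), sq_nonneg η]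

theorem continuous_castZ : Continuous fun q : ℤ × ℝ => (q.1 : ℝ) :=
  (continuous_of_discreteTopology (f := fun n : ℤ => (n : ℝ))).comp continuous_fst

theorem continuous_castC : Continuous fun q : ℤ × ℝ => (q.1 : ℂ) :=
  (continuous_of_discreteTopology (f := fun n : ℤ => (n : ℂ))).comp continuous_fst

theorem continuous_rho : Continuous fun q : ℤ × ℝ => rho q.1 q.2 := by
  unfold rho
  have := continuous_castZ
  fun_prop

theorem continuous_rpow_rho (r : ℝ) : Continuous fun q : ℤ × ℝ => ((rho q.1 q.2 ^ r : ℝ) : ℂ) := by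
  refine Complex.continuous_ofReal.comp ?_
  exact continuous_rho.rpow_const fun q => Or.inl (rho_pos _ _).ne'

/-- the denominator -/
noncomputable def den (θ : ℝ) (z κ : ℂ) (q : ℤ × ℝ) : ℂ :=
  (θ : ℂ) ^ 2 * (κ + q.1) ^ 2 + 4 * Real.pi ^ 2 * q.2 ^ 2 - z

/-- indicator of a set of modes -/
noncomputable def indB (A : Set ℤ) : ℤ × ℝ →ᵇ ℂ := by
  classical
  exact mkB (fun q => if q.1 ∈ A then 1 else 0)
    ((continuous_of_discreteTopology (f := fun n : ℤ => if n ∈ A then (1 : ℂ) else 0)).comp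
      continuous_fst) 1 (fun q => by split_ifs <;> simp)

theorem indB_mem {A : Set ℤ} {q : ℤ × ℝ} (h : q.1 ∈ A) : indB A q = 1 := by
  classical
  simp [indB, h]

theorem indB_not {A : Set ℤ} {q : ℤ × ℝ} (h : q.1 ∉ A) : indB A q = 0 := by
  classical
  simp [indB, h]

noncomputable def c0B (θ : ℝ) : ℤ × ℝ →ᵇ ℂ :=
  mkB (fun q => (((θ ^ 2 * (q.1 : ℝ) ^ 2 + 4 * Real.pi ^ 2 * q.2 ^ 2) / rho q.1 q.2 : ℝ) : ℂ))
    (by
      refine Complex.continuous_ofReal.comp ?_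
      have := continuous_castZ
      exact Continuous.div (by fun_prop) continuous_rho fun q => (rho_pos _ _).ne')
    (θ ^ 2 + 4 * Real.pi ^ 2) (fun q => by
      rw [Complex.norm_real, Real.norm_eq_abs, abs_of_nonneg (by
        have := rho_pos q.1 q.2; positivity), div_le_iff₀ (rho_pos _ _)]
      unfold rho
      have h1 : 0 ≤ θ ^ 2 := by positivity
      have h2 : 0 ≤ 4 * Real.pi ^ 2 := by positivity
      have h3 : 0 ≤ (q.1 : ℝ) ^ 2 := by positivity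
      have h4 : 0 ≤ q.2 ^ 2 := by positivity
      nlinarith [mul_nonneg h1 h3, mul_nonneg h1 h4, mul_nonneg h2 h3, mul_nonneg h2 h4])

noncomputable def c1B : ℤ × ℝ →ᵇ ℂ :=
  mkB (fun q => (((q.1 : ℝ) / rho q.1 q.2 : ℝ) : ℂ))
    (by
      refine Complex.continuous_ofReal.comp ?_
      exact Continuous.div continuous_castZ continuous_rho fun q => (rho_pos _ _).ne')
    1 (fun q => by
      rw [Complex.norm_real, Real.norm_eq_abs, abs_div, abs_of_pos (rho_pos _ _),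
        div_le_iff₀ (rho_pos _ _)]
      unfold rho
      have h4 : 0 ≤ q.2 ^ 2 := by positivity
      have h5 : |(q.1 : ℝ)| ^ 2 = (q.1 : ℝ) ^ 2 := sq_abs _
      nlinarith [sq_nonneg (|(q.1 : ℝ)| - 1), abs_nonneg (q.1 : ℝ)])

noncomputable def c2B : ℤ × ℝ →ᵇ ℂ :=
  mkB (fun q => ((1 / rho q.1 q.2 : ℝ) : ℂ))
    (by
      refine Complex.continuous_ofReal.comp ?_
      exact Continuous.div continuous_const continuous_rho fun q => (rho_pos _ _).ne')
    1 (fun q => by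
      rw [Complex.norm_real, Real.norm_eq_abs, abs_of_pos (by
        have := rho_pos q.1 q.2; positivity), div_le_iff₀ (rho_pos _ _), one_mul]
      exact one_le_rho _ _)

noncomputable def zeB : ℤ × ℝ →ᵇ ℂ :=
  mkB (fun q => ((rho q.1 q.2 ^ (-(1 / 4) : ℝ) : ℝ) : ℂ)) (continuous_rpow_rho _) 1 (fun q => by
    rw [Complex.norm_real, Real.norm_eq_abs, abs_of_pos (Real.rpow_pos_of_pos (rho_pos _ _) _)]
    exact Real.rpow_le_one_of_one_le_of_nonpos (one_le_rho _ _) (by norm_num))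

/-- the normalised denominator -/
noncomputable def sB (θ : ℝ) (A : Set ℤ) (z κ : ℂ) : ℤ × ℝ →ᵇ ℂ :=
  indB A * (c0B θ + (2 * (θ : ℂ) ^ 2 * κ) • c1B + ((θ : ℂ) ^ 2 * κ ^ 2 - z) • c2B) + indB Aᶜ

theorem sB_mem {θ : ℝ} {A : Set ℤ} {z κ : ℂ} {q : ℤ × ℝ} (h : q.1 ∈ A) :
    sB θ A z κ q = den θ z κ q / (rho q.1 q.2 : ℂ) := by
  have h2 : q.1 ∉ Aᶜ := fun h3 => h3 h
  have h3 : (rho q.1 q.2 : ℂ) ≠ 0 := by exact_mod_cast (rho_pos q.1 q.2).ne'
  simp only [sB, BoundedContinuousFunction.add_apply, BoundedContinuousFunction.mul_apply,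
    indB_mem h, indB_not h2, BoundedContinuousFunction.smul_apply, c0B, c1B, c2B, mkB_apply,
    smul_eq_mul, den, one_mul, add_zero]
  push_cast
  field_simp
  ring

theorem sB_not {θ : ℝ} {A : Set ℤ} {z κ : ℂ} {q : ℤ × ℝ} (h : q.1 ∉ A) : sB θ A z κ q = 1 := by
  have h2 : q.1 ∈ Aᶜ := h
  simp only [sB, BoundedContinuousFunction.add_apply, BoundedContinuousFunction.mul_apply,
    indB_mem h2, indB_not h, zero_mul, zero_add]

theorem sB_isUnit (hD : JobDen) {θ : ℝ} (hθ : 0 < θ) {A : Set ℤ} {z κ : ℂ}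
    (h : ∀ q : ℤ × ℝ, q.1 ∈ A → den θ z κ q ≠ 0) : IsUnit (sB θ A z κ) := by
  obtain ⟨c, hc, h2⟩ := hD θ hθ A z κ (fun n hn η => h (n, η) hn)
  refine bcf_isUnit _ (min c 1) (lt_min hc one_pos) fun q => ?_
  by_cases hq : q.1 ∈ A
  · rw [sB_mem hq, norm_div, Complex.norm_real, Real.norm_eq_abs, abs_of_pos (rho_pos _ _),
      le_div_iff₀ (rho_pos _ _)]
    refine le_trans ?_ (h2 q.1 hq q.2)
    exact mul_le_mul_of_nonneg_right (min_le_left _ _) (rho_pos _ _).le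
  · rw [sB_not hq, norm_one]
    exact min_le_right _ _

theorem den_ne {θ : ℝ} {A : Set ℤ} {z κ : ℂ} (h : IsUnit (sB θ A z κ)) {q : ℤ × ℝ}
    (hq : q.1 ∈ A) : den θ z κ q ≠ 0 := by
  intro h0
  refine bcf_ne_zero _ h q ?_
  rw [sB_mem hq, h0, zero_div]

theorem sB_analytic (θ : ℝ) (A : Set ℤ) (p : ℂ × ℂ) :
    AnalyticAt ℂ (fun p : ℂ × ℂ => sB θ A p.1 p.2) p := by
  unfold sB
  have h1 : AnalyticAt ℂ (fun p : ℂ × ℂ => p.1) p := analyticAt_fst
  have h2 : AnalyticAt ℂ (fun p : ℂ × ℂ => p.2) p := analyticAt_snd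
  refine AnalyticAt.add (AnalyticAt.mul analyticAt_const (AnalyticAt.add (AnalyticAt.add
    analyticAt_const ?_) ?_)) analyticAt_const
  · exact (analyticAt_const.mul h2).smul analyticAt_const
  · exact ((analyticAt_const.mul (h2.pow 2)).sub h1).smul analyticAt_const

/-- the symbol restricted to the modes in `A` -/
noncomputable def psB (θ : ℝ) (A : Set ℤ) (z κ : ℂ) : ℤ × ℝ →ᵇ ℂ :=
  indB A * zeB * Ring.inverse (sB θ A z κ)

theorem psB_not {θ : ℝ} {A : Set ℤ} {z κ : ℂ} {q : ℤ × ℝ} (h : q.1 ∉ A) : psB θ A z κ q = 0 := by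
  simp only [psB, BoundedContinuousFunction.mul_apply, indB_not h, zero_mul]

theorem psB_mem {θ : ℝ} {A : Set ℤ} {z κ : ℂ} (hu : IsUnit (sB θ A z κ)) {q : ℤ × ℝ}
    (h : q.1 ∈ A) : psB θ A z κ q = ((rho q.1 q.2 ^ (3 / 4 : ℝ) : ℝ) : ℂ) / den θ z κ q := by
  have hr := rho_pos q.1 q.2
  simp only [psB, BoundedContinuousFunction.mul_apply, indB_mem h, one_mul, inverse_apply _ hu,
    sB_mem h, zeB, mkB_apply, inv_div]
  rw [mul_div_assoc', ← Complex.ofReal_mul]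
  congr 2
  calc rho q.1 q.2 ^ (-(1 / 4) : ℝ) * rho q.1 q.2
      = rho q.1 q.2 ^ (-(1 / 4) : ℝ) * rho q.1 q.2 ^ (1 : ℝ) := by rw [Real.rpow_one]
    _ = rho q.1 q.2 ^ (3 / 4 : ℝ) := by
        rw [← Real.rpow_add hr]
        norm_num

theorem psB_analytic {θ : ℝ} {A : Set ℤ} {p : ℂ × ℂ} (hu : IsUnit (sB θ A p.1 p.2)) :
    AnalyticAt ℂ (fun p : ℂ × ℂ => psB θ A p.1 p.2) p := by
  unfold psB
  refine analyticAt_const.mul ?_
  have h1 : AnalyticAt ℂ (Ring.inverse : (ℤ × ℝ →ᵇ ℂ) → (ℤ × ℝ →ᵇ ℂ)) (sB θ A p.1 p.2) :=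
    analyticAt_inverse (𝕜 := ℂ) hu.unit
  exact h1.comp_of_eq (sB_analytic θ A p) rfl

theorem psB_vanish (θ : ℝ) (A : Set ℤ) (z κ : ℂ) :
    ∀ ε : ℝ, 0 < ε → ∃ R : ℝ, ∀ q : ℤ × ℝ, R ≤ rho q.1 q.2 → ‖psB θ A z κ q‖ ≤ ε := by
  intro ε hε
  set M : ℝ := ‖Ring.inverse (sB θ A z κ)‖ + 1 with hM
  have hMp : 0 < M := by positivity
  refine ⟨(M / ε) ^ (4 : ℝ), fun q hq => ?_⟩
  have hr := rho_pos q.1 q.2
  have h1 : ‖psB θ A z κ q‖ ≤ rho q.1 q.2 ^ (-(1 / 4) : ℝ) * M := by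
    simp only [psB, BoundedContinuousFunction.mul_apply, norm_mul]
    have h2 : ‖indB A q‖ ≤ 1 := by
      by_cases h : q.1 ∈ A
      · rw [indB_mem h, norm_one]
      · rw [indB_not h, norm_zero]; exact zero_le_one
    have h3 : ‖zeB q‖ = rho q.1 q.2 ^ (-(1 / 4) : ℝ) := by
      rw [zeB, mkB_apply, Complex.norm_real, Real.norm_eq_abs,
        abs_of_pos (Real.rpow_pos_of_pos hr _)]
    have h4 : ‖Ring.inverse (sB θ A z κ) q‖ ≤ M := by
      have := (Ring.inverse (sB θ A z κ)).norm_coe_le_norm q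
      rw [hM]; linarith
    rw [h3]
    have h5 : 0 ≤ rho q.1 q.2 ^ (-(1 / 4) : ℝ) := (Real.rpow_pos_of_pos hr _).le
    calc ‖indB A q‖ * rho q.1 q.2 ^ (-(1 / 4) : ℝ) * ‖Ring.inverse (sB θ A z κ) q‖
        ≤ 1 * rho q.1 q.2 ^ (-(1 / 4) : ℝ) * M := by gcongr
      _ = _ := by ring
  refine h1.trans ?_
  have h6 : M / ε ≤ rho q.1 q.2 ^ (1 / 4 : ℝ) := by
    have h7 := Real.rpow_le_rpow (by positivity) hq (by norm_num : (0 : ℝ) ≤ 1 / 4)
    rw [← Real.rpow_mul (by positivity)] at h7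
    norm_num at h7
    exact h7
  rw [Real.rpow_neg hr.le]
  rw [div_le_iff₀ hε] at h6
  rw [inv_mul_le_iff₀ (Real.rpow_pos_of_pos hr _)]
  linarith

end Pool.Agent.U37.LC
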