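import Mathlib
import Pool.Agent.U37.LC.Sym

/-!
Project LC: fibre operators, single modes, branches of the square root.
-/

set_option autoImplicit false

open MeasureTheory Filter Topology Complex
open scoped ComplexConjugate InnerProductSpace BoundedContinuousFunction

namespace Pool.Agent.U37.LC

/-- operators of the fibre with symbol `ψ` -/
noncomputable def NN {L : ℝ} (D : XX L →L[ℂ] Lp ℂ 2 nu) :
    (ℤ × ℝ →ᵇ ℂ) →L[ℂ] (XX L →L[ℂ] XX L) :=
  ((ContinuousLinearMap.compL ℂ (XX L) (Lp ℂ 2 nu) (XX L)) (ContinuousLinearMap.adjoint D)).comp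
    (((ContinuousLinearMap.compL ℂ (XX L) (Lp ℂ 2 nu) (Lp ℂ 2 nu)).flip D).comp (mulB nu))

theorem NN_apply {L : ℝ} (D : XX L →L[ℂ] Lp ℂ 2 nu) (ψ : ℤ × ℝ →ᵇ ℂ) :
    NN D ψ = (ContinuousLinearMap.adjoint D).comp ((mulB nu ψ).comp D) := rfl

theorem NN_inner {L : ℝ} (D : XX L →L[ℂ] Lp ℂ 2 nu) (ψ : ℤ × ℝ →ᵇ ℂ) (a b : XX L) :
    ⟪a, NN D ψ b⟫_ℂ = ⟪D a, mulB nu ψ (D b)⟫_ℂ := by
  rw [NN_apply, ContinuousLinearMap.comp_apply, ContinuousLinearMap.adjoint_inner_right]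
  rfl

section kernels
variable {L : ℝ} {X Y : ℝ → ℝ}

theorem Coord.bddY (hC : Coord L X Y) : ∃ B : ℝ, 0 ≤ B ∧ ∀ s, |Y s| ≤ B := by
  obtain ⟨B, hB⟩ := (isCompact_Icc (a := (0 : ℝ)) (b := L)).exists_bound_of_continuousOn
    hC.contY.continuousOn
  have hper : Function.Periodic Y L := hC.perY
  refine ⟨max B 0, le_max_right _ _, fun s => ?_⟩
  obtain ⟨y, hy, hy2⟩ := hper.exists_mem_Ico₀ hC.pos s
  rw [hy2]
  exact (hB y ⟨hy.1, hy.2.le⟩).trans (le_max_left _ _)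

noncomputable def eB (hC : Coord L X Y) (m : ℤ) : ℝ × ℝ →ᵇ ℂ :=
  mkB (fun p => cexp (2 * Real.pi * I * (m * (X p.1 - X p.2))))
    (by
      have := hC.contX
      fun_prop) 1 (fun p => by
      have : (2 * Real.pi * I * (m * (X p.1 - X p.2)) : ℂ) =
          ((2 * Real.pi * (m * (X p.1 - X p.2)) : ℝ) : ℂ) * I := by push_cast; ring
      rw [this, Complex.norm_exp_ofReal_mul_I])

noncomputable def gB (hC : Coord L X Y) : ℝ × ℝ →ᵇ ℂ :=
  mkB (fun p => ((|Y p.1 - Y p.2| : ℝ) : ℂ))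
    (by
      have := hC.contY
      exact Complex.continuous_ofReal.comp (by fun_prop)) (2 * hC.bddY.choose) (fun p => by
      have h := hC.bddY.choose_spec.2
      rw [Complex.norm_real, Real.norm_eq_abs, abs_abs]
      have h1 := abs_sub (Y p.1) (Y p.2)
      linarith [h p.1, h p.2])

/-- the kernel of one mode -/
noncomputable def kkB (hC : Coord L X Y) (m : ℤ) (β : ℂ) : ℝ × ℝ →ᵇ ℂ :=
  (1 / (2 * β)) • (eB hC m * NormedSpace.exp ((-β) • gB hC))

theorem kkB_apply (hC : Coord L X Y) (m : ℤ) (β : ℂ) (s t : ℝ) : kkB hC m β (s, t) =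
    cexp (2 * Real.pi * I * (m * (X s - X t))) *
      (cexp (-β * (|Y s - Y t| : ℝ)) / (2 * β)) := by
  simp only [kkB, BoundedContinuousFunction.smul_apply, BoundedContinuousFunction.mul_apply,
    exp_apply, eB, gB, mkB_apply, smul_eq_mul]
  ring

theorem kkB_analytic (hC : Coord L X Y) (m : ℤ) {β : ℂ} (hβ : β ≠ 0) :
    AnalyticAt ℂ (fun β : ℂ => kkB hC m β) β := by
  unfold kkB
  have h1 : AnalyticAt ℂ (fun β : ℂ => 1 / (2 * β)) β :=
    analyticAt_const.div (analyticAt_const.mul analyticAt_id) (by simpa using hβ)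
  have h2 : AnalyticAt ℂ (fun β : ℂ => (-β) • gB hC) β :=
    (analyticAt_id.neg).smul analyticAt_const
  have h3 : AnalyticAt ℂ (NormedSpace.exp : (ℝ × ℝ →ᵇ ℂ) → (ℝ × ℝ →ᵇ ℂ)) ((-β) • gB hC) :=
    NormedSpace.exp_analytic (𝕂 := ℂ) _
  exact h1.smul (analyticAt_const.mul (h3.comp_of_eq h2 rfl))

end kernels

section single

theorem int_single (m : ℤ) (h : ℝ → ℂ) (hc : Continuous h) (hh : Integrable h) :
    Integrable (fun q : ℤ × ℝ => if q.1 = m then h q.2 else 0) nu ∧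
    ∫ q : ℤ × ℝ, (if q.1 = m then h q.2 else 0) ∂nu = ∫ η, h η := by
  have hcont : Continuous (fun q : ℤ × ℝ => if q.1 = m then h q.2 else 0) := by
    have h1 : (fun q : ℤ × ℝ => if q.1 = m then h q.2 else 0) =
        fun q => indB {m} q * h q.2 := by
      funext q
      by_cases hq : q.1 = m
      · rw [if_pos hq, indB_mem (by simpa using hq), one_mul]
      · rw [if_neg hq, indB_not (by simpa using hq), zero_mul]
    rw [h1]
    exact (indB {m}).continuous.mul (hc.comp continuous_snd)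
  have hint : Integrable (fun q : ℤ × ℝ => if q.1 = m then h q.2 else 0) nu := by
    unfold nu
    rw [integrable_prod_iff hcont.aestronglyMeasurable]
    refine ⟨Eventually.of_forall fun n => ?_, ?_⟩
    · by_cases hn : n = m
      · simpa [hn] using hh
      · simp [hn]
    · rw [integrable_count_iff]
      refine summable_of_ne_finset_zero (s := {m}) fun n hn => ?_
      have hn' : n ≠ m := by simpa using hn
      simp [hn']
  refine ⟨hint, ?_⟩
  unfold nu at hint ⊢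
  rw [integral_prod _ hint]
  have h2 : Integrable (fun n : ℤ => ∫ η : ℝ, (if (n, η).1 = m then h (n, η).2 else 0))
      (Measure.count : Measure ℤ) := hint.integral_prod_left
  rw [integral_countable' h2, tsum_eq_single m]
  · simp
  · intro n hn
    simp [hn]

end single

section root

/-- branches of the square root -/
noncomputable def rt (c w : ℂ) : ℂ := c * (w / c ^ 2) ^ (1 / 2 : ℂ)

theorem half_sq (v : ℂ) : (v ^ (1 / 2 : ℂ)) ^ 2 = v := by
  have := Complex.cpow_nat_inv_pow v (n := 2) two_ne_zero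
  rw [one_div]
  exact_mod_cast this

theorem rt_sq {c : ℂ} (hc : c ≠ 0) (w : ℂ) : rt c w ^ 2 = w := by
  unfold rt
  rw [mul_pow, half_sq]
  field_simp

theorem rt_analytic {c : ℂ} {w : ℂ} (h : w / c ^ 2 ∈ slitPlane) :
    AnalyticAt ℂ (fun w => rt c w) w := by
  unfold rt
  have h1 : AnalyticAt ℂ (fun w : ℂ => w / c ^ 2) w := analyticAt_id.div_const
  exact analyticAt_const.mul (h1.cpow analyticAt_const h)

theorem half_re {v : ℂ} (h : v ∈ slitPlane) : 0 < (v ^ (1 / 2 : ℂ)).re := by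
  have hv : v ≠ 0 := slitPlane_ne_zero h
  rw [Complex.cpow_def_of_ne_zero hv, Complex.exp_re]
  have h1 : (Complex.log v * (1 / 2)).im = Complex.arg v / 2 := by
    have : (1 / 2 : ℂ) = ((1 / 2 : ℝ) : ℂ) := by push_cast; ring
    rw [this, Complex.im_mul_ofReal, Complex.log_im]
    ring
  rw [h1]
  refine mul_pos (Real.exp_pos _) (Real.cos_pos_of_mem_Ioo ⟨?_, ?_⟩)
  · have := Complex.neg_pi_lt_arg v
    linarith
  · have h2 : Complex.arg v < Real.pi :=
      lt_of_le_of_ne (Complex.arg_le_pi v) (Complex.mem_slitPlane_iff_arg.1 h).1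
    linarith

theorem half_im {v : ℂ} (h : v ∈ slitPlane) :
    v.im = 2 * (v ^ (1 / 2 : ℂ)).re * (v ^ (1 / 2 : ℂ)).im := by
  conv_lhs => rw [← half_sq v]
  rw [sq, Complex.mul_im]
  ring

theorem rt_I_re {w : ℂ} (h : -w ∈ slitPlane) (hi : 0 < w.im) : 0 < (rt I w).re := by
  have h1 : w / I ^ 2 = -w := by rw [I_sq]; ring
  unfold rt
  rw [h1]
  have h2 := half_im h
  have h3 := half_re h
  have h4 : (I * (-w) ^ (1 / 2 : ℂ)).re = -((-w) ^ (1 / 2 : ℂ)).im := by simp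
  rw [h4]
  rw [Complex.neg_im] at h2
  nlinarith

theorem rt_negI_re {w : ℂ} (h : -w ∈ slitPlane) (hi : w.im < 0) : 0 < (rt (-I) w).re := by
  have h1 : w / (-I) ^ 2 = -w := by rw [neg_sq, I_sq]; ring
  unfold rt
  rw [h1]
  have h2 := half_im h
  have h3 := half_re h
  have h4 : (-I * (-w) ^ (1 / 2 : ℂ)).re = ((-w) ^ (1 / 2 : ℂ)).im := by simp
  rw [h4]
  rw [Complex.neg_im] at h2
  nlinarith

theorem half_real {τ : ℝ} (hτ : 0 < τ) : ((τ ^ 2 : ℝ) : ℂ) ^ (1 / 2 : ℂ) = τ := by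
  have h1 : (1 / 2 : ℂ) = ((1 / 2 : ℝ) : ℂ) := by push_cast; ring
  rw [h1, ← Complex.ofReal_cpow (by positivity), ← Real.sqrt_eq_rpow, Real.sqrt_sq hτ.le]

theorem rt_I_real {τ : ℝ} (hτ : 0 < τ) : rt I (((-τ ^ 2 : ℝ)) : ℂ) = I * τ := by
  unfold rt
  have h1 : (((-τ ^ 2 : ℝ)) : ℂ) / I ^ 2 = ((τ ^ 2 : ℝ) : ℂ) := by rw [I_sq]; push_cast; ring
  rw [h1, half_real hτ]

theorem rt_negI_real {τ : ℝ} (hτ : 0 < τ) : rt (-I) (((-τ ^ 2 : ℝ)) : ℂ) = -I * τ := by
  unfold rt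
  have h1 : (((-τ ^ 2 : ℝ)) : ℂ) / (-I) ^ 2 = ((τ ^ 2 : ℝ) : ℂ) := by
    rw [neg_sq, I_sq]; push_cast; ring
  rw [h1, half_real hτ]

end root

end Pool.Agent.U37.LC
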