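import Mathlib
import Pool.Agent.U37.LC.Fib
import Pool.Agent.U37.LC.App

/-!
Project LC: the fibre operator as an analytic function, identification of its boundary values.
-/

set_option autoImplicit false

open MeasureTheory Filter Topology Complex
open scoped ComplexConjugate InnerProductSpace BoundedContinuousFunction

namespace Pool.Agent.U37.LC

variable {L : ℝ} {X Y : ℝ → ℝ}

/-- the kernel property of `K` -/
def IsK (L : ℝ) (K : (ℝ × ℝ →ᵇ ℂ) →L[ℂ] (XX L →L[ℂ] XX L)) : Prop :=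
  (∀ k a b, ⟪a, K k b⟫_ℂ = ∫ s in Set.Ioc (0 : ℝ) L, conj (a s) *
    ∫ t in Set.Ioc (0 : ℝ) L, k (s, t) * b t) ∧ ∀ k, Approx (K k)

theorem ee_mul_conj (m : ℤ) (η s t : ℝ) : ee X Y m η s * conj (ee X Y m η t) =
    cexp (2 * Real.pi * I * (m * (X s - X t))) * cexp (2 * Real.pi * I * (η * ((Y s - Y t : ℝ)))) := by
  unfold ee
  rw [← Complex.exp_conj, ← Complex.exp_add, ← Complex.exp_add]
  congr 1
  simp only [map_mul, map_add, Complex.conj_I, Complex.conj_ofReal, map_ofNat]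
  push_cast
  ring

/-- one mode is an integral operator -/
theorem single (hKer : JobKer) (hFT : JobFT) (hC : Coord L X Y) {D : XX L →L[ℂ] Lp ℂ 2 nu}
    (hD : IsD L X Y D) {K : (ℝ × ℝ →ᵇ ℂ) →L[ℂ] (XX L →L[ℂ] XX L)} (hK : IsK L K) {θ : ℝ} {m : ℤ}
    {z κ β : ℂ} (hu : IsUnit (sB θ {m} z κ)) (hβ : β ^ 2 = (θ : ℂ) ^ 2 * (κ + m) ^ 2 - z)
    (hre : 0 < β.re) : NN D (psB θ {m} z κ) = K (kkB hC m β) := by
  have hden : ∀ η : ℝ, β ^ 2 + 4 * Real.pi ^ 2 * η ^ 2 = den θ z κ (m, η) := by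
    intro η
    rw [hβ, den]
    ring
  have hne : ∀ η : ℝ, (β ^ 2 + 4 * Real.pi ^ 2 * η ^ 2 : ℂ) ≠ 0 := by
    intro η
    rw [hden η]
    exact den_ne hu (by simp)
  have hcont : ∀ y : ℝ, Continuous fun η : ℝ =>
      cexp (2 * Real.pi * I * (η * y)) / (β ^ 2 + 4 * Real.pi ^ 2 * η ^ 2) := by
    intro y
    exact Continuous.div (by fun_prop) (by fun_prop) hne
  have hval : ∀ q : ℤ × ℝ, ((rho q.1 q.2 ^ (-(3 / 4) : ℝ) : ℝ) : ℂ) * psB θ {m} z κ q =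
      if q.1 = m then 1 / (β ^ 2 + 4 * Real.pi ^ 2 * q.2 ^ 2) else 0 := by
    intro q
    have hr := rho_pos q.1 q.2
    by_cases hq : q.1 = m
    · rw [if_pos hq, psB_mem hu (by simpa using hq), hden]
      have h1 : q = (m, q.2) := by rw [← hq]
      rw [← h1, mul_div_assoc', ← Complex.ofReal_mul, ← Real.rpow_add hr]
      norm_num
    · rw [if_neg hq, psB_not (by simpa using hq), mul_zero]
  have hint0 := int_single m (fun η : ℝ => 1 / (β ^ 2 + 4 * Real.pi ^ 2 * η ^ 2))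
    (Continuous.div (by fun_prop) (by fun_prop) hne) (by
      have := (hFT β 0 hre).1
      simpa using this)
  ext1 b
  refine ext_inner_left ℂ fun a => ?_
  rw [NN_inner, hK.1]
  refine hKer L X Y hC D hD (psB θ {m} z κ) ?_ (kkB hC m β) ?_ a b
  · refine hint0.1.congr (Eventually.of_forall fun q => ?_)
    simp only
    rw [hval q]
  · intro s _ t _
    rw [kkB_apply]
    have h1 := int_single m (fun η : ℝ => cexp (2 * Real.pi * I * (η * ((Y s - Y t : ℝ) : ℂ))) /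
      (β ^ 2 + 4 * Real.pi ^ 2 * η ^ 2)) (hcont _) (hFT β (Y s - Y t) hre).1
    have h2 := (hFT β (Y s - Y t) hre).2
    rw [← h2, ← h1.2, ← integral_const_mul]
    refine integral_congr_ae (Eventually.of_forall fun q => ?_)
    simp only
    rw [hval q]
    by_cases hq : q.1 = m
    · rw [if_pos hq, if_pos hq, hq, ee_mul_conj]
      ring
    · rw [if_neg hq, if_neg hq]
      ring

theorem sB_unit_mono (hDen : JobDen) {θ : ℝ} (hθ : 0 < θ) {z κ : ℂ} {A B : Set ℤ} (hAB : A ⊆ B)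
    (hu : IsUnit (sB θ B z κ)) : IsUnit (sB θ A z κ) :=
  sB_isUnit hDen hθ fun _ hq => den_ne hu (hAB hq)

theorem psB_split (hDen : JobDen) {θ : ℝ} (hθ : 0 < θ) {z κ : ℂ}
    (hu : IsUnit (sB θ Set.univ z κ)) (F : Finset ℤ) :
    psB θ Set.univ z κ = ∑ m ∈ F, psB θ {m} z κ + psB θ ((F : Set ℤ)ᶜ) z κ := by
  ext q
  rw [BoundedContinuousFunction.add_apply, BoundedContinuousFunction.sum_apply,
    psB_mem hu (Set.mem_univ _)]
  by_cases hq : q.1 ∈ F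
  · have h1 : q.1 ∉ ((F : Set ℤ)ᶜ) := fun h => h (by simpa using hq)
    rw [psB_not h1, add_zero, Finset.sum_eq_single_of_mem q.1 hq]
    · rw [psB_mem (sB_unit_mono hDen hθ (Set.subset_univ _) hu) (Set.mem_singleton _)]
    · intro m _ hm
      exact psB_not (by simpa using hm.symm)
  · have h1 : q.1 ∈ ((F : Set ℤ)ᶜ) := by simpa using hq
    rw [psB_mem (sB_unit_mono hDen hθ (Set.subset_univ _) hu) h1, Finset.sum_eq_zero, zero_add]
    intro m hm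
    refine psB_not ?_
    rw [Set.mem_singleton_iff]
    rintro rfl
    exact hq hm

/-- the fibre operator of the modes in `A` -/
noncomputable def TA (D : XX L →L[ℂ] Lp ℂ 2 nu) (θ : ℝ) (A : Set ℤ) (p : ℂ × ℂ) :
    XX L →L[ℂ] XX L := NN D (psB θ A p.1 p.2)

/-- `w_m = θ²(κ+m)² - z` -/
noncomputable def ww (θ : ℝ) (m : ℤ) (p : ℂ × ℂ) : ℂ := (θ : ℂ) ^ 2 * (p.2 + m) ^ 2 - p.1

/-- the continuation of the fibre operator with the branches `c` for the modes in `F` -/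
noncomputable def TC (hC : Coord L X Y) (D : XX L →L[ℂ] Lp ℂ 2 nu)
    (K : (ℝ × ℝ →ᵇ ℂ) →L[ℂ] (XX L →L[ℂ] XX L)) (θ : ℝ) (F : Finset ℤ) (c : ℤ → ℂ) (p : ℂ × ℂ) :
    XX L →L[ℂ] XX L := ∑ m ∈ F, K (kkB hC m (rt (c m) (ww θ m p))) + TA D θ ((F : Set ℤ)ᶜ) p

theorem TC_eq (hKer : JobKer) (hFT : JobFT) (hDen : JobDen) (hC : Coord L X Y)
    {D : XX L →L[ℂ] Lp ℂ 2 nu} (hD : IsD L X Y D) {K : (ℝ × ℝ →ᵇ ℂ) →L[ℂ] (XX L →L[ℂ] XX L)}
    (hK : IsK L K) {θ : ℝ} (hθ : 0 < θ) {F : Finset ℤ} {c : ℤ → ℂ} {p : ℂ × ℂ}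
    (hc : ∀ m ∈ F, c m ≠ 0) (hu : IsUnit (sB θ Set.univ p.1 p.2))
    (hre : ∀ m ∈ F, 0 < (rt (c m) (ww θ m p)).re) : TC hC D K θ F c p = TA D θ Set.univ p := by
  unfold TC TA
  rw [psB_split hDen hθ hu F, map_add, map_sum]
  congr 1
  refine Finset.sum_congr rfl fun m hm => ?_
  exact (single hKer hFT hC hD hK (sB_unit_mono hDen hθ (Set.subset_univ _) hu)
    (rt_sq (hc m hm) _) (hre m hm)).symm

theorem ww_analytic (θ : ℝ) (m : ℤ) (p : ℂ × ℂ) : AnalyticAt ℂ (fun p => ww θ m p) p := by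
  unfold ww
  have h1 : AnalyticAt ℂ (fun p : ℂ × ℂ => p.1) p := analyticAt_fst
  have h2 : AnalyticAt ℂ (fun p : ℂ × ℂ => p.2) p := analyticAt_snd
  exact (analyticAt_const.mul ((h2.add analyticAt_const).pow 2)).sub h1

theorem TA_analytic (D : XX L →L[ℂ] Lp ℂ 2 nu) {θ : ℝ} {A : Set ℤ} {p : ℂ × ℂ}
    (hu : IsUnit (sB θ A p.1 p.2)) : AnalyticAt ℂ (fun p => TA D θ A p) p :=
  ((NN D).analyticAt _).comp_of_eq (psB_analytic hu) rfl

theorem TC_analytic (hC : Coord L X Y) (D : XX L →L[ℂ] Lp ℂ 2 nu)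
    (K : (ℝ × ℝ →ᵇ ℂ) →L[ℂ] (XX L →L[ℂ] XX L)) {θ : ℝ} {F : Finset ℤ} {c : ℤ → ℂ} {p : ℂ × ℂ}
    (hc : ∀ m ∈ F, c m ≠ 0) (hs : ∀ m ∈ F, ww θ m p / c m ^ 2 ∈ slitPlane)
    (hu : IsUnit (sB θ ((F : Set ℤ)ᶜ) p.1 p.2)) : AnalyticAt ℂ (fun p => TC hC D K θ F c p) p := by
  unfold TC
  refine AnalyticAt.add (Finset.analyticAt_fun_sum F fun m hm => ?_) (TA_analytic D hu)
  have hne : rt (c m) (ww θ m p) ≠ 0 := by
    intro h0
    have h1 := rt_sq (hc m hm) (ww θ m p)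
    rw [h0] at h1
    have h2 := slitPlane_ne_zero (hs m hm)
    apply h2
    rw [← h1]
    simp
  have h1 : AnalyticAt ℂ (fun p => rt (c m) (ww θ m p)) p :=
    (rt_analytic (hs m hm)).comp_of_eq (ww_analytic θ m p) rfl
  have h2 : AnalyticAt ℂ (fun p => kkB hC m (rt (c m) (ww θ m p))) p :=
    (kkB_analytic hC m hne).comp_of_eq h1 rfl
  exact (K.analyticAt _).comp_of_eq h2 rfl

theorem TA_approx (hApp : JobApproxN) (hC : Coord L X Y) {D : XX L →L[ℂ] Lp ℂ 2 nu}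
    (hD : IsD L X Y D) (θ : ℝ) (A : Set ℤ) (p : ℂ × ℂ) : Approx (TA D θ A p) :=
  hApp L X Y hC D hD _ (psB_vanish θ A p.1 p.2)

theorem TC_approx (hApp : JobApproxN) (hC : Coord L X Y) {D : XX L →L[ℂ] Lp ℂ 2 nu}
    (hD : IsD L X Y D) {K : (ℝ × ℝ →ᵇ ℂ) →L[ℂ] (XX L →L[ℂ] XX L)} (hK : IsK L K) (θ : ℝ)
    (F : Finset ℤ) (c : ℤ → ℂ) (p : ℂ × ℂ) : Approx (TC hC D K θ F c p) :=
  (Approx.sum _ _ fun _ _ => hK.2 _).add (TA_approx hApp hC hD θ _ p)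

end Pool.Agent.U37.LC
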