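import Mathlib
import Pool.Agent.U37.LC.Loc

/-!
Project LC: local analysis of the fibre operator near a real point which is not a threshold.
-/

set_option autoImplicit false
set_option linter.deprecated false

open MeasureTheory Filter Topology Complex
open scoped ComplexConjugate InnerProductSpace BoundedContinuousFunction

namespace Pool.Agent.U37.LC

variable {L : ℝ} {X Y : ℝ → ℝ}

/-- the branches for the outgoing boundary values -/
noncomputable def cOut (_ : ℤ) : ℂ := -I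

/-- the branches for the boundary values from the upper half plane of the quasi momentum -/
noncomputable def cIn (m : ℤ) : ℂ := if 0 ≤ m then I else -I

theorem cOut_sq (m : ℤ) : cOut m ^ 2 = -1 := by simp [cOut]

theorem cIn_sq (m : ℤ) : cIn m ^ 2 = -1 := by unfold cIn; split_ifs <;> simp

theorem cOut_ne (m : ℤ) : cOut m ≠ 0 := by
  intro h; have := cOut_sq m; rw [h] at this; norm_num at this

theorem cIn_ne (m : ℤ) : cIn m ≠ 0 := by
  intro h; have := cIn_sq m; rw [h] at this; norm_num at this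

/-- the local conditions: `F` is the set of the open channels -/
def Cond (θ : ℝ) (F : Finset ℤ) (p : ℂ × ℂ) : Prop :=
  (∀ m ∈ F, -ww θ m p ∈ slitPlane) ∧ IsUnit (sB θ ((F : Set ℤ)ᶜ) p.1 p.2) ∧ 0 < p.2.re ∧ p.2.re < 1

theorem open_channels (θ : ℝ) (hθ : 0 < θ) (l₀ k₀ : ℝ) (h0 : 0 < k₀) (h1 : k₀ < 1) :
    {n : ℤ | θ ^ 2 * (k₀ + n) ^ 2 < l₀}.Finite := by
  set a : ℝ := |l₀| / θ ^ 2 with ha
  have ha0 : 0 ≤ a := by positivity
  refine (Set.finite_Icc (-⌈a + 2⌉) ⌈a + 2⌉).subset fun n hn => ?_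
  have hn' : θ ^ 2 * (k₀ + n) ^ 2 < l₀ := hn
  have h2 : (k₀ + n) ^ 2 < a := by
    rw [ha, lt_div_iff₀ (by positivity)]
    have := le_abs_self l₀
    linarith
  have h3 : |k₀ + n| < a + 1 := by
    by_contra hcon
    push Not at hcon
    have h4 : (a + 1) ^ 2 ≤ |k₀ + n| ^ 2 := pow_le_pow_left₀ (by positivity) hcon 2
    rw [sq_abs] at h4
    nlinarith
  have h5 := abs_lt.1 h3
  have h6 := Int.le_ceil (a + 2)
  constructor
  · have : (-⌈a + 2⌉ : ℝ) ≤ (n : ℝ) := by linarith [h5.1]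
    exact_mod_cast this
  · have : (n : ℝ) ≤ (⌈a + 2⌉ : ℝ) := by linarith [h5.2]
    exact_mod_cast this

theorem eventually_cond (hDen : JobDen) {θ : ℝ} (hθ : 0 < θ) (l₀ k₀ : ℝ) (h0 : 0 < k₀)
    (h1 : k₀ < 1) (hne : ∀ n : ℤ, θ ^ 2 * (k₀ + n) ^ 2 ≠ l₀) {F : Finset ℤ}
    (hF : ∀ n : ℤ, n ∈ F ↔ θ ^ 2 * (k₀ + n) ^ 2 < l₀) :
    ∀ᶠ p : ℂ × ℂ in 𝓝 ((l₀ : ℂ), (k₀ : ℂ)), Cond θ F p := by
  refine Filter.Eventually.and ?_ (Filter.Eventually.and ?_ (Filter.Eventually.and ?_ ?_))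
  · rw [Filter.eventually_all_finset]
    intro m hm
    have hc : ContinuousAt (fun p : ℂ × ℂ => -ww θ m p) ((l₀ : ℂ), (k₀ : ℂ)) :=
      (ww_analytic θ m _).continuousAt.neg
    refine hc.eventually_mem (isOpen_slitPlane.mem_nhds ?_)
    have h2 := (hF m).1 hm
    have h3 : -ww θ m ((l₀ : ℂ), (k₀ : ℂ)) = ((l₀ - θ ^ 2 * (k₀ + m) ^ 2 : ℝ) : ℂ) := by
      unfold ww
      push_cast
      ring
    rw [h3]
    left
    rw [Complex.ofReal_re]
    linarith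
  · have hc : ContinuousAt (fun p : ℂ × ℂ => sB θ ((F : Set ℤ)ᶜ) p.1 p.2) ((l₀ : ℂ), (k₀ : ℂ)) :=
      (sB_analytic θ _ _).continuousAt
    refine hc.eventually_mem (Units.isOpen.mem_nhds ?_)
    refine sB_isUnit hDen hθ fun q hq => ?_
    have h2 : θ ^ 2 * (k₀ + q.1) ^ 2 > l₀ := by
      have h3 : ¬ (θ ^ 2 * (k₀ + q.1) ^ 2 < l₀) := by
        rw [← hF]
        simpa using hq
      exact lt_of_le_of_ne (not_lt.1 h3) (Ne.symm (hne q.1))
    have h3 : den θ (l₀ : ℂ) (k₀ : ℂ) q =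
        ((θ ^ 2 * (k₀ + q.1) ^ 2 + 4 * Real.pi ^ 2 * q.2 ^ 2 - l₀ : ℝ) : ℂ) := by
      unfold den
      push_cast
      ring
    rw [h3]
    have h4 : 0 ≤ 4 * Real.pi ^ 2 * q.2 ^ 2 := by positivity
    have h5 : θ ^ 2 * (k₀ + q.1) ^ 2 + 4 * Real.pi ^ 2 * q.2 ^ 2 - l₀ ≠ 0 := by linarith
    exact_mod_cast h5
  · have hc : ContinuousAt (fun p : ℂ × ℂ => p.2.re) ((l₀ : ℂ), (k₀ : ℂ)) := by fun_prop
    exact hc.eventually_mem (isOpen_Ioi.mem_nhds (by simpa using h0))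
  · have hc : ContinuousAt (fun p : ℂ × ℂ => p.2.re) ((l₀ : ℂ), (k₀ : ℂ)) := by fun_prop
    exact hc.eventually_mem (isOpen_Iio.mem_nhds (by simpa using h1))

theorem unit_of_im_z (hDen : JobDen) {θ : ℝ} (hθ : 0 < θ) {z : ℂ} (hz : z.im ≠ 0) (k : ℝ)
    (A : Set ℤ) : IsUnit (sB θ A z (k : ℂ)) := by
  refine sB_isUnit hDen hθ fun q _ h0 => ?_
  have h1 := congrArg Complex.im h0
  have h2 : den θ z (k : ℂ) q =
      ((θ ^ 2 * (k + q.1) ^ 2 + 4 * Real.pi ^ 2 * q.2 ^ 2 : ℝ) : ℂ) - z := by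
    unfold den
    push_cast
    ring
  rw [h2, Complex.sub_im, Complex.ofReal_im] at h1
  simp at h1
  exact hz h1

theorem ww_im (θ l : ℝ) (m : ℤ) (k : ℂ) :
    (ww θ m ((l : ℂ), k)).im = 2 * θ ^ 2 * (k.re + m) * k.im := by
  have h1 : ww θ m ((l : ℂ), k) = ((θ ^ 2 : ℝ) : ℂ) * (k + m) ^ 2 - (l : ℂ) := by
    unfold ww; push_cast; ring
  rw [h1, Complex.sub_im, Complex.ofReal_im, Complex.im_ofReal_mul, sq (k + m), Complex.mul_im,
    Complex.add_re, Complex.add_im, Complex.intCast_re, Complex.intCast_im]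
  ring

theorem unit_of_strip (hDen : JobDen) {θ : ℝ} (hθ : 0 < θ) (l : ℝ) {k : ℂ} (h0 : 0 < k.re)
    (h1 : k.re < 1) (h2 : 0 < k.im) (A : Set ℤ) : IsUnit (sB θ A (l : ℂ) k) := by
  refine sB_isUnit hDen hθ fun q _ hz => ?_
  have h3 := congrArg Complex.im hz
  have h4 : den θ (l : ℂ) k q = ww θ q.1 ((l : ℂ), k) + ((4 * Real.pi ^ 2 * q.2 ^ 2 : ℝ) : ℂ) := by
    unfold den ww
    push_cast
    ring
  rw [h4, Complex.add_im, ww_im, Complex.ofReal_im, add_zero, Complex.zero_im] at h3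
  have h5 : k.re + (q.1 : ℝ) ≠ 0 := by
    rcases le_or_gt 0 q.1 with h | h
    · have : (0 : ℝ) ≤ q.1 := by exact_mod_cast h
      linarith
    · have : (q.1 : ℝ) ≤ -1 := by exact_mod_cast (by omega : q.1 ≤ -1)
      linarith
  have h6 : 2 * θ ^ 2 * (k.re + (q.1 : ℝ)) * k.im ≠ 0 := by
    have : θ ≠ 0 := hθ.ne'
    positivity
  exact h6 h3

theorem out_re {θ : ℝ} {F : Finset ℤ} {p : ℂ × ℂ} (hp : Cond θ F p) (h1 : 0 < p.1.im)
    (h2 : p.2.im = 0) (m : ℤ) (hm : m ∈ F) : 0 < (rt (cOut m) (ww θ m p)).re := by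
  refine rt_negI_re (hp.1 m hm) ?_
  have h3 : ww θ m p = ((θ ^ 2 * (p.2.re + m) ^ 2 : ℝ) : ℂ) - p.1 := by
    have : p.2 = (p.2.re : ℂ) := by
      apply Complex.ext <;> simp [h2]
    unfold ww
    rw [this]
    push_cast
    simp
  rw [h3, Complex.sub_im, Complex.ofReal_im]
  linarith

theorem in_re {θ : ℝ} (hθ : 0 < θ) {F : Finset ℤ} {l : ℝ} {k : ℂ} (hp : Cond θ F ((l : ℂ), k))
    (h1 : 0 < k.im) (m : ℤ) (hm : m ∈ F) : 0 < (rt (cIn m) (ww θ m ((l : ℂ), k))).re := by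
  have h2 : 0 < k.re := hp.2.2.1
  have h3 : k.re < 1 := hp.2.2.2
  unfold cIn
  split_ifs with h
  · refine rt_I_re (hp.1 m hm) ?_
    rw [ww_im]
    have : (0 : ℝ) ≤ m := by exact_mod_cast h
    positivity
  · refine rt_negI_re (hp.1 m hm) ?_
    rw [ww_im]
    have h4 : (m : ℝ) ≤ -1 := by exact_mod_cast (by omega : m ≤ -1)
    have h5 : k.re + m < 0 := by linarith
    have h6 : 0 < 2 * θ ^ 2 * k.im := by positivity
    nlinarith

section energy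

theorem inner_self_im0 (g : XX L) : (⟪g, g⟫_ℂ).im = 0 := inner_self_im (𝕜 := ℂ) g

theorem TA_real (D : XX L →L[ℂ] Lp ℂ 2 nu) {θ : ℝ} {A : Set ℤ} {l k : ℝ}
    (hu : IsUnit (sB θ A (l : ℂ) (k : ℂ))) (g : XX L) :
    (⟪g, TA D θ A ((l : ℂ), (k : ℂ)) g⟫_ℂ).im = 0 := by
  unfold TA
  rw [NN_inner]
  have h1 : ∀ q, conj (psB θ A (l : ℂ) (k : ℂ) q) = psB θ A (l : ℂ) (k : ℂ) q := by
    intro q
    by_cases hq : q.1 ∈ A
    · rw [psB_mem hu hq]
      have h3 : den θ (l : ℂ) (k : ℂ) q =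
          ((θ ^ 2 * (k + q.1) ^ 2 + 4 * Real.pi ^ 2 * q.2 ^ 2 - l : ℝ) : ℂ) := by
        unfold den
        push_cast
        ring
      rw [h3, ← Complex.ofReal_div, Complex.conj_ofReal]
    · rw [psB_not hq, map_zero]
  have h2 := mulB_symm nu _ h1 (D g) (D g)
  have h3 : conj (⟪D g, mulB nu (psB θ A (l : ℂ) (k : ℂ)) (D g)⟫_ℂ) =
      ⟪D g, mulB nu (psB θ A (l : ℂ) (k : ℂ)) (D g)⟫_ℂ := by
    rw [inner_conj_symm, h2]
  exact Complex.conj_eq_iff_im.1 h3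

/-- If the continuation from the upper half plane is invertible, so is the outgoing one. -/
theorem energy (hE : JobEnergy) (hC : Coord L X Y) {D : XX L →L[ℂ] Lp ℂ 2 nu}
    {K : (ℝ × ℝ →ᵇ ℂ) →L[ℂ] (XX L →L[ℂ] XX L)} (hK : IsK L K) (hApp : JobApproxN)
    (hD : IsD L X Y D) {θ : ℝ} {F : Finset ℤ} {l k α : ℝ} (hα : 0 < α)
    (hp : Cond θ F ((l : ℂ), (k : ℂ)))
    (hu : IsUnit (1 - (α : ℂ) • TC hC D K θ F cIn ((l : ℂ), (k : ℂ)))) :
    IsUnit (1 - (α : ℂ) • TC hC D K θ F cOut ((l : ℂ), (k : ℂ))) := by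
  by_contra hcon
  obtain ⟨g, hg0, hg⟩ := ((TC_approx hApp hC hD hK θ F cOut _).smul (α : ℂ)).alternative hcon
  rw [ContinuousLinearMap.smul_apply] at hg
  have hαc : (α : ℂ) ≠ 0 := by exact_mod_cast hα.ne'
  -- the channel data
  have hw : ∀ m ∈ F, ∃ τ : ℝ, 0 < τ ∧ ww θ m ((l : ℂ), (k : ℂ)) = ((-τ ^ 2 : ℝ) : ℂ) := by
    intro m hm
    have h1 := hp.1 m hm
    have h2 : ww θ m ((l : ℂ), (k : ℂ)) = ((θ ^ 2 * (k + m) ^ 2 - l : ℝ) : ℂ) := by
      unfold ww; push_cast; ring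
    rw [h2, ← Complex.ofReal_neg] at h1
    have h3 : 0 < -(θ ^ 2 * (k + m) ^ 2 - l) := by
      rcases h1 with h1 | h1
      · rwa [Complex.ofReal_re] at h1
      · exact absurd (Complex.ofReal_im _) h1
    refine ⟨Real.sqrt (-(θ ^ 2 * (k + m) ^ 2 - l)), Real.sqrt_pos.2 h3, ?_⟩
    rw [Real.sq_sqrt h3.le, neg_neg, h2]
  have hch : ∀ m ∈ F,
      0 ≤ (⟪g, K (kkB hC m (rt (cOut m) (ww θ m ((l : ℂ), (k : ℂ))))) g⟫_ℂ).im ∧
      ((⟪g, K (kkB hC m (rt (cOut m) (ww θ m ((l : ℂ), (k : ℂ))))) g⟫_ℂ).im = 0 →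
        K (kkB hC m (rt (cOut m) (ww θ m ((l : ℂ), (k : ℂ))))) g =
        K (kkB hC m (rt (cIn m) (ww θ m ((l : ℂ), (k : ℂ))))) g) := by
    intro m hm
    obtain ⟨τ, hτ, hwm⟩ := hw m hm
    have hcO : rt (cOut m) (ww θ m ((l : ℂ), (k : ℂ))) = -I * τ := by
      rw [hwm]; exact rt_negI_real hτ
    have hA : ∀ a b : XX L, ⟪a, K (kkB hC m (-I * τ)) b⟫_ℂ =
        ∫ s in Set.Ioc (0 : ℝ) L, conj (a s) * ∫ t in Set.Ioc (0 : ℝ) L,
        cexp (2 * Real.pi * I * (m * (X s - X t))) *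
          (cexp (-(-I * τ) * (|Y s - Y t| : ℝ)) / (2 * (-I * τ))) * b t := by
      intro a b
      rw [hK.1]
      simp_rw [kkB_apply]
    have hB : ∀ a b : XX L, ⟪a, K (kkB hC m (I * τ)) b⟫_ℂ =
        ∫ s in Set.Ioc (0 : ℝ) L, conj (a s) * ∫ t in Set.Ioc (0 : ℝ) L,
        cexp (2 * Real.pi * I * (m * (X s - X t))) *
          (cexp (-(I * τ) * (|Y s - Y t| : ℝ)) / (2 * (I * τ))) * b t := by
      intro a b
      rw [hK.1]
      simp_rw [kkB_apply]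
    have hEn := hE L X Y hC.pos hC.contX hC.contY m τ hτ _ _ hA hB g
    rw [hcO]
    refine ⟨hEn.1, fun h0 => ?_⟩
    by_cases hm0 : 0 ≤ m
    · have hcI : rt (cIn m) (ww θ m ((l : ℂ), (k : ℂ))) = I * τ := by
        rw [hwm, cIn, if_pos hm0]; exact rt_I_real hτ
      rw [hcI]
      exact hEn.2 h0
    · have hcI : rt (cIn m) (ww θ m ((l : ℂ), (k : ℂ))) = -I * τ := by
        rw [hwm, cIn, if_neg hm0]; exact rt_negI_real hτ
      rw [hcI]
  -- the imaginary part vanishes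
  have him : (⟪g, TC hC D K θ F cOut ((l : ℂ), (k : ℂ)) g⟫_ℂ).im = 0 := by
    have h1 : TC hC D K θ F cOut ((l : ℂ), (k : ℂ)) g = ((α⁻¹ : ℝ) : ℂ) • g := by
      conv_rhs => rw [← hg]
      rw [smul_smul, Complex.ofReal_inv, inv_mul_cancel₀ hαc, one_smul]
    rw [h1, inner_smul_right, Complex.im_ofReal_mul, inner_self_im0, mul_zero]
  have hsum : (⟪g, TC hC D K θ F cOut ((l : ℂ), (k : ℂ)) g⟫_ℂ).im =
      ∑ m ∈ F, (⟪g, K (kkB hC m (rt (cOut m) (ww θ m ((l : ℂ), (k : ℂ))))) g⟫_ℂ).im := by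
    unfold TC
    rw [ContinuousLinearMap.add_apply, ContinuousLinearMap.sum_apply, inner_add_right, inner_sum,
      Complex.add_im, Complex.im_sum, TA_real D hp.2.1, add_zero]
  rw [hsum] at him
  have hzero := (Finset.sum_eq_zero_iff_of_nonneg fun m hm => (hch m hm).1).1 him
  have hEq : TC hC D K θ F cIn ((l : ℂ), (k : ℂ)) g = TC hC D K θ F cOut ((l : ℂ), (k : ℂ)) g := by
    unfold TC
    rw [ContinuousLinearMap.add_apply, ContinuousLinearMap.sum_apply,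
      ContinuousLinearMap.add_apply, ContinuousLinearMap.sum_apply]
    congr 1
    exact Finset.sum_congr rfl fun m hm => ((hch m hm).2 (hzero m hm)).symm
  apply hg0
  have h2 : (1 - (α : ℂ) • TC hC D K θ F cIn ((l : ℂ), (k : ℂ))) g = 0 := by
    rw [ContinuousLinearMap.sub_apply, ContinuousLinearMap.one_apply,
      ContinuousLinearMap.smul_apply, hEq, hg, sub_self]
  have h3 := congrArg (fun v => (Ring.inverse (1 - (α : ℂ) • TC hC D K θ F cIn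
    ((l : ℂ), (k : ℂ))) : XX L →L[ℂ] XX L) v) h2
  simp only [map_zero] at h3
  have h4 := Ring.inverse_mul_cancel _ hu
  have h5 := congrArg (fun T : XX L →L[ℂ] XX L => T g) h4
  exact h5.symm.trans h3

end energy

end Pool.Agent.U37.LC
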