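import Mathlib
import Pool.Agent.U37.LC.Bad

/-!
Project LC: almost every fibre is regular at almost every energy of a null set.
-/

set_option autoImplicit false
set_option linter.deprecated false

open MeasureTheory Filter Topology Complex
open scoped ComplexConjugate InnerProductSpace BoundedContinuousFunction ENNReal

namespace Pool.Agent.U37.LC

variable {L : ℝ} {X Y : ℝ → ℝ}

/-- the lemmas used -/
structure Jobs : Prop where
  ker : JobKer
  ft : JobFT
  den : JobDen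
  app : JobApproxN
  hs : JobHS
  decay : JobDecay
  conn : JobConnected
  proj : JobNullProj
  energy : JobEnergy
  sect : JobSection

/-- high up in the strip the fibre operator is small -/
theorem high (J : Jobs) (hC : Coord L X Y) {D : XX L →L[ℂ] Lp ℂ 2 nu} (hD : IsD L X Y D) {θ : ℝ}
    (hθ : 0 < θ) (l α : ℝ) : ∃ τ : ℝ, 0 < τ ∧
    IsUnit (1 - (α : ℂ) • TA D θ Set.univ ((l : ℂ), (1 / 2 : ℂ) + I * τ)) := by
  obtain ⟨C, hC0, hHS⟩ := J.hs L X Y hC D hD
  set r : ℝ := 1 / (2 * (|α| + 1) * C) with hr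
  have hrp : 0 < r := by positivity
  have hlim := J.decay θ l hθ
  have hev : ∀ᶠ τ : ℝ in atTop, (∑' n : ℤ, ∫⁻ η : ℝ, ENNReal.ofReal (rho n η ^ (3 / 4 : ℝ) /
    ‖(θ : ℂ) ^ 2 * ((1 / 2 : ℂ) + I * τ + n) ^ 2 + 4 * Real.pi ^ 2 * η ^ 2 - l‖ ^ 2)) <
      ENNReal.ofReal (r ^ 2) :=
    hlim.eventually_lt_const (ENNReal.ofReal_pos.2 (by positivity))
  obtain ⟨τ, hτ, hτ0⟩ := (hev.and (eventually_gt_atTop (0 : ℝ))).exists
  refine ⟨τ, hτ0, ?_⟩
  have hre : ((1 / 2 : ℂ) + I * τ).re = 1 / 2 := by simp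
  have him : ((1 / 2 : ℂ) + I * τ).im = τ := by simp
  have hu : IsUnit (sB θ Set.univ (l : ℂ) ((1 / 2 : ℂ) + I * τ)) :=
    unit_of_strip J.den hθ l (by rw [hre]; norm_num) (by rw [hre]; norm_num) (by rw [him]; exact hτ0) _
  have hval : ∀ q : ℤ × ℝ, rho q.1 q.2 ^ (-(3 / 4) : ℝ) *
      ‖psB θ Set.univ (l : ℂ) ((1 / 2 : ℂ) + I * τ) q‖ ^ 2 = rho q.1 q.2 ^ (3 / 4 : ℝ) /
      ‖(θ : ℂ) ^ 2 * ((1 / 2 : ℂ) + I * τ + q.1) ^ 2 + 4 * Real.pi ^ 2 * q.2 ^ 2 - l‖ ^ 2 := by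
    intro q
    have hp := rho_pos q.1 q.2
    rw [psB_mem hu (Set.mem_univ _), norm_div, Complex.norm_real, Real.norm_eq_abs,
      abs_of_pos (Real.rpow_pos_of_pos hp _), div_pow, den, mul_div_assoc']
    congr 1
    rw [← Real.rpow_natCast, ← Real.rpow_mul hp.le, ← Real.rpow_add hp]
    norm_num
  have hint : ∫⁻ q : ℤ × ℝ, ENNReal.ofReal (rho q.1 q.2 ^ (-(3 / 4) : ℝ) *
      ‖psB θ Set.univ (l : ℂ) ((1 / 2 : ℂ) + I * τ) q‖ ^ 2) ∂nu ≤ ENNReal.ofReal (r ^ 2) := by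
    have hmeas : Measurable fun q : ℤ × ℝ => ENNReal.ofReal (rho q.1 q.2 ^ (-(3 / 4) : ℝ) *
      ‖psB θ Set.univ (l : ℂ) ((1 / 2 : ℂ) + I * τ) q‖ ^ 2) := by
      refine Continuous.measurable (ENNReal.continuous_ofReal.comp ?_)
      refine Continuous.mul (continuous_rho.rpow_const fun q => Or.inl (rho_pos _ _).ne') ?_
      exact ((psB θ Set.univ (l : ℂ) ((1 / 2 : ℂ) + I * τ)).continuous.norm).pow 2
    unfold nu
    rw [lintegral_prod _ hmeas.aemeasurable, lintegral_count]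
    refine le_trans (le_of_eq (tsum_congr fun n => lintegral_congr fun η => ?_)) hτ.le
    rw [hval (n, η)]
  have hn := hHS _ r hrp.le hint
  have hT : ‖(α : ℂ) • TA D θ Set.univ ((l : ℂ), (1 / 2 : ℂ) + I * τ)‖ < 1 := by
    rw [norm_smul, Complex.norm_real, Real.norm_eq_abs]
    have h1 : ‖TA D θ Set.univ ((l : ℂ), (1 / 2 : ℂ) + I * τ)‖ ≤ C * r := hn
    calc |α| * ‖TA D θ Set.univ ((l : ℂ), (1 / 2 : ℂ) + I * τ)‖ ≤ |α| * (C * r) :=
          mul_le_mul_of_nonneg_left h1 (abs_nonneg _)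
      _ = |α| / (2 * (|α| + 1)) := by rw [hr]; field_simp
      _ < 1 := by
          rw [div_lt_one (by positivity)]
          linarith [abs_nonneg α]
  exact isUnit_one_sub_of_norm_lt_one hT

theorem an_smul {V : Type*} [NormedAddCommGroup V] [NormedSpace ℂ V] {f : ℂ → V} {k : ℂ} (c : ℂ)
    (hf : AnalyticAt ℂ f k) : AnalyticAt ℂ (fun k => c • f k) k :=
  AnalyticAt.smul (f := fun _ : ℂ => c) analyticAt_const hf

/-- the strip -/
def strip : Set ℂ := {k | 0 < k.re ∧ k.re < 1 ∧ 0 < k.im}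

theorem strip_open : IsOpen strip :=
  ((isOpen_lt continuous_const Complex.continuous_re).inter
    ((isOpen_lt Complex.continuous_re continuous_const).inter
      (isOpen_lt continuous_const Complex.continuous_im)))

theorem strip_convex : Convex ℝ strip := by
  have h1 : Convex ℝ {k : ℂ | 0 < k.re} := convex_halfSpace_re_gt 0
  have h2 : Convex ℝ {k : ℂ | k.re < 1} := convex_halfSpace_re_lt 1
  have h3 : Convex ℝ {k : ℂ | 0 < k.im} := convex_halfSpace_im_gt 0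
  exact h1.inter (h2.inter h3)

/-- generic invertibility on the real axis -/
theorem generic (J : Jobs) (hC : Coord L X Y) {D : XX L →L[ℂ] Lp ℂ 2 nu} (hD : IsD L X Y D)
    {K : (ℝ × ℝ →ᵇ ℂ) →L[ℂ] (XX L →L[ℂ] XX L)} (hK : IsK L K) {θ : ℝ} (hθ : 0 < θ) (α : ℝ)
    {F : Finset ℤ} (l k₀ r : ℝ) (hr : 0 < r)
    (hcond : ∀ k : ℂ, k ∈ Metric.ball (k₀ : ℂ) r → Cond θ F ((l : ℂ), k)) :
    ∀ k : ℂ, k ∈ Metric.ball (k₀ : ℂ) r → ∀ᶠ k' in 𝓝[≠] k,
      IsUnit (1 - (α : ℂ) • TC hC D K θ F cIn ((l : ℂ), k')) := by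
  classical
  set T : ℂ → XX L →L[ℂ] XX L := fun k => if k ∈ Metric.ball (k₀ : ℂ) r then
    (α : ℂ) • TC hC D K θ F cIn ((l : ℂ), k) else (α : ℂ) • TA D θ Set.univ ((l : ℂ), k) with hT
  have hball : ∀ k ∈ Metric.ball (k₀ : ℂ) r, T k = (α : ℂ) • TC hC D K θ F cIn ((l : ℂ), k) := by
    intro k hk
    simp only [hT, if_pos hk]
  have hstrip : ∀ k ∈ strip, T k = (α : ℂ) • TA D θ Set.univ ((l : ℂ), k) := by
    intro k hk
    by_cases hkb : k ∈ Metric.ball (k₀ : ℂ) r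
    · rw [hball k hkb]
      congr 1
      exact TC_eq J.ker J.ft J.den hC hD hK hθ (fun m _ => cIn_ne m)
        (unit_of_strip J.den hθ l hk.1 hk.2.1 hk.2.2 _)
        (fun m hm => in_re hθ (hcond k hkb) hk.2.2 m hm)
    · simp only [hT, if_neg hkb]
  have hpair : ∀ k : ℂ, AnalyticAt ℂ (fun k : ℂ => ((l : ℂ), k)) k := fun k =>
    analyticAt_const.prod analyticAt_id
  have hopen : IsOpen (strip ∪ Metric.ball (k₀ : ℂ) r) := strip_open.union Metric.isOpen_ball
  have hpre : IsPreconnected (strip ∪ Metric.ball (k₀ : ℂ) r) := by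
    have h1 : (k₀ : ℂ) + (r / 2 : ℝ) * I ∈ Metric.ball (k₀ : ℂ) r := by
      rw [Metric.mem_ball, dist_eq_norm, add_sub_cancel_left, norm_mul, Complex.norm_I, mul_one,
        Complex.norm_real, Real.norm_eq_abs, abs_of_pos (by positivity)]
      linarith
    refine IsPreconnected.union ((k₀ : ℂ) + (r / 2 : ℝ) * I) ?_ h1 strip_convex.isPreconnected
      (convex_ball _ _).isPreconnected
    have h2 := hcond _ h1
    refine ⟨h2.2.2.1, h2.2.2.2, ?_⟩
    simp
    positivity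
  have han : ∀ k ∈ strip ∪ Metric.ball (k₀ : ℂ) r, AnalyticAt ℂ T k := by
    rintro k (hk | hk)
    · have h1 : AnalyticAt ℂ (fun k => (α : ℂ) • TA D θ Set.univ ((l : ℂ), k)) k := by
        refine an_smul _ ?_
        exact (TA_analytic D (p := ((l : ℂ), k)) (unit_of_strip J.den hθ l hk.1 hk.2.1 hk.2.2 _)
          ).comp_of_eq (hpair k) rfl
      refine h1.congr ?_
      filter_upwards [strip_open.mem_nhds hk] with k' hk'
      exact (hstrip k' hk').symm
    · have h2 := hcond k hk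
      have h1 : AnalyticAt ℂ (fun k => (α : ℂ) • TC hC D K θ F cIn ((l : ℂ), k)) k := by
        refine an_smul _ ?_
        refine (TC_analytic hC D K (p := ((l : ℂ), k)) (fun m _ => cIn_ne m) (fun m hm => ?_)
          h2.2.1).comp_of_eq (hpair k) rfl
        rw [cIn_sq, div_neg, div_one]
        exact h2.1 m hm
      refine h1.congr ?_
      filter_upwards [Metric.isOpen_ball.mem_nhds hk] with k' hk'
      exact (hball k' hk').symm
  have happ : ∀ k ∈ strip ∪ Metric.ball (k₀ : ℂ) r, Approx (T k) := by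
    intro k _
    simp only [hT]
    split_ifs
    · exact (TC_approx J.app hC hD hK θ F cIn _).smul _
    · exact (TA_approx J.app hC hD θ _ _).smul _
  obtain ⟨τ, hτ, hun⟩ := high J hC hD hθ l α
  have hmem : (1 / 2 : ℂ) + I * τ ∈ strip := by
    refine ⟨?_, ?_, ?_⟩
    · simp
    · simp; norm_num
    · simpa using hτ
  have hmain := J.conn (XX L) _ T hopen hpre han happ
    ⟨_, Or.inl hmem, by rw [hstrip _ hmem]; exact hun⟩
  intro k hk
  have h3 : ∀ᶠ k' in 𝓝[≠] k, k' ∈ Metric.ball (k₀ : ℂ) r :=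
    eventually_nhdsWithin_of_eventually_nhds (Metric.isOpen_ball.mem_nhds hk)
  filter_upwards [hmain k (Or.inr hk), h3] with k' h4 h5
  rw [← hball k' h5]
  exact h4

/-- local uniform bound for the inverse of an analytic family -/
theorem inv_bound {V : Type} [NormedAddCommGroup V] [NormedSpace ℂ V] [CompleteSpace V]
    {T : ℂ × ℂ → V →L[ℂ] V} {p₀ : ℂ × ℂ} (hT : ContinuousAt T p₀) (hu : IsUnit (1 - T p₀)) :
    ∃ C : ℝ, ∀ᶠ p in 𝓝 p₀, IsUnit (1 - T p) ∧ ‖Ring.inverse (1 - T p)‖ ≤ C := by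
  have h1 : ContinuousAt (fun p => 1 - T p) p₀ := continuousAt_const.sub hT
  have h2 : ContinuousAt (fun p => Ring.inverse (1 - T p)) p₀ :=
    ContinuousAt.comp_of_eq (NormedRing.inverse_continuousAt hu.unit) h1 rfl
  refine ⟨‖Ring.inverse (1 - T p₀)‖ + 1, Filter.Eventually.and ?_ ?_⟩
  · exact h1.eventually_mem (Units.isOpen.mem_nhds hu)
  · have h3 := h2.norm.eventually_lt_const (lt_add_one ‖Ring.inverse (1 - T p₀)‖)
    exact h3.mono fun p hp => hp.le

end Pool.Agent.U37.LC
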