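import Mathlib
import Pool.Agent.U37.LC.Reg

/-!
Project LC: the fibres of the sandwiched free resolvent; regularity of almost all fibres.
-/

set_option autoImplicit false
set_option linter.deprecated false

open MeasureTheory Filter Topology Complex
open scoped ComplexConjugate InnerProductSpace BoundedContinuousFunction ENNReal

namespace Pool.Agent.U37.LC

variable {L : ℝ} {X Y : ℝ → ℝ}

/-- clamp to `[0, L]` -/
def cl (L s : ℝ) : ℝ := max 0 (min s L)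

theorem cl_of {s : ℝ} (h : s ∈ Set.Ioc (0 : ℝ) L) : cl L s = s := by
  unfold cl
  rw [min_eq_left h.2, max_eq_right h.1.le]

theorem cl_mem (hL : 0 < L) (s : ℝ) : cl L s ∈ Set.Icc (0 : ℝ) L := by
  unfold cl
  exact ⟨le_max_left _ _, max_le hL.le (min_le_right _ _)⟩

theorem xbd (hC : Coord L X Y) : ∃ B : ℝ, ∀ s, ‖X (cl L s)‖ ≤ B := by
  obtain ⟨B, hB⟩ := (isCompact_Icc (a := (0 : ℝ)) (b := L)).exists_bound_of_continuousOn
    hC.contX.continuousOn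
  exact ⟨B, fun s => hB _ (cl_mem hC.pos s)⟩

noncomputable def xB (hC : Coord L X Y) : ℝ →ᵇ ℂ :=
  mkB (fun s => ((X (cl L s) : ℝ) : ℂ)) (by
    refine Complex.continuous_ofReal.comp (hC.contX.comp ?_)
    unfold cl
    fun_prop) (xbd hC).choose (fun s => by
    rw [Complex.norm_real]
    exact (xbd hC).choose_spec s)

/-- the multiplier `exp(2πiκX)` -/
noncomputable def exB (hC : Coord L X Y) (κ : ℂ) : ℝ →ᵇ ℂ :=
  NormedSpace.exp ((2 * Real.pi * I * κ) • xB hC)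

theorem exB_apply (hC : Coord L X Y) (κ : ℂ) (s : ℝ) :
    exB hC κ s = cexp (2 * Real.pi * I * κ * (X (cl L s) : ℝ)) := by
  rw [exB, exp_apply]
  rfl

theorem exB_mul (hC : Coord L X Y) (κ : ℂ) : exB hC κ * exB hC (-κ) = 1 := by
  ext s
  rw [BoundedContinuousFunction.mul_apply, exB_apply, exB_apply, ← Complex.exp_add]
  simp only [BoundedContinuousFunction.coe_one, Pi.one_apply]
  rw [show (2 * Real.pi * I * κ * (X (cl L s) : ℝ) + 2 * Real.pi * I * (-κ) * (X (cl L s) : ℝ) : ℂ)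
    = 0 by ring, Complex.exp_zero]

theorem exB_conj (hC : Coord L X Y) (κ : ℝ) (s : ℝ) :
    conj (exB hC (κ : ℂ) s) = exB hC (-(κ : ℂ)) s := by
  rw [exB_apply, exB_apply, ← Complex.exp_conj]
  congr 1
  simp only [map_mul, Complex.conj_I, Complex.conj_ofReal, map_ofNat]
  ring

theorem exB_norm (hC : Coord L X Y) (κ : ℝ) : ‖exB hC (κ : ℂ)‖ ≤ 1 := by
  rw [BoundedContinuousFunction.norm_le zero_le_one]
  intro s
  rw [exB_apply]
  have : (2 * Real.pi * I * κ * (X (cl L s) : ℝ) : ℂ) =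
      ((2 * Real.pi * κ * X (cl L s) : ℝ) : ℂ) * I := by push_cast; ring
  rw [this, Complex.norm_exp_ofReal_mul_I]

theorem exB_cont (hC : Coord L X Y) : Continuous fun κ : ℝ => exB hC (κ : ℂ) := by
  unfold exB
  refine NormedSpace.exp_continuous.comp ?_
  fun_prop

/-- the operator of multiplication by `exp(2πiκX)` -/
noncomputable def EE (hC : Coord L X Y) (κ : ℂ) : XX L →L[ℂ] XX L := mulB _ (exB hC κ)

theorem EE_mul (hC : Coord L X Y) (κ : ℂ) : EE hC κ * EE hC (-κ) = 1 := by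
  unfold EE
  rw [ContinuousLinearMap.mul_def, ← mulB_mul, exB_mul, mulB_one]

theorem EE_mul' (hC : Coord L X Y) (κ : ℂ) : EE hC (-κ) * EE hC κ = 1 := by
  have := EE_mul hC (-κ)
  rwa [neg_neg] at this

theorem EE_norm (hC : Coord L X Y) (κ : ℝ) : ‖EE hC (κ : ℂ)‖ ≤ 1 :=
  (mulB_norm _ _).trans (exB_norm hC κ)

theorem EE_norm' (hC : Coord L X Y) (κ : ℝ) : ‖EE hC (-(κ : ℂ))‖ ≤ 1 := by
  have := EE_norm hC (-κ)
  rwa [Complex.ofReal_neg] at this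

theorem EE_adj (hC : Coord L X Y) (κ : ℝ) (a b : XX L) :
    ⟪a, EE hC (κ : ℂ) b⟫_ℂ = ⟪EE hC (-(κ : ℂ)) a, b⟫_ℂ := by
  unfold EE
  rw [mulB_inner, mulB_inner_left]
  refine integral_congr_ae (Eventually.of_forall fun s => ?_)
  simp only
  rw [map_mul, ← exB_conj, Complex.conj_conj]
  ring

theorem EE_cont (hC : Coord L X Y) : Continuous fun κ : ℝ => EE hC (κ : ℂ) :=
  (mulB _).continuous.comp (exB_cont hC)

theorem EE_cont' (hC : Coord L X Y) : Continuous fun κ : ℝ => EE hC (-(κ : ℂ)) := by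
  have := (EE_cont hC).comp continuous_neg
  simpa [Function.comp_def] using this

theorem cf_EE (hC : Coord L X Y) (κ : ℝ) (n : ℤ) (η : ℝ) (a : XX L) :
    cf L X Y n η (EE hC (-(κ : ℂ)) a) = cf L X Y (κ + n) η a := by
  unfold cf
  refine integral_congr_ae ?_
  filter_upwards [mulB_ae (volume.restrict (Set.Ioc (0 : ℝ) L)) (exB hC (-(κ : ℂ))) a,
    ae_restrict_mem measurableSet_Ioc] with s hs hmem
  have h1 : (EE hC (-(κ : ℂ)) a : ℝ → ℂ) s = exB hC (-(κ : ℂ)) s * a s := hs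
  rw [h1, exB_apply, cl_of hmem, ← mul_assoc]
  congr 1
  unfold ee
  rw [← Complex.exp_conj, ← Complex.exp_conj, ← Complex.exp_add]
  congr 1
  simp only [map_mul, map_add, Complex.conj_I, Complex.conj_ofReal, map_ofNat]
  push_cast
  ring

/-- the fibre `M_κ(z)` -/
noncomputable def TT (hC : Coord L X Y) (D : XX L →L[ℂ] Lp ℂ 2 nu) (θ : ℝ) (z : ℂ) (κ : ℝ) :
    XX L →L[ℂ] XX L :=
  EE hC (κ : ℂ) * TA D θ Set.univ (z, (κ : ℂ)) * EE hC (-(κ : ℂ))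

theorem TT_formula (J : Jobs) (hC : Coord L X Y) {D : XX L →L[ℂ] Lp ℂ 2 nu} (hD : IsD L X Y D)
    {θ : ℝ} (hθ : 0 < θ) {z : ℂ} (hz : z.im ≠ 0) (κ : ℝ) (a b : XX L) :
    ⟪a, TT hC D θ z κ b⟫_ℂ = ∫ q : ℤ × ℝ, (1 / ((om θ (κ + q.1, q.2) : ℂ) - z)) *
      (conj (cf L X Y (κ + q.1) q.2 a) * cf L X Y (κ + q.1) q.2 b) ∂nu := by
  have h1 : TT hC D θ z κ b = EE hC (κ : ℂ) (TA D θ Set.univ (z, (κ : ℂ)) (EE hC (-(κ : ℂ)) b)) :=
    rfl
  rw [h1, EE_adj, TA, NN_inner, mulB_inner]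
  refine integral_congr_ae ?_
  filter_upwards [hD (EE hC (-(κ : ℂ)) a), hD (EE hC (-(κ : ℂ)) b)] with q ha hb
  have hr := rho_pos q.1 q.2
  have hu := unit_of_im_z J.den hθ hz κ Set.univ
  rw [ha, hb, psB_mem hu (Set.mem_univ _), cf_EE, cf_EE, map_mul, Complex.conj_ofReal]
  have hden : den θ z (κ : ℂ) q = (om θ (κ + q.1, q.2) : ℂ) - z := by
    unfold den om
    push_cast
    ring
  rw [hden]
  have h2 : ((rho q.1 q.2 ^ (-(3 / 8) : ℝ) : ℝ) : ℂ) * (((rho q.1 q.2 ^ (3 / 4 : ℝ) : ℝ) : ℂ) *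
      ((rho q.1 q.2 ^ (-(3 / 8) : ℝ) : ℝ) : ℂ)) = 1 := by
    rw [← Complex.ofReal_mul, ← Complex.ofReal_mul, ← Real.rpow_add hr, ← Real.rpow_add hr]
    norm_num
  calc ((rho q.1 q.2 ^ (-(3 / 8) : ℝ) : ℝ) : ℂ) * conj (cf L X Y (κ + q.1) q.2 a) *
        (((rho q.1 q.2 ^ (3 / 4 : ℝ) : ℝ) : ℂ) / ((om θ (κ + q.1, q.2) : ℂ) - z) *
        (((rho q.1 q.2 ^ (-(3 / 8) : ℝ) : ℝ) : ℂ) * cf L X Y (κ + q.1) q.2 b))
      = (((rho q.1 q.2 ^ (-(3 / 8) : ℝ) : ℝ) : ℂ) * (((rho q.1 q.2 ^ (3 / 4 : ℝ) : ℝ) : ℂ) *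
      ((rho q.1 q.2 ^ (-(3 / 8) : ℝ) : ℝ) : ℂ))) * ((1 / ((om θ (κ + q.1, q.2) : ℂ) - z)) *
      (conj (cf L X Y (κ + q.1) q.2 a) * cf L X Y (κ + q.1) q.2 b)) := by ring
    _ = _ := by rw [h2, one_mul]

theorem TT_cont (J : Jobs) (hC : Coord L X Y) (D : XX L →L[ℂ] Lp ℂ 2 nu) {θ : ℝ} (hθ : 0 < θ)
    {z : ℂ} (hz : z.im ≠ 0) : Continuous (TT hC D θ z) := by
  unfold TT
  refine ((EE_cont hC).mul ?_).mul (EE_cont' hC)
  rw [continuous_iff_continuousAt]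
  intro κ
  have h1 : ContinuousAt (fun p => TA D θ Set.univ p) (z, (κ : ℂ)) :=
    (TA_analytic D (p := (z, (κ : ℂ))) (unit_of_im_z J.den hθ hz κ _)).continuousAt
  exact ContinuousAt.comp_of_eq (f := fun κ : ℝ => (z, (κ : ℂ))) h1 (by fun_prop) rfl

theorem TT_unit (hC : Coord L X Y) (D : XX L →L[ℂ] Lp ℂ 2 nu) (θ α : ℝ) (z : ℂ) (κ : ℝ) (C : ℝ)
    (hu : IsUnit (1 - (α : ℂ) • TA D θ Set.univ (z, (κ : ℂ))))
    (hb : ‖Ring.inverse (1 - (α : ℂ) • TA D θ Set.univ (z, (κ : ℂ)))‖ ≤ C) :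
    IsUnit (1 - (α : ℂ) • TT hC D θ z κ) ∧ ‖Ring.inverse (1 - (α : ℂ) • TT hC D θ z κ)‖ ≤ C := by
  set A := 1 - (α : ℂ) • TA D θ Set.univ (z, (κ : ℂ)) with hA
  set e := EE hC (κ : ℂ) with he
  set e' := EE hC (-(κ : ℂ)) with he'
  have h1 : 1 - (α : ℂ) • TT hC D θ z κ = e * A * e' := by
    rw [hA, mul_sub, sub_mul, mul_one, he, he', EE_mul, TT, mul_smul_comm, smul_mul_assoc]
  have hee' : e * e' = 1 := EE_mul hC _
  have he'e : e' * e = 1 := EE_mul' hC _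
  have hAi : A * Ring.inverse A = 1 := Ring.mul_inverse_cancel _ hu
  have hiA : Ring.inverse A * A = 1 := Ring.inverse_mul_cancel _ hu
  have h2 : (e * A * e') * (e * Ring.inverse A * e') = 1 := by
    calc (e * A * e') * (e * Ring.inverse A * e') = e * A * (e' * e) * Ring.inverse A * e' := by
          simp only [mul_assoc]
      _ = 1 := by rw [he'e, mul_one, mul_assoc e, hAi, mul_one, hee']
  have h3 : (e * Ring.inverse A * e') * (e * A * e') = 1 := by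
    calc (e * Ring.inverse A * e') * (e * A * e') = e * Ring.inverse A * (e' * e) * A * e' := by
          simp only [mul_assoc]
      _ = 1 := by rw [he'e, mul_one, mul_assoc e, hiA, mul_one, hee']
  have h4 : Ring.inverse (e * A * e') = e * Ring.inverse A * e' := by
    have := Ring.inverse_unit (⟨e * A * e', e * Ring.inverse A * e', h2, h3⟩ :
      (XX L →L[ℂ] XX L)ˣ)
    exact this
  rw [h1]
  refine ⟨⟨⟨_, _, h2, h3⟩, rfl⟩, ?_⟩
  rw [h4]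
  have n1 : ‖e‖ ≤ 1 := EE_norm hC κ
  have n2 : ‖e'‖ ≤ 1 := EE_norm' hC κ
  calc ‖e * Ring.inverse A * e'‖ ≤ ‖e‖ * ‖Ring.inverse A‖ * ‖e'‖ :=
        (norm_mul_le _ _).trans (mul_le_mul_of_nonneg_right (norm_mul_le _ _) (norm_nonneg _))
    _ ≤ 1 * ‖Ring.inverse A‖ * 1 := by gcongr
    _ ≤ C := by simpa using hb

/-- local regularity -/
theorem regB_of (J : Jobs) (hC : Coord L X Y) {D : XX L →L[ℂ] Lp ℂ 2 nu} (hD : IsD L X Y D)
    {K : (ℝ × ℝ →ᵇ ℂ) →L[ℂ] (XX L →L[ℂ] XX L)} (hK : IsK L K) {θ : ℝ} (hθ : 0 < θ) {α : ℝ}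
    (hα : 0 < α) {F : Finset ℤ} {l k : ℝ}
    (hcond : ∀ᶠ p : ℂ × ℂ in 𝓝 ((l : ℂ), (k : ℂ)), Cond θ F p)
    (hu : IsUnit (1 - (α : ℂ) • TC hC D K θ F cIn ((l : ℂ), (k : ℂ)))) :
    RegB α (TT hC D θ) l k := by
  have hp := hcond.self_of_nhds
  have h1 := energy J.energy hC hK J.app hD hα hp hu
  have han : AnalyticAt ℂ (fun p => TC hC D K θ F cOut p) ((l : ℂ), (k : ℂ)) := by
    refine TC_analytic hC D K (fun m _ => cOut_ne m) (fun m hm => ?_) hp.2.1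
    rw [cOut_sq, div_neg, div_one]
    exact hp.1 m hm
  obtain ⟨C, hCe⟩ := inv_bound (T := fun p => (α : ℂ) • TC hC D K θ F cOut p)
    (han.continuousAt.const_smul (α : ℂ)) h1
  obtain ⟨r, hr, hball⟩ := Metric.eventually_nhds_iff_ball.1 (hCe.and hcond)
  refine ⟨Metric.ball (l, k) (r / 2), Metric.ball_mem_nhds _ (by positivity), r / 2,
    by positivity, C, ?_⟩
  intro p hpO ε hε hε2
  have hmem : ((p.1 : ℂ) + ε * I, (p.2 : ℂ)) ∈ Metric.ball ((l : ℂ), (k : ℂ)) r := by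
    rw [Metric.mem_ball, Prod.dist_eq, max_lt_iff] at hpO ⊢
    simp only at hpO ⊢
    rw [Real.dist_eq, Real.dist_eq] at hpO
    constructor
    · rw [dist_eq_norm]
      have h5 : (p.1 : ℂ) + ε * I - (l : ℂ) = ((p.1 - l : ℝ) : ℂ) + ε * I := by push_cast; ring
      rw [h5]
      refine (norm_add_le _ _).trans_lt ?_
      rw [Complex.norm_real, norm_mul, Complex.norm_I, mul_one, Complex.norm_real,
        Real.norm_eq_abs, Real.norm_eq_abs, abs_of_pos hε]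
      linarith [hpO.1]
    · rw [dist_eq_norm, ← Complex.ofReal_sub, Complex.norm_real, Real.norm_eq_abs]
      linarith [hpO.2]
  obtain ⟨⟨h6, h7⟩, h8⟩ := hball _ hmem
  have him : ((p.1 : ℂ) + ε * I).im = ε := by simp
  have hEq : TC hC D K θ F cOut ((p.1 : ℂ) + ε * I, (p.2 : ℂ)) =
      TA D θ Set.univ ((p.1 : ℂ) + ε * I, (p.2 : ℂ)) :=
    TC_eq J.ker J.ft J.den hC hD hK hθ (fun m _ => cOut_ne m)
      (unit_of_im_z J.den hθ (by rw [him]; exact hε.ne') _ _)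
      (fun m hm => out_re h8 (by rw [him]; exact hε) (by simp) m hm)
  simp only [hEq] at h6 h7
  exact TT_unit hC D θ α _ _ C h6 h7

/-- **Theorem A**: the sections of the singular set over a null set of energies are null. -/
theorem theoremA (J : Jobs) (hKe : JobKernel) (hC : Coord L X Y) {D : XX L →L[ℂ] Lp ℂ 2 nu}
    (hD : IsD L X Y D) {θ : ℝ} (hθ : 0 < θ) {α : ℝ} (hα : 0 < α) (E : Set ℝ) (hE : volume E = 0) :
    volume {k : ℝ | 0 < k ∧ k < 1 ∧ ∃ l ∈ E, ¬ RegB α (TT hC D θ) l k} = 0 := by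
  obtain ⟨K, hK⟩ := hKe L hC.pos
  refine J.sect θ hθ (RegB α (TT hC D θ)) ?_ E hE
  intro l₀ k₀ h0 h1 hne
  have hfin := open_channels θ hθ l₀ k₀ h0 h1
  set F : Finset ℤ := hfin.toFinset with hF
  have hFmem : ∀ n : ℤ, n ∈ F ↔ θ ^ 2 * (k₀ + n) ^ 2 < l₀ := by
    intro n
    rw [hF, Set.Finite.mem_toFinset]
    rfl
  have hcond := eventually_cond J.den hθ l₀ k₀ h0 h1 hne hFmem
  have hp := hcond.self_of_nhds
  have hcond2 := hcond.eventually_nhds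
  obtain ⟨r, hr, hball⟩ := Metric.eventually_nhds_iff_ball.1 hcond
  have han : AnalyticAt ℂ (fun p => (α : ℂ) • TC hC D K θ F cIn p) ((l₀ : ℂ), (k₀ : ℂ)) := by
    have h2 : AnalyticAt ℂ (fun p => TC hC D K θ F cIn p) ((l₀ : ℂ), (k₀ : ℂ)) := by
      refine TC_analytic hC D K (fun m _ => cIn_ne m) (fun m hm => ?_) hp.2.1
      rw [cIn_sq, div_neg, div_one]
      exact hp.1 m hm
    exact AnalyticAt.smul (f := fun _ : ℂ × ℂ => (α : ℂ)) analyticAt_const h2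
  have hgen : ∀ᶠ p : ℝ × ℝ in 𝓝 (l₀, k₀), ∀ᶠ k' : ℂ in 𝓝[≠] (p.2 : ℂ),
      IsUnit (1 - (fun p => (α : ℂ) • TC hC D K θ F cIn p) ((p.1 : ℂ), k')) := by
    filter_upwards [Metric.ball_mem_nhds (l₀, k₀) hr] with p hpb
    rw [Metric.mem_ball, Prod.dist_eq, max_lt_iff] at hpb
    simp only at hpb
    refine generic J hC hD hK hθ α p.1 k₀ r hr (fun k hk => hball _ ?_) p.2 ?_
    · rw [Metric.mem_ball, Prod.dist_eq, max_lt_iff]
      refine ⟨?_, hk⟩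
      simp only
      rw [dist_eq_norm, ← Complex.ofReal_sub, Complex.norm_real, Real.norm_eq_abs]
      exact hpb.1
    · rw [Metric.mem_ball, dist_eq_norm, ← Complex.ofReal_sub, Complex.norm_real, Real.norm_eq_abs]
      exact hpb.2
  obtain ⟨O, hO, hnull⟩ := J.proj (XX L) (fun p => (α : ℂ) • TC hC D K θ F cIn p) l₀ k₀ han
    ((TC_approx J.app hC hD hK θ F cIn _).smul _) hgen
  have hcondR : ∀ᶠ p : ℝ × ℝ in 𝓝 (l₀, k₀),
      ∀ᶠ q : ℂ × ℂ in 𝓝 ((p.1 : ℂ), (p.2 : ℂ)), Cond θ F q := by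
    have hcont : ContinuousAt (fun p : ℝ × ℝ => ((p.1 : ℂ), (p.2 : ℂ))) (l₀, k₀) := by fun_prop
    exact hcont.eventually hcond2
  refine ⟨O ∩ {p : ℝ × ℝ | ∀ᶠ q : ℂ × ℂ in 𝓝 ((p.1 : ℂ), (p.2 : ℂ)), Cond θ F q},
    Filter.inter_mem hO hcondR, ?_⟩
  intro E' hE'
  refine measure_mono_null ?_ (hnull E' hE')
  rintro k ⟨l, hlE, ⟨hlO, hlc⟩, hreg⟩
  refine ⟨l, hlE, hlO, fun hu => hreg ?_⟩
  exact regB_of J hC hD hK hθ hα hlc hu

end Pool.Agent.U37.LC
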