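import Mathlib

/-!
Project LC: the criterion of self-adjointness for a linear relation.
-/

set_option autoImplicit false

open Filter Topology Complex
open scoped ComplexConjugate InnerProductSpace

namespace Pool.Agent.U37.LC

/-- Job SA: a symmetric operator (given by its graph `G`) such that `H - z` is onto for nonreal `z`
is self-adjoint -/
def JobSA : Prop := ∀ (V : Type) [NormedAddCommGroup V] [InnerProductSpace ℂ V] [CompleteSpace V]
  (G : V → V → Prop), G 0 0 → (∀ u v f g, G u f → G v g → G (u + v) (f + g)) →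
  (∀ (c : ℂ) u f, G u f → G (c • u) (c • f)) → (∀ f, G 0 f → f = 0) →
  (∀ u v f g, G u f → G v g → ⟪u, g⟫_ℂ = ⟪f, v⟫_ℂ) →
  (∀ z : ℂ, z.im ≠ 0 → ∀ f, ∃ u, G u (f + z • u)) →
  ∃ A : V →ₗ.[ℂ] V, IsSelfAdjoint A ∧ ∀ u f, G u f ↔ ∃ hu : u ∈ A.domain, A ⟨u, hu⟩ = f

end Pool.Agent.U37.LC
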