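import Mathlib
import Pool.Agent.U37.LC.Core
import Pool.Agent.U37.LC.Stm4
import Pool.Agent.U473.LC.AbsCont
import Pool.Agent.U473.LC.Bilip
import Pool.Agent.U375.LC.Connected
import Pool.Agent.U375.LC.NullProj
import Pool.Agent.U324.LC.Decay
import Pool.Agent.U324.LC.Energy
import Pool.Agent.U324.LC.FT
import Pool.Agent.U324.LC.Section
import Pool.Agent.U606.LC.Kernel
import Pool.Agent.U606.LC.Parseval
import Pool.Agent.U607.LC.Spectral
import Pool.Agent.U619.LC.Trace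
import Pool.Agent.U924.LC.Fibre
import Pool.Agent.U924.LC.YG
import Pool.Agent.U913.LC.Fourier
import Pool.Agent.U913.LC.DMap
import Pool.Agent.U469.LC.Free
import Pool.Agent.U469.LC.W
import Pool.Agent.U114.LC.HS
import Pool.Agent.U114.LC.Orth
import Pool.Agent.U34.LC.Den
import Pool.Agent.U591.LC.Ker
import Pool.Agent.U591.LC.ApproxN

set_option autoImplicit false


open MeasureTheory Filter Topology Complex
open scoped ComplexConjugate InnerProductSpace BoundedContinuousFunction ENNReal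

namespace Pool.Agent.U37.LC

theorem allJobs : Jobs where
  ker := Pool.Agent.U591.LC.jobKer
  ft := Pool.Agent.U324.LC.t_FT
  den := Pool.Agent.U34.LC.jobDen
  app := Pool.Agent.U591.LC.jobApproxN Pool.Agent.U606.LC.Ker.main Pool.Agent.U591.LC.jobKer
  hs := Pool.Agent.U114.LC.jobHS
  decay := Pool.Agent.U324.LC.t_Decay
  conn := Pool.Agent.U375.LC.jobConnected
  proj := Pool.Agent.U375.LC.jobNullProj
  energy := Pool.Agent.U324.LC.jobEnergy
  sect := Pool.Agent.U324.LC.jobSection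

theorem IsMul.symm_of_real {m : ℝ × ℝ → ℝ} {S : HH →L[ℂ] HH}
    (hS : IsMul (fun q => (m q : ℂ)) S) (x y : HH) : ⟪S x, y⟫_ℂ = ⟪x, S y⟫_ℂ := by
  rw [inner_L2, inner_L2]
  refine integral_congr_ae ?_
  filter_upwards [hS x, hS y] with q h1 h2
  rw [h1, h2, map_mul, Complex.conj_ofReal]
  ring

theorem IsMul.inj_of_pos {m : ℝ × ℝ → ℝ} {S : HH →L[ℂ] HH}
    (hS : IsMul (fun q => (m q : ℂ)) S) (hm : ∀ q, 0 < m q) (x : HH) (hx : S x = 0) : x = 0 := by
  rw [Lp.eq_zero_iff_ae_eq_zero] at hx ⊢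
  filter_upwards [hx, hS x] with q h1 h2
  rw [h2] at h1
  simp only [Pi.zero_apply, mul_eq_zero, Complex.ofReal_eq_zero] at h1 ⊢
  exact h1.resolve_left (hm q).ne'

theorem om_nonneg (θ : ℝ) (q : ℝ × ℝ) : 0 ≤ om θ q := by unfold om; positivity

/-- the density of the spectral measures in Fourier coordinates -/
theorem spectral_density {L θ α c₁ : ℝ} {X Y : ℝ → ℝ} (hC : Coord L X Y) (hθ : 0 < θ) (hα : 0 < α)
    (W : YY L →L[ℂ] HH) (S : HH →L[ℂ] HH) (hW : IsW L θ X Y W)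
    (hS : IsMul (fun q => (((1 + om θ q) ^ (-(1 / 2) : ℝ) : ℝ) : ℂ)) S) (hP : Pen S W α c₁)
    (f : HH) : ∃ w : ℝ → ℝ, Integrable w ∧ (∀ x, 0 ≤ w x) ∧
      ∀ z : ℂ, z.im ≠ 0 → ⟪f, RR S W α z f⟫_ℂ = ∫ x : ℝ, (w x : ℂ) / ((x : ℂ) - z) := by
  have J := allJobs
  obtain ⟨D, hD⟩ := Pool.Agent.U913.LC.DM.jobDMap Pool.Agent.U619.LC.jobTrace L X Y hC
  have hY : ∀ y : YY L, YGood W S α y :=
    Pool.Agent.U924.LC.jobYG L θ α c₁ X Y hC hθ hα W S hW hS hP (TT hC D θ)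
      (fun z hz => TT_cont J hC D hθ hz) (fun z hz κ a b => TT_formula J hC hD hθ hz κ a b)
      (fun E hE => theoremA J Pool.Agent.U606.LC.Ker.main hC hD hθ hα E hE)
  have hO := Pool.Agent.U114.LC.jobOrth jobFree L θ α c₁ hθ hα W S hS hP
  have hSp := Pool.Agent.U607.LC.jobSpectral
  exact density hSp jobAbsCont hP f (good_all hSp hP hY hO f)

/-- the spectral measures in Fourier coordinates are absolutely continuous -/
theorem spectral_measure {L θ α c₁ : ℝ} {X Y : ℝ → ℝ} (hC : Coord L X Y) (hθ : 0 < θ) (hα : 0 < α)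
    (W : YY L →L[ℂ] HH) (S : HH →L[ℂ] HH) (hW : IsW L θ X Y W)
    (hS : IsMul (fun q => (((1 + om θ q) ^ (-(1 / 2) : ℝ) : ℝ) : ℂ)) S) (hP : Pen S W α c₁)
    (f : HH) : ∃ μ : Measure ℝ, IsFiniteMeasure μ ∧ μ ≪ volume ∧
      ∀ z : ℂ, z.im ≠ 0 → ⟪f, RR S W α z f⟫_ℂ = ∫ x : ℝ, 1 / ((x : ℂ) - z) ∂μ := by
  have J := allJobs
  obtain ⟨D, hD⟩ := Pool.Agent.U913.LC.DM.jobDMap Pool.Agent.U619.LC.jobTrace L X Y hC
  have hY : ∀ y : YY L, YGood W S α y :=
    Pool.Agent.U924.LC.jobYG L θ α c₁ X Y hC hθ hα W S hW hS hP (TT hC D θ)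
      (fun z hz => TT_cont J hC D hθ hz) (fun z hz κ a b => TT_formula J hC hD hθ hz κ a b)
      (fun E hE => theoremA J Pool.Agent.U606.LC.Ker.main hC hD hθ hα E hE)
  have hO := Pool.Agent.U114.LC.jobOrth jobFree L θ α c₁ hθ hα W S hS hP
  have hSp := Pool.Agent.U607.LC.jobSpectral
  have hf := good_all hSp hP hY hO f
  obtain ⟨μ, hfin, hmass, h1, h2⟩ := spec hSp hP f
  refine ⟨μ, hfin, jobAbsCont μ hfin fun E hE hE0 δ hδ => ?_, h1⟩
  obtain ⟨V, hV, hEV, e, he, h⟩ := hf E hE hE0 δ hδ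
  refine ⟨V, hV, hEV, e, he, fun ε hε hε2 => ?_⟩
  have h3 := h ε hε hε2
  unfold DD at h3
  simp_rw [h2 ε hε] at h3
  exact h3

end Pool.Agent.U37.LC
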