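import Mathlib
import Pool.Agent.U37.LC.All

/-!
Project LC: assembly.
-/

set_option autoImplicit false
set_option linter.deprecated false
set_option maxHeartbeats 4000000

open MeasureTheory Filter Topology Complex
open scoped ComplexConjugate InnerProductSpace

namespace Pool.Agent.U37.LC

theorem final (hLink : JobLink) (hSA : JobSA) (γ : ℝ → E2) (L : ℝ) (l : E2) (α : ℝ)
    (hγ : ContDiff ℝ 1 γ) (hs : ∀ s, ‖deriv γ s‖ = 1) (hinj : Function.Injective γ) (hL : 0 < L)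
    (hl : l ≠ 0) (hper : ∀ s, γ (s + L) = γ s + l) (hα : 0 < α) :
    ∃ H : Lp ℂ 2 (volume : Measure E2) →ₗ.[ℂ] Lp ℂ 2 (volume : Measure E2),
      IsSelfAdjoint H ∧ (∀ u f, Solves γ α u f ↔ ∃ hu : u ∈ H.domain, H ⟨u, hu⟩ = f) ∧
      ∀ f : Lp ℂ 2 (volume : Measure E2), ∃ μ : Measure ℝ, IsFiniteMeasure μ ∧ μ ≪ volume ∧
        ∀ z : ℂ, z.im ≠ 0 → ∃ u : H.domain,
          (∀ v : H.domain, H v - z • (v : Lp ℂ 2 (volume : Measure E2)) = f ↔ v = u) ∧
          ⟪f, (u : Lp ℂ 2 (volume : Measure E2))⟫_ℂ = ∫ x : ℝ, 1 / ((x : ℂ) - z) ∂μ := by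
  obtain ⟨X, Y, θ, c, T, hC, hθ, hc, hT, hin, hG⟩ := hLink γ L l α hγ hs hinj hL hl hper
  have hα' : 0 < α * c := mul_pos hα hc
  obtain ⟨W, S, c₁, hW, hS, hcoer⟩ :=
    Pool.Agent.U469.LC.jobW Pool.Agent.U619.LC.jobTrace L θ (α * c) X Y hC hθ hα'
  have hpos : ∀ q : ℝ × ℝ, 0 < (1 + om θ q) ^ (-(1 / 2) : ℝ) := fun q =>
    Real.rpow_pos_of_pos (by have := om_nonneg θ q; linarith) _
  have hP : Pen S W (α * c) c₁ :=
    { symm := hS.symm_of_real
      inj := hS.inj_of_pos hpos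
      coer := hcoer }
  have hGW := hG W S hW hS
  have hcc : (c : ℂ) ≠ 0 := by exact_mod_cast hc.ne'
  have hTinj : ∀ f, T f = 0 → f = 0 := by
    intro f hf
    have h1 := hin f f
    rw [hf, inner_zero_left, mul_zero] at h1
    exact inner_self_eq_zero.1 h1
  have hAA : ∀ (z : ℂ) (v : HH), AA S W (α * c) z v = AA S W (α * c) 0 v - z • S (S v) := by
    intro z v
    rw [AA_apply, AA_apply]
    module
  -- the equation
  have heq : ∀ z : ℂ, z.im ≠ 0 → ∀ u f, Solves γ α u (f + z • u) ↔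
      T u = RR S W (α * c) z (T f) := by
    intro z hz u f
    have hu := AA_unit hP z hz
    rw [hGW]
    constructor
    · rintro ⟨v, h1, h2⟩
      rw [map_add, map_smul, map_add, map_smul, h1] at h2
      have h3 : AA S W (α * c) z v = S (T f) := by
        rw [hAA, h2]
        abel
      rw [h1, RR_apply, ← h3, AI_left z hu]
    · intro h1
      refine ⟨AI S W (α * c) z (S (T f)), h1, ?_⟩
      have h2 := AI_right z hu (S (T f))
      rw [hAA] at h2
      rw [map_add, map_smul, map_add, map_smul, h1, RR_apply]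
      rw [sub_eq_iff_eq_add] at h2
      exact h2
  obtain ⟨H, hHs, hH⟩ := hSA (Lp ℂ 2 (volume : Measure E2)) (Solves γ α)
    (by rw [hGW]; exact ⟨0, by simp, by simp⟩)
    (by
      intro u v f g hu hv
      rw [hGW] at hu hv ⊢
      obtain ⟨a, ha1, ha2⟩ := hu
      obtain ⟨b, hb1, hb2⟩ := hv
      exact ⟨a + b, by rw [map_add, map_add, ha1, hb1], by rw [map_add, map_add, map_add, ha2, hb2]⟩)
    (by
      intro d u f hu
      rw [hGW] at hu ⊢
      obtain ⟨a, ha1, ha2⟩ := hu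
      exact ⟨d • a, by rw [map_smul, map_smul, ha1], by rw [map_smul, map_smul, map_smul, ha2]⟩)
    (by
      intro f hf
      rw [hGW] at hf
      obtain ⟨a, ha1, ha2⟩ := hf
      rw [map_zero] at ha1
      rw [hP.inj a ha1.symm, map_zero] at ha2
      exact hTinj f (hP.inj _ ha2.symm))
    (by
      intro u v f g hu hv
      rw [hGW] at hu hv
      obtain ⟨a, ha1, ha2⟩ := hu
      obtain ⟨b, hb1, hb2⟩ := hv
      rw [hin, hin, ha1, hb1, hP.symm, ← hP.symm (T f), ← hb2, ← ha2, AA_adj hP, map_zero])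
    (by
      intro z hz f
      obtain ⟨u, hu⟩ := hT (RR S W (α * c) z (T f))
      exact ⟨u, (heq z hz u f).2 hu⟩)
  refine ⟨H, hHs, hH, fun f => ?_⟩
  obtain ⟨μ, hμ1, hμ2, hμ3⟩ := spectral_measure hC hθ hα' W S hW hS hP (T f)
  refine ⟨ENNReal.ofReal c • μ, ?_, ?_, fun z hz => ?_⟩
  · exact μ.smul_finite ENNReal.ofReal_ne_top
  · exact Measure.AbsolutelyContinuous.trans (Measure.smul_absolutelyContinuous) hμ2
  obtain ⟨u, hu⟩ := hT (RR S W (α * c) z (T f))
  have hsol := (heq z hz u f).2 hu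
  obtain ⟨hud, hHu⟩ := (hH u (f + z • u)).1 hsol
  refine ⟨⟨u, hud⟩, fun v => ⟨fun hv => ?_, fun hv => ?_⟩, ?_⟩
  · have h1 : H v = f + z • (v : Lp ℂ 2 (volume : Measure E2)) := by
      rw [← hv]; abel
    have h2 : Solves γ α (v : Lp ℂ 2 (volume : Measure E2))
        (f + z • (v : Lp ℂ 2 (volume : Measure E2))) := (hH _ _).2 ⟨v.2, h1⟩
    have h3 := (heq z hz _ f).1 h2
    have h4 : T ((v : Lp ℂ 2 (volume : Measure E2)) - u) = 0 := by
      rw [map_sub, h3, hu, sub_self]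
    exact Subtype.ext (sub_eq_zero.1 (hTinj _ h4))
  · rw [hv, hHu]
    simp
  · simp only
    rw [hin, hu, hμ3 z hz, integral_smul_measure, ENNReal.toReal_ofReal hc.le, Complex.real_smul]

end Pool.Agent.U37.LC
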