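import Mathlib
import Pool.Agent.U37.LC.Stm4

set_option autoImplicit false
set_option linter.deprecated false

open Filter Topology Complex
open scoped ComplexConjugate InnerProductSpace

namespace Pool.Agent.U37.LC

theorem jobSA : JobSA := by
  intro V _ _ _ G h0 hadd hsmul hfun hsymm hsurj
  classical
  let dom : Submodule ℂ V :=
    { carrier := {u | ∃ f, G u f}
      add_mem' := fun {a b} ha hb => by
        obtain ⟨f, hf⟩ := ha
        obtain ⟨g, hg⟩ := hb
        exact ⟨f + g, hadd _ _ _ _ hf hg⟩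
      zero_mem' := ⟨0, h0⟩
      smul_mem' := fun c u hu => by
        obtain ⟨f, hf⟩ := hu
        exact ⟨c • f, hsmul c _ _ hf⟩ }
  have huniq : ∀ u f g, G u f → G u g → f = g := by
    intro u f g hf hg
    have h1 := hadd _ _ _ _ hf (hsmul (-1) _ _ hg)
    have h2 : G 0 (f - g) := by simpa [sub_eq_add_neg] using h1
    exact sub_eq_zero.1 (hfun _ h2)
  let val : dom → V := fun u => (u.2 : ∃ f, G u f).choose
  have hval : ∀ u : dom, G u (val u) := fun u => (u.2 : ∃ f, G u f).choose_spec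
  let A : V →ₗ.[ℂ] V := ⟨dom,
    { toFun := val
      map_add' := fun u v => huniq _ _ _ (hval (u + v)) (hadd _ _ _ _ (hval u) (hval v))
      map_smul' := fun c u => huniq _ _ _ (hval (c • u)) (hsmul c _ _ (hval u)) }⟩
  have hAv : ∀ u : A.domain, G u (A u) := hval
  have hA : ∀ u f, G u f ↔ ∃ hu : u ∈ A.domain, A ⟨u, hu⟩ = f := by
    intro u f
    constructor
    · intro h
      exact ⟨⟨f, h⟩, huniq _ _ _ (hval ⟨u, ⟨f, h⟩⟩) h⟩
    · rintro ⟨hu, rfl⟩
      exact hval ⟨u, hu⟩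
  have hdense : Dense (A.domain : Set V) := by
    rw [Submodule.dense_iff_topologicalClosure_eq_top, Submodule.topologicalClosure_eq_top_iff,
      Submodule.eq_bot_iff]
    intro f hf
    obtain ⟨u, hu⟩ := hsurj I (by simp) f
    have hud : u ∈ A.domain := ⟨_, hu⟩
    have h1 : ⟪u, f⟫_ℂ = 0 := hf u hud
    have h1' : ⟪f, u⟫_ℂ = 0 := by rw [← inner_conj_symm, h1, map_zero]
    have h2 := hsymm _ _ _ _ hu hu
    rw [inner_add_right, inner_add_left, inner_smul_right, inner_smul_left, h1, h1', zero_add,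
      zero_add, Complex.conj_I] at h2
    have h3 : ⟪u, u⟫_ℂ = 0 := by
      have h4 : (2 * I) * ⟪u, u⟫_ℂ = 0 := by linear_combination h2
      have h5 : (2 * I : ℂ) ≠ 0 := by simp
      exact (mul_eq_zero.1 h4).resolve_left h5
    have h6 : u = 0 := inner_self_eq_zero.1 h3
    rw [h6, smul_zero, add_zero] at hu
    exact hfun f hu
  have hformal : A.IsFormalAdjoint A := fun x y => (hsymm _ _ _ _ (hAv x) (hAv y)).symm
  refine ⟨A, ?_, hA⟩
  rw [LinearPMap.isSelfAdjoint_def]
  refine le_antisymm ?_ (LinearPMap.IsFormalAdjoint.le_adjoint hdense hformal)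
  have key : ∀ y : A.adjoint.domain, ∃ hy : (y : V) ∈ A.domain, A ⟨y, hy⟩ = A.adjoint y := by
    intro y
    set g := A.adjoint y with hg
    obtain ⟨u, hu⟩ := hsurj I (by simp) (g - I • (y : V))
    set d := (y : V) - u with hd
    have hu' : G u (g - I • d) := by
      have : g - I • (y : V) + I • u = g - I • d := by rw [hd, smul_sub]; abel
      rwa [this] at hu
    obtain ⟨w, hw⟩ := hsurj (-I) (by simp) d
    have hwd : w ∈ A.domain := ⟨_, hw⟩
    have hAw : A ⟨w, hwd⟩ = d + (-I) • w := huniq _ _ _ (hAv ⟨w, hwd⟩) hw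
    have h1 : ⟪g, w⟫_ℂ = ⟪(y : V), d + (-I) • w⟫_ℂ := by
      have := (LinearPMap.adjoint_isFormalAdjoint hdense) y ⟨w, hwd⟩
      rw [← hAw]
      exact this
    have h2 := hsymm _ _ _ _ hu' hw
    rw [inner_sub_left, inner_smul_left, Complex.conj_I] at h2
    have h3 : ⟪d, d + (-I) • w⟫_ℂ = -I * ⟪d, w⟫_ℂ := by
      have h4 : ⟪d, d + (-I) • w⟫_ℂ = ⟪(y : V), d + (-I) • w⟫_ℂ - ⟪u, d + (-I) • w⟫_ℂ := by
        rw [← inner_sub_left]
      rw [h4, ← h1, h2]
      ring
    rw [inner_add_right, inner_smul_right] at h3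
    have h5 : ⟪d, d⟫_ℂ = 0 := by linear_combination h3
    have h6 : d = 0 := inner_self_eq_zero.1 h5
    have h7 : (y : V) = u := sub_eq_zero.1 h6
    rw [h6, smul_zero, sub_zero, ← h7] at hu'
    exact (hA _ _).1 hu'
  refine ⟨fun y hy => (key ⟨y, hy⟩).choose, ?_⟩
  intro y x hxy
  obtain ⟨hy, hval2⟩ := key y
  rw [← hval2]
  congr 1
  exact Subtype.ext hxy

end Pool.Agent.U37.LC
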